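import Mathlib
import Pool.Agent.Y263.SC.OpX
import Pool.Agent.P157C.Defs2

/-!
General local model: a domain `{r > 0}` with `r` strictly concave, in coordinates `(w, y)` in which the point
is `(z (w, y), y) ∈ ℂ²`.
-/

set_option autoImplicit false

open MeasureTheory Metric Set Filter Topology Complex

namespace Pool.Agent.P157D

open Pool.Agent.P157C (dz qq dbar Cut ExtP)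

/-- data of a local model, as functions of `(w, y)`: `z` is the first coordinate of the point (the second
one is `y`), `r` a defining function, `a = ∂r/∂x₁`, `b = ∂r/∂x₂`, `a' = ∂a/∂ȳ`, `b' = ∂b/∂ȳ` -/
structure GD where
  z : ℂ × ℂ → ℂ
  r : ℂ × ℂ → ℝ
  a : ℂ × ℂ → ℂ
  b : ℂ × ℂ → ℂ
  a' : ℂ × ℂ → ℂ
  b' : ℂ × ℂ → ℂ

/-- the defining function -/
def rho (g : GD) (p : ℂ × ℂ) : ℝ := g.r p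

/-- the support function -/
noncomputable def Ph (g : GD) (s p : ℂ × ℂ) : ℂ :=
  (g.r s : ℂ) + g.a s * (g.z p - g.z s) + g.b s * (p.2 - s.2)

/-- `- ∂r/∂y` -/
noncomputable def bb (g : GD) (s : ℂ × ℂ) : ℂ := -(g.a s * dz g.z s + g.b s)

/-- the numerator of the kernel -/
noncomputable def NN (g : GD) (s : ℂ × ℂ) (y : ℂ) : ℂ :=
  -(starRingEnd ℂ (bb g s) * (qq g.z s y * g.a s + g.b s) +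
    (g.r s : ℂ) * (qq g.z s y * g.a' s + g.b' s))

/-- the local model -/
structure GM (κ L : ℝ) (g : GD) : Prop where
  κ0 : 0 < κ
  κ1 : κ ≤ 1
  L1 : 1 ≤ L
  diff : DifferentiableOn ℂ g.z {p | ‖p.1‖ < κ ∧ ‖p.2‖ < κ}
  hi : ∀ p : ℂ × ℂ, ‖p.1‖ < κ → ‖p.2‖ < κ → ‖g.z p‖ ≤ L
  lip : ∀ p q : ℂ × ℂ, ‖p.1‖ < κ → ‖p.2‖ < κ → ‖q.1‖ < κ → ‖q.2‖ < κ →
    ‖g.z p - g.z q‖ ≤ L * (‖p.1 - q.1‖ + ‖p.2 - q.2‖)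
  inj : ∀ w w' y : ℂ, ‖w‖ < κ → ‖w'‖ < κ → ‖y‖ < κ → ‖w - w'‖ ≤ L * ‖g.z (w, y) - g.z (w', y)‖
  dbd : ∀ p : ℂ × ℂ, ‖p.1‖ < κ → ‖p.2‖ < κ → ‖dz g.z p‖ ≤ L
  lip2 : ∀ p q : ℂ × ℂ, ‖p.1‖ < κ → ‖p.2‖ < κ → ‖q.1‖ < κ → ‖q.2‖ < κ →
    ‖dz g.z p - dz g.z q‖ ≤ L * (‖p.1 - q.1‖ + ‖p.2 - q.2‖)
  alo : ∀ p : ℂ × ℂ, ‖p.1‖ < κ → ‖p.2‖ < κ → 1 ≤ L * ‖g.a p‖
  ahi : ∀ p : ℂ × ℂ, ‖p.1‖ < κ → ‖p.2‖ < κ → ‖g.a p‖ ≤ L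
  bhi : ∀ p : ℂ × ℂ, ‖p.1‖ < κ → ‖p.2‖ < κ → ‖g.b p‖ ≤ L
  alip : ∀ p q : ℂ × ℂ, ‖p.1‖ < κ → ‖p.2‖ < κ → ‖q.1‖ < κ → ‖q.2‖ < κ →
    ‖g.a p - g.a q‖ ≤ L * (‖p.1 - q.1‖ + ‖p.2 - q.2‖)
  blip : ∀ p q : ℂ × ℂ, ‖p.1‖ < κ → ‖p.2‖ < κ → ‖q.1‖ < κ → ‖q.2‖ < κ →
    ‖g.b p - g.b q‖ ≤ L * (‖p.1 - q.1‖ + ‖p.2 - q.2‖)
  rlip : ∀ p q : ℂ × ℂ, ‖p.1‖ < κ → ‖p.2‖ < κ → ‖q.1‖ < κ → ‖q.2‖ < κ →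
    |g.r p - g.r q| ≤ L * (‖p.1 - q.1‖ + ‖p.2 - q.2‖)
  a'hi : ∀ p : ℂ × ℂ, ‖p.1‖ < κ → ‖p.2‖ < κ → ‖g.a' p‖ ≤ L
  b'hi : ∀ p : ℂ × ℂ, ‖p.1‖ < κ → ‖p.2‖ < κ → ‖g.b' p‖ ≤ L
  a'c : ContinuousOn g.a' {p | ‖p.1‖ < κ ∧ ‖p.2‖ < κ}
  b'c : ContinuousOn g.b' {p | ‖p.1‖ < κ ∧ ‖p.2‖ < κ}
  rC : ∀ ζ : ℂ, ‖ζ‖ < κ → ContDiffOn ℝ 1 (fun η : ℂ => g.r (ζ, η)) (ball 0 κ)
  aC : ∀ ζ : ℂ, ‖ζ‖ < κ → ContDiffOn ℝ 1 (fun η : ℂ => g.a (ζ, η)) (ball 0 κ)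
  bC : ∀ ζ : ℂ, ‖ζ‖ < κ → ContDiffOn ℝ 1 (fun η : ℂ => g.b (ζ, η)) (ball 0 κ)
  rd : ∀ p : ℂ × ℂ, ‖p.1‖ < κ → ‖p.2‖ < κ →
    dbar (fun η : ℂ => (g.r (p.1, η) : ℂ)) p.2 = starRingEnd ℂ (g.a p * dz g.z p + g.b p)
  ad : ∀ p : ℂ × ℂ, ‖p.1‖ < κ → ‖p.2‖ < κ → dbar (fun η : ℂ => g.a (p.1, η)) p.2 = g.a' p
  bd : ∀ p : ℂ × ℂ, ‖p.1‖ < κ → ‖p.2‖ < κ → dbar (fun η : ℂ => g.b (p.1, η)) p.2 = g.b' p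
  cvx : ∀ s p : ℂ × ℂ, ‖s.1‖ < κ → ‖s.2‖ < κ → ‖p.1‖ < κ → ‖p.2‖ < κ →
    g.r s + g.r p + ‖g.z p - g.z s‖ ^ 2 + ‖p.2 - s.2‖ ^ 2 ≤ 2 * (Ph g s p).re
  im : ∀ p : ℂ × ℂ, ‖p.1‖ < κ → ‖p.2‖ < κ → 0 < g.r p → 0 < p.1.im

/-- the domain -/
def DD (g : GD) (κ θ : ℝ) : Set (ℂ × ℂ) := {p | ‖p.1‖ < κ ∧ ‖p.2‖ < κ ∧ θ < rho g p}

/-- the slice over `ζ` (of radius `κ / 2` in `η`) -/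
def SS (g : GD) (κ : ℝ) (ζ : ℂ) : Set ℂ := {η | ‖η‖ < κ / 2 ∧ 0 < rho g (ζ, η)}

/-- the kernel: for `s = (ζ, η)`, `p = (w, y)` -/
noncomputable def KK (g : GD) (χ : ℂ → ℝ) (s p : ℂ × ℂ) : ℂ :=
  dbar (fun η => (χ η : ℂ)) s.2 * (rho g s : ℂ) ^ 2 / (Ph g s p ^ 2 * (p.2 - s.2)) +
    2 * (χ s.2 : ℂ) * (rho g s : ℂ) * NN g s p.2 / Ph g s p ^ 3

/-- the list of pointwise estimates, `p = (w, y)` -/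
structure Pt (C : ℝ) (g : GD) (ζ w y η : ℂ) : Prop where
  im : 0 < ζ.im
  r1 : rho g (ζ, η) ≤ 2 * ‖Ph g (ζ, η) (w, y)‖
  d1 : ‖η - y‖ ^ 2 ≤ 2 * ‖Ph g (ζ, η) (w, y)‖
  rt : rho g (ζ, η) ≤ C * ζ.im
  bt : ‖bb g (ζ, η)‖ ^ 2 ≤ C * ζ.im
  nn : ‖NN g (ζ, η) y‖ ≤ C * (‖bb g (ζ, η)‖ ^ 2 + ‖Ph g (ζ, η) (w, y)‖)
  dw : ‖w - ζ‖ ≤ C * (√(ζ.im * ‖Ph g (ζ, η) (w, y)‖) + ‖Ph g (ζ, η) (w, y)‖)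
  bl : |‖bb g (ζ, η)‖ - ‖bb g (ζ, y)‖| ≤ C * ‖η - y‖
  ex : ‖(y - η) * bb g (ζ, y) - (g.z (w, y) - g.z (ζ, y)) * g.a (ζ, y)‖ ≤
    C * ‖Ph g (ζ, η) (w, y)‖

/-- a secondary function `F` on the local model -/
structure SF (κ L : ℝ) (g : GD) (F : ℂ × ℂ → ℂ) : Prop where
  diff : DifferentiableOn ℂ F {p | ‖p.1‖ < κ ∧ ‖p.2‖ < κ}
  bd : ∀ p : ℂ × ℂ, ‖p.1‖ < κ → ‖p.2‖ < κ → ‖F p‖ ≤ L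
  lip : ∀ p q : ℂ × ℂ, ‖p.1‖ < κ → ‖p.2‖ < κ → ‖q.1‖ < κ → ‖q.2‖ < κ →
    ‖F p - F q‖ ≤ L * (‖p.1 - q.1‖ + ‖p.2 - q.2‖)
  dbd : ∀ p : ℂ × ℂ, ‖p.1‖ < κ → ‖p.2‖ < κ → ‖dz F p‖ ≤ L
  dlip : ∀ p q : ℂ × ℂ, ‖p.1‖ < κ → ‖p.2‖ < κ → ‖q.1‖ < κ → ‖q.2‖ < κ →
    ‖dz F p - dz F q‖ ≤ L * (‖p.1 - q.1‖ + ‖p.2 - q.2‖)
  pos : ∀ p : ℂ × ℂ, ‖p.1‖ < κ → ‖p.2‖ < κ → 0 < rho g p → rho g p ≤ L * (F p).im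
  area : ∀ (ζ b : ℂ) (h : ℝ), ‖ζ‖ < κ → 0 < h →
    ∫⁻ η in {η : ℂ | ‖η‖ < κ / 2 ∧ ‖F (ζ, η) - b‖ < h}, ENNReal.ofReal (‖dz F (ζ, η)‖ ^ 2) ≤
      ENNReal.ofReal (L * h ^ 2)

open Pool.Agent.H720R2 Pool.Agent.H720R2.HP in
/-- the operator attached to the secondary function `F` -/
noncomputable def VV {ι : Type} (g : GD) (κ : ℝ) (F : ℂ × ℂ → ℂ) (S : Finset ι) (a : ι → ℂ)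
    (R : ι → Set ℂ) (μ : ℂ → ℂ) (v : ℂ × ℂ → ℂ) (ζ : ℂ) (p : ℂ × ℂ) : ℂ :=
  (1 / Real.pi : ℂ) * ∫ η in SS g κ ζ,
    (∑ k ∈ S, (R k).indicator (fun ω => μ ω * Wk S a k ω (F p)) (F (ζ, η))) *
      starRingEnd ℂ (dz F (ζ, η)) * v (ζ, η) * ((rho g (ζ, η) : ℂ) / Ph g (ζ, η) p) ^ 2 *
      (qq F (ζ, η) p.2 / (F p - F (ζ, η)))

/-- the part of `DD g κ θ` where the functions `f k ∘ F k`, `k ∈ I`, are small -/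
def Dm {K : ℕ} (g : GD) (κ θ : ℝ) (F : Fin K → ℂ × ℂ → ℂ) (f : Fin K → ℂ → ℂ)
    (I : Finset (Fin K)) (ε : ℝ) : Set (ℂ × ℂ) :=
  {p | p ∈ DD g κ θ ∧ ∀ k ∈ I, ‖f k (F k p)‖ < ε}

/-- the box of radius `r` about `0` -/
def Bo (r : ℝ) : Set (ℂ × ℂ) := {x | ‖x.1‖ < r ∧ ‖x.2‖ < r}

/-- `∂R/∂x₁` -/
noncomputable def d1 (R : ℂ × ℂ → ℝ) (x : ℂ × ℂ) : ℂ :=
  ((fderiv ℝ R x (1, 0) : ℂ) - Complex.I * (fderiv ℝ R x (Complex.I, 0) : ℂ)) / 2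

/-- `∂R/∂x₂` -/
noncomputable def d2 (R : ℂ × ℂ → ℝ) (x : ℂ × ℂ) : ℂ :=
  ((fderiv ℝ R x (0, 1) : ℂ) - Complex.I * (fderiv ℝ R x (0, Complex.I) : ℂ)) / 2

/-- a strictly concave function on a box -/
structure CR (r L : ℝ) (R : ℂ × ℂ → ℝ) : Prop where
  r0 : 0 < r
  r1 : r ≤ 1
  L1 : 1 ≤ L
  smooth : ContDiffOn ℝ 2 R (Bo r)
  dlo : ∀ x ∈ Bo r, 1 ≤ L * ‖d1 R x‖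
  dhi : ∀ x ∈ Bo r, ‖fderiv ℝ R x‖ ≤ L
  dlip : ∀ x ∈ Bo r, ∀ y ∈ Bo r, ‖fderiv ℝ R x - fderiv ℝ R y‖ ≤ L * ‖x - y‖
  conc : ∀ x ∈ Bo r, ∀ y ∈ Bo r,
    R y ≤ R x + fderiv ℝ R x (y - x) - (‖y.1 - x.1‖ ^ 2 + ‖y.2 - x.2‖ ^ 2)

/-- the local model given by a strictly concave function and a coordinate -/
noncomputable def gd (R : ℂ × ℂ → ℝ) (z : ℂ × ℂ → ℂ) : GD where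
  z := z
  r := fun p => R (z p, p.2)
  a := fun p => d1 R (z p, p.2)
  b := fun p => d2 R (z p, p.2)
  a' := fun p => dbar (fun η : ℂ => d1 R (z (p.1, η), η)) p.2
  b' := fun p => dbar (fun η : ℂ => d2 R (z (p.1, η), η)) p.2

/-- local data: functions `W k`, coordinates `z k` -/
structure LC {K : ℕ} (r κ L σ : ℝ) (R : ℂ × ℂ → ℝ) (W z : Fin K → ℂ × ℂ → ℂ) : Prop where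
  r0 : 0 < r
  r1 : r ≤ 1
  cr : CR r L R
  gm : ∀ k, GM κ L (gd R (z k))
  diff : ∀ k, DifferentiableOn ℂ (W k) (Bo r)
  lip : ∀ k, ∀ x ∈ Bo r, ∀ y ∈ Bo r, ‖W k x - W k y‖ ≤ L * (‖x.1 - y.1‖ + ‖x.2 - y.2‖)
  ctr : ∀ k, ‖W k (0, 0)‖ ≤ σ
  pos : ∀ k, ∀ x ∈ Bo r, 0 < R x → R x ≤ L * (W k x).im
  z1 : ∀ k, ∀ p : ℂ × ℂ, ‖p.1‖ < κ → ‖p.2‖ < κ → (z k p, p.2) ∈ Bo r ∧ W k (z k p, p.2) = p.1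
  z2 : ∀ k, ∀ x ∈ Bo r, ‖W k x‖ < κ → ‖x.2‖ < κ → z k (W k x, x.2) = x.1
  sf : ∀ j k, SF κ L (gd R (z j)) (fun p => W k (z j p, p.2))

/-- the part of `Bo r` in `{R > 0}` where the functions `f k ∘ W k`, `k ∈ I`, are small -/
def DB {K : ℕ} (r : ℝ) (R : ℂ × ℂ → ℝ) (W : Fin K → ℂ × ℂ → ℂ) (f : Fin K → ℂ → ℂ)
    (I : Finset (Fin K)) (ε : ℝ) : Set (ℂ × ℂ) :=
  {x | x ∈ Bo r ∧ 0 < R x ∧ ∀ k ∈ I, ‖f k (W k x)‖ < ε}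

/-- solutions on `D` of the Bezout equation for `f k ∘ W k` and `G`, with bound `C` -/
def Bz {K : ℕ} (D : Set (ℂ × ℂ)) (W : Fin K → ℂ × ℂ → ℂ) (f : Fin K → ℂ → ℂ) (G : ℂ × ℂ → ℂ)
    (C : ℝ) : Prop :=
  ∃ (g : Fin K → ℂ × ℂ → ℂ) (g₀ : ℂ × ℂ → ℂ),
    (∀ k, DifferentiableOn ℂ (g k) D) ∧ DifferentiableOn ℂ g₀ D ∧
    (∀ k, ∀ x ∈ D, ‖g k x‖ ≤ C) ∧ (∀ x ∈ D, ‖g₀ x‖ ≤ C) ∧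
    ∀ x ∈ D, ∑ k, f k (W k x) * g k x + G x * g₀ x = 1

end Pool.Agent.P157D
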