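import Mathlib
import Pool.Agent.P157C.PtE
import Pool.Agent.P157D.Defs

set_option autoImplicit false

open MeasureTheory Metric Set Filter Topology Complex

namespace Pool.Agent.P157D

open Pool.Agent.P157C (dz qq dbar Cut ExtP)

theorem D1_slice_diff_D1 {κ L : ℝ} {g : GD} (h : GM κ L g) {w v : ℂ} (h1 : ‖w‖ < κ)
    (h2 : ‖v‖ < κ) : DifferentiableAt ℂ (fun y : ℂ => g.z (w, y)) v := by
  have ho1 : IsOpen {p : ℂ × ℂ | ‖p.1‖ < κ} := isOpen_lt (by fun_prop) continuous_const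
  have ho2 : IsOpen {p : ℂ × ℂ | ‖p.2‖ < κ} := isOpen_lt (by fun_prop) continuous_const
  have ho : IsOpen {p : ℂ × ℂ | ‖p.1‖ < κ ∧ ‖p.2‖ < κ} := ho1.inter ho2
  have hz : DifferentiableAt ℂ g.z (w, v) := h.diff.differentiableAt (ho.mem_nhds ⟨h1, h2⟩)
  exact DifferentiableAt.comp v hz ((differentiableAt_const w).prodMk differentiableAt_id)

/-- **TARGET** -/
theorem rho_le {κ L : ℝ} {g : GD} (h : GM κ L g) {s : ℂ × ℂ} (h1 : ‖s.1‖ < κ)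
    (h2 : ‖s.2‖ < κ) (h3 : 0 < rho g s) : rho g s ≤ 2 * L ^ 2 * s.1.im := by
  have him : 0 < s.1.im := h.im s h1 h2 h3
  have h1' : ‖((s.1.re : ℝ) : ℂ)‖ < κ := by
    rw [Complex.norm_real, Real.norm_eq_abs]
    exact lt_of_le_of_lt (Complex.abs_re_le_norm _) h1
  have hr0 : g.r (((s.1.re : ℝ) : ℂ), s.2) ≤ 0 := by
    by_contra hc
    push Not at hc
    have := h.im (((s.1.re : ℝ) : ℂ), s.2) h1' h2 hc
    simp at this
  have hd : ‖((s.1.re : ℝ) : ℂ) - s.1‖ = s.1.im := by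
    have : ((s.1.re : ℝ) : ℂ) - s.1 = -(s.1.im * Complex.I) := by
      apply Complex.ext <;> simp
    rw [this, norm_neg, norm_mul, Complex.norm_I, mul_one, Complex.norm_real, Real.norm_eq_abs,
      abs_of_pos him]
  have hl := h.rlip (((s.1.re : ℝ) : ℂ), s.2) s h1' h2 h1 h2
  simp only [hd, sub_self, norm_zero, add_zero] at hl
  have hL1 := h.L1
  have h4 := (abs_le.1 hl).1
  have h5 : L * s.1.im ≤ L ^ 2 * s.1.im := mul_le_mul_of_nonneg_right (by nlinarith) him.le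
  have h6 : 0 ≤ L ^ 2 * s.1.im := by positivity
  unfold rho
  linarith

/-- **TARGET** -/
theorem qq_sub_dz {κ L : ℝ} {g : GD} (h : GM κ L g) {s : ℂ × ℂ} {y : ℂ} (h1 : ‖s.1‖ < κ)
    (h2 : ‖s.2‖ < κ) (h3 : ‖y‖ < κ) : ‖qq g.z s y - dz g.z s‖ ≤ L * ‖y - s.2‖ := by
  have hL1 := h.L1
  rcases eq_or_ne y s.2 with rfl | hne
  · unfold qq dz
    rw [dslope_same]
    simp
  · have hne' : y - s.2 ≠ 0 := sub_ne_zero.2 hne
    have hpos : 0 < ‖y - s.2‖ := norm_pos_iff.2 hne'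
    set S : Set ℂ := ball 0 κ ∩ closedBall s.2 ‖y - s.2‖ with hS
    have hconv : Convex ℝ S := (convex_ball _ _).inter (convex_closedBall _ _)
    have hg : ∀ v ∈ S, HasDerivAt (fun v : ℂ => g.z (s.1, v) - v * dz g.z s)
        (dz g.z (s.1, v) - dz g.z s) v := by
      intro v hv
      have hv1 : ‖v‖ < κ := by simpa using hv.1
      have hd := (D1_slice_diff_D1 h h1 hv1).hasDerivAt
      have h2 := hd.sub ((hasDerivAt_id v).mul_const (dz g.z s))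
      have e : (1 : ℂ) * dz g.z s = dz g.z s := one_mul _
      rw [e] at h2
      exact h2
    have hbd : ∀ v ∈ S, ‖deriv (fun v : ℂ => g.z (s.1, v) - v * dz g.z s) v‖ ≤ L * ‖y - s.2‖ := by
      intro v hv
      rw [(hg v hv).deriv]
      have hv1 : ‖v‖ < κ := by simpa using hv.1
      have hv2 : ‖v - s.2‖ ≤ ‖y - s.2‖ := by simpa [dist_eq_norm] using hv.2
      have := h.lip2 (s.1, v) s h1 hv1 h1 h2
      simp only [sub_self, norm_zero, zero_add] at this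
      exact this.trans (mul_le_mul_of_nonneg_left hv2 (by linarith))
    have hy : y ∈ S := ⟨by simpa using h3, by simp [dist_eq_norm]⟩
    have hs : s.2 ∈ S := ⟨by simpa using h2, by simp⟩
    have hmain := Convex.norm_image_sub_le_of_norm_deriv_le
      (fun v hv => (hg v hv).differentiableAt) hbd hconv hs hy
    have he : qq g.z s y - dz g.z s =
        (y - s.2)⁻¹ * ((g.z (s.1, y) - y * dz g.z s) - (g.z (s.1, s.2) - s.2 * dz g.z s)) := by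
      have := P157C.qq_eq (z := g.z) s y
      field_simp
      linear_combination this
    rw [he, norm_mul, norm_inv]
    rw [inv_mul_le_iff₀ hpos]
    calc _ ≤ L * ‖y - s.2‖ * ‖y - s.2‖ := hmain
      _ = ‖y - s.2‖ * (L * ‖y - s.2‖) := by ring

/-- **TARGET** -/
theorem qq_le {κ L : ℝ} {g : GD} (h : GM κ L g) {s : ℂ × ℂ} {y : ℂ} (h1 : ‖s.1‖ < κ)
    (h2 : ‖s.2‖ < κ) (h3 : ‖y‖ < κ) : ‖qq g.z s y‖ ≤ L := by
  rcases eq_or_ne y s.2 with rfl | hne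
  · unfold qq
    rw [dslope_same]
    exact h.dbd s h1 h2
  · have hne' : y - s.2 ≠ 0 := sub_ne_zero.2 hne
    have hpos : 0 < ‖y - s.2‖ := norm_pos_iff.2 hne'
    have hl := h.lip (s.1, y) (s.1, s.2) h1 h3 h1 h2
    simp only [sub_self, norm_zero, zero_add] at hl
    rw [← P157C.qq_eq, norm_mul] at hl
    have : ‖y - s.2‖ * ‖qq g.z s y‖ ≤ ‖y - s.2‖ * L := by linarith
    exact le_of_mul_le_mul_left this hpos

/-- **TARGET** -/
theorem bb_le {κ L : ℝ} (hκ : 0 < κ) (hκ1 : κ ≤ 1) (hL : 1 ≤ L) : ∃ C : ℝ, 1 ≤ C ∧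
    ∀ g : GD, GM κ L g → ∀ s : ℂ × ℂ, ‖s.1‖ < κ → ‖s.2‖ < κ / 2 → 0 < rho g s →
      ‖bb g s‖ ^ 2 ≤ C * s.1.im := by
  set M : ℝ := 2 / κ * (2 * L ^ 2 + (4 * L ^ 2 + 2 * L) * κ ^ 2 / 16) with hM
  have hM1 : 1 ≤ M := by
    rw [hM, div_mul_eq_mul_div, le_div_iff₀ hκ]
    nlinarith [sq_nonneg κ, mul_nonneg (sq_nonneg L) (sq_nonneg κ),
      mul_nonneg (by linarith : (0 : ℝ) ≤ L) (sq_nonneg κ)]
  refine ⟨M ^ 2, by nlinarith, ?_⟩
  intro g h s h1 h2' h3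
  have h2 : ‖s.2‖ < κ := by linarith
  have ht : 0 < s.1.im := h.im s h1 h2 h3
  have ht1 : s.1.im < 1 := by
    have := Complex.abs_im_le_norm s.1
    rw [abs_of_pos ht] at this
    linarith
  set r : ℝ := Real.sqrt s.1.im with hr
  have hr0 : 0 < r := Real.sqrt_pos.2 ht
  have hr2 : r ^ 2 = s.1.im := Real.sq_sqrt ht.le
  have hr1 : r < 1 := by nlinarith
  set B : ℝ := ‖bb g s‖ with hB
  suffices hBr : B ≤ M * r by
    have hB0 : 0 ≤ B := norm_nonneg _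
    calc B ^ 2 ≤ (M * r) ^ 2 := pow_le_pow_left₀ hB0 hBr 2
      _ = M ^ 2 * s.1.im := by rw [mul_pow, hr2]
  rcases (norm_nonneg (bb g s)).eq_or_lt with hB0 | hB0
  · rw [hB, ← hB0]; positivity
  rw [← hB] at hB0
  have hBne : (B : ℂ) ≠ 0 := by exact_mod_cast hB0.ne'
  set c : ℝ := κ / 4 * r with hc
  have hc0 : 0 < c := by positivity
  have hcκ : c < κ / 2 := by
    rw [hc]; nlinarith
  set η : ℂ := -(c : ℂ) * starRingEnd ℂ (bb g s) / (B : ℂ) with hη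
  have hηn : ‖η‖ = c := by
    rw [hη, norm_div, norm_mul, norm_neg, RCLike.norm_conj, Complex.norm_real, Complex.norm_real,
      Real.norm_eq_abs, Real.norm_eq_abs, abs_of_pos hc0, abs_of_pos hB0, ← hB]
    field_simp
  have hηb : (η * bb g s) = ((-(c * B) : ℝ) : ℂ) := by
    have hcc : starRingEnd ℂ (bb g s) * bb g s = ((B ^ 2 : ℝ) : ℂ) := by
      rw [mul_comm, Complex.mul_conj, Complex.normSq_eq_norm_sq]
    rw [hη]
    have : -(c : ℂ) * starRingEnd ℂ (bb g s) / (B : ℂ) * bb g s =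
        -(c : ℂ) * (starRingEnd ℂ (bb g s) * bb g s) / (B : ℂ) := by ring
    rw [this, hcc]
    push_cast
    field_simp
  have hy : ‖s.2 + η‖ < κ := by
    calc ‖s.2 + η‖ ≤ ‖s.2‖ + ‖η‖ := norm_add_le _ _
      _ < κ := by rw [hηn]; linarith
  set q : ℂ := qq g.z s (s.2 + η) with hq
  have hqe : g.z (s.1, s.2 + η) = g.z s + η * q := by
    have := P157C.qq_eq (z := g.z) s (s.2 + η)
    rw [add_sub_cancel_left] at this
    rw [hq, this]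
    simp
  have hq1 : ‖q - dz g.z s‖ ≤ L * c := by
    have := qq_sub_dz h h1 h2 hy
    rwa [add_sub_cancel_left, hηn] at this
  have hq2 : ‖q‖ ≤ L := qq_le h h1 h2 hy
  have hup : g.r (s.1, s.2 + η) ≤ 2 * L ^ 2 * s.1.im := by
    by_cases hp : 0 < rho g (s.1, s.2 + η)
    · exact rho_le h (s := (s.1, s.2 + η)) h1 hy hp
    · push Not at hp
      exact hp.trans (by positivity)
  have hal := h.alip (s.1, s.2 + η) s h1 hy h1 h2
  have hbl := h.blip (s.1, s.2 + η) s h1 hy h1 h2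
  simp only [sub_self, norm_zero, zero_add, add_sub_cancel_left, hηn] at hal hbl
  have hcv := h.cvx (s.1, s.2 + η) s h1 hy h1 h2
  have hPh : Ph g (s.1, s.2 + η) s = (g.r (s.1, s.2 + η) : ℂ) + η * bb g s -
      η * ((g.a (s.1, s.2 + η) - g.a s) * q + g.a s * (q - dz g.z s) +
        (g.b (s.1, s.2 + η) - g.b s)) := by
    unfold Ph bb
    rw [hqe]
    ring
  have herr : ‖η * ((g.a (s.1, s.2 + η) - g.a s) * q + g.a s * (q - dz g.z s) +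
        (g.b (s.1, s.2 + η) - g.b s))‖ ≤ c * ((L * c) * L + L * (L * c) + L * c) := by
    rw [norm_mul, hηn]
    refine mul_le_mul_of_nonneg_left ?_ hc0.le
    refine (norm_add_le _ _).trans (add_le_add ((norm_add_le _ _).trans (add_le_add ?_ ?_)) hbl)
    · rw [norm_mul]
      exact mul_le_mul hal hq2 (norm_nonneg _) (by positivity)
    · rw [norm_mul]
      exact mul_le_mul (h.ahi s h1 h2) hq1 (norm_nonneg _) (by positivity)
  have hre : (Ph g (s.1, s.2 + η) s).re ≤ g.r (s.1, s.2 + η) - c * B +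
      c * ((L * c) * L + L * (L * c) + L * c) := by
    rw [hPh, Complex.sub_re, Complex.add_re, Complex.ofReal_re, hηb, Complex.ofReal_re]
    have h5 := (Complex.abs_re_le_norm (η * ((g.a (s.1, s.2 + η) - g.a s) * q +
      g.a s * (q - dz g.z s) + (g.b (s.1, s.2 + η) - g.b s)))).trans herr
    have h6 := (abs_le.1 h5).1
    linarith
  have h3' : 0 < g.r s := h3
  have hn1 : 0 ≤ ‖g.z s - g.z (s.1, s.2 + η)‖ ^ 2 := sq_nonneg _
  have hn2 : 0 ≤ ‖s.2 - (s.1, s.2 + η).2‖ ^ 2 := sq_nonneg _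
  have hfin : 2 * (c * B) ≤ 2 * L ^ 2 * s.1.im + (4 * L ^ 2 + 2 * L) * c ^ 2 := by
    nlinarith [hup, hre, hcv, h3', hn1, hn2]
  rw [← hr2, hc] at hfin
  have hfin2 : r * (κ / 2 * B) ≤ r * ((2 * L ^ 2 + (4 * L ^ 2 + 2 * L) * κ ^ 2 / 16) * r) := by
    nlinarith [hfin]
  have hfin3 := le_of_mul_le_mul_left hfin2 hr0
  rw [hM, div_mul_eq_mul_div, div_mul_eq_mul_div, le_div_iff₀ hκ]
  linarith

/-- **TARGET** -/
theorem pt {κ L : ℝ} (hκ : 0 < κ) (hκ1 : κ ≤ 1) (hL : 1 ≤ L) : ∃ C : ℝ, 1 ≤ C ∧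
    ∀ g : GD, GM κ L g → ∀ ζ w y : ℂ, ‖ζ‖ < κ / 2 → ‖w‖ < κ / 2 → ‖y‖ < κ / 2 →
      0 ≤ rho g (w, y) → ∀ η ∈ SS g κ ζ, Pt C g ζ w y η := by
  obtain ⟨C₁, hC₁, hbb⟩ := bb_le hκ hκ1 hL
  have hL2 : 1 ≤ L ^ 2 := by nlinarith
  have hLL : L ≤ L ^ 2 := by nlinarith
  have hL24 : L ^ 2 ≤ L ^ 4 := by nlinarith
  have hL4 : 1 ≤ L ^ 4 := hL2.trans hL24
  have hK4 : L ^ 4 ≤ L ^ 4 * C₁ := by nlinarith
  have hK2 : L ^ 2 ≤ L ^ 4 * C₁ := hL24.trans hK4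
  have hK1 : L ≤ L ^ 4 * C₁ := hLL.trans hK2
  have hK0 : 1 ≤ L ^ 4 * C₁ := hL2.trans hK2
  have hKC : L ^ 2 * C₁ ≤ L ^ 4 * C₁ := by nlinarith
  have hKC' : C₁ ≤ L ^ 4 * C₁ := by nlinarith
  refine ⟨20 * (L ^ 4 * C₁), by linarith, ?_⟩
  intro g h ζ w y hζ hw hy hρp η hη
  obtain ⟨hη1, hη2⟩ := hη
  have kζ : ‖ζ‖ < κ := by linarith
  have kw : ‖w‖ < κ := by linarith
  have ky : ‖y‖ < κ := by linarith
  have kη : ‖η‖ < κ := by linarith
  have hcv := h.cvx (ζ, η) (w, y) kζ kη kw ky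
  have habs : (Ph g (ζ, η) (w, y)).re ≤ ‖Ph g (ζ, η) (w, y)‖ :=
    (le_abs_self _).trans (Complex.abs_re_le_norm _)
  have hrt := rho_le h (s := (ζ, η)) kζ kη hη2
  have him : 0 < ζ.im := h.im (ζ, η) kζ kη hη2
  have hbt := hbb g h (ζ, η) kζ hη1 hη2
  have hq := qq_sub_dz h (s := (ζ, η)) (y := y) kζ kη ky
  have hql := qq_le h (s := (ζ, η)) (y := y) kζ kη ky
  have has := h.ahi (ζ, η) kζ kη
  have halo := h.alo (ζ, η) kζ kη
  have ha' := h.a'hi (ζ, η) kζ kη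
  have hb' := h.b'hi (ζ, η) kζ kη
  have hdy := h.dbd (ζ, y) kζ ky
  have hl1 := h.lip (ζ, y) (ζ, η) kζ ky kζ kη
  have hl2 := h.lip2 (ζ, y) (ζ, η) kζ ky kζ kη
  have hal := h.alip (ζ, y) (ζ, η) kζ ky kζ kη
  have hbl := h.blip (ζ, y) (ζ, η) kζ ky kζ kη
  have hinj := h.inj w ζ y kw kζ ky
  simp only [sub_self, norm_zero, zero_add] at hl1 hl2 hal hbl
  -- the identity
  have hqd : (y - η) * qq g.z (ζ, η) y = g.z (ζ, y) - g.z (ζ, η) := P157C.qq_eq (z := g.z) (ζ, η) y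
  set P := ‖Ph g (ζ, η) (w, y)‖ with hP
  have hPeq0 : Ph g (ζ, η) (w, y) = (g.r (ζ, η) : ℂ) + g.a (ζ, η) * (g.z (w, y) - g.z (ζ, η)) +
      g.b (ζ, η) * (y - η) := rfl
  set r := rho g (ζ, η) with hr
  have hrr : g.r (ζ, η) = r := rfl
  rw [hrr] at hPeq0 hcv
  set b := bb g (ζ, η) with hb
  set q := qq g.z (ζ, η) y with hqdef
  have hP0 : 0 ≤ P := norm_nonneg _
  have hr0 : 0 < r := hη2
  have hρp' : 0 ≤ g.r (w, y) := hρp
  simp only [] at hcv hrt hbt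
  have e1 : r ≤ 2 * P := by
    have := sq_nonneg ‖g.z (w, y) - g.z (ζ, η)‖
    have := sq_nonneg ‖y - η‖
    linarith
  have e2 : ‖y - η‖ ^ 2 ≤ 2 * P := by
    have := sq_nonneg ‖g.z (w, y) - g.z (ζ, η)‖
    linarith
  have e3 : ‖g.z (w, y) - g.z (ζ, η)‖ ^ 2 ≤ 2 * P := by
    have := sq_nonneg ‖y - η‖
    linarith
  set G := q * g.a (ζ, η) + g.b (ζ, η) with hG
  have hGb : G + b = (q - dz g.z (ζ, η)) * g.a (ζ, η) := by
    simp only [hG, hb, bb]; ring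
  have hGb' : ‖G + b‖ ≤ L ^ 2 * ‖y - η‖ := by
    rw [hGb, norm_mul]
    calc _ ≤ (L * ‖y - η‖) * L := mul_le_mul hq has (norm_nonneg _) (by positivity)
      _ = _ := by ring
  have hGn : ‖G‖ ≤ ‖b‖ + L ^ 2 * ‖y - η‖ := by
    have : ‖G‖ ≤ ‖G + b‖ + ‖b‖ := by
      simpa using norm_sub_le (G + b) b
    linarith
  set D := g.z (w, y) - g.z (ζ, y) with hD
  have hPeq : Ph g (ζ, η) (w, y) = (r : ℂ) + D * g.a (ζ, η) + (y - η) * G := by
    have hG' : (y - η) * G = (g.z (ζ, y) - g.z (ζ, η)) * g.a (ζ, η) +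
        (y - η) * g.b (ζ, η) := by
      rw [hG, mul_add, ← mul_assoc, hqd]
    rw [hG', hPeq0, hD]
    ring
  have hyn : 0 ≤ ‖y - η‖ := norm_nonneg _
  have hbn : 0 ≤ ‖b‖ := norm_nonneg _
  have hmul := P157C.mul_le_sqrt hC₁ hP0 him.le e2 hbt
  have hS0 : 0 ≤ √(ζ.im * P) := Real.sqrt_nonneg _
  -- difference of `bb`
  have hbbd : ‖bb g (ζ, y) - b‖ ≤ (2 * L ^ 2 + L) * ‖y - η‖ := by
    have h1 : bb g (ζ, y) - b = -((g.a (ζ, y) - g.a (ζ, η)) * dz g.z (ζ, y) +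
        g.a (ζ, η) * (dz g.z (ζ, y) - dz g.z (ζ, η)) + (g.b (ζ, y) - g.b (ζ, η))) := by
      simp only [hb, bb]; ring
    rw [h1, norm_neg]
    refine (norm_add_le _ _).trans ?_
    have h2 : ‖(g.a (ζ, y) - g.a (ζ, η)) * dz g.z (ζ, y) +
        g.a (ζ, η) * (dz g.z (ζ, y) - dz g.z (ζ, η))‖ ≤
        (L * ‖y - η‖) * L + L * (L * ‖y - η‖) := by
      refine (norm_add_le _ _).trans (add_le_add ?_ ?_)
      · rw [norm_mul]
        exact mul_le_mul hal hdy (norm_nonneg _) (by positivity)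
      · rw [norm_mul]
        exact mul_le_mul has hl2 (norm_nonneg _) (by positivity)
    nlinarith
  -- bound of `D`
  have hD1 : ‖D‖ ≤ L * (3 * P + 2 * C₁ * √(ζ.im * P) + 2 * L ^ 2 * P) := by
    have h1 : D * g.a (ζ, η) = Ph g (ζ, η) (w, y) - (r : ℂ) - (y - η) * G := by
      rw [hPeq]; ring
    have h2 : ‖D‖ * ‖g.a (ζ, η)‖ ≤ P + r + ‖y - η‖ * ‖G‖ := by
      rw [← norm_mul, h1]
      refine (norm_sub_le _ _).trans (add_le_add ((norm_sub_le _ _).trans (add_le_add le_rfl ?_)) ?_)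
      · rw [Complex.norm_real, Real.norm_eq_abs, abs_of_pos hr0]
      · rw [norm_mul]
    have h4 : ‖y - η‖ * ‖G‖ ≤ ‖y - η‖ * ‖b‖ + L ^ 2 * ‖y - η‖ ^ 2 := by
      have := mul_le_mul_of_nonneg_left hGn hyn
      nlinarith
    have h5 : L ^ 2 * ‖y - η‖ ^ 2 ≤ L ^ 2 * (2 * P) := mul_le_mul_of_nonneg_left e2 (by positivity)
    have h6 : ‖D‖ * 1 ≤ ‖D‖ * (L * ‖g.a (ζ, η)‖) :=
      mul_le_mul_of_nonneg_left halo (norm_nonneg _)
    have h7 : ‖D‖ * (L * ‖g.a (ζ, η)‖) = L * (‖D‖ * ‖g.a (ζ, η)‖) := by ring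
    have h8 : ‖D‖ * ‖g.a (ζ, η)‖ ≤ 3 * P + 2 * C₁ * √(ζ.im * P) + 2 * L ^ 2 * P := by nlinarith
    have h9 := mul_le_mul_of_nonneg_left h8 (by linarith : (0 : ℝ) ≤ L)
    linarith
  have hs2 : √(2 * P) ^ 2 = 2 * P := Real.sq_sqrt (by positivity)
  have hs0 : 0 ≤ √(2 * P) := Real.sqrt_nonneg _
  have e2' : ‖y - η‖ ≤ √(2 * P) := Real.le_sqrt_of_sq_le e2
  have e3' : ‖g.z (w, y) - g.z (ζ, η)‖ ≤ √(2 * P) := Real.le_sqrt_of_sq_le e3
  have hD2 : ‖D‖ ≤ (1 + L) * √(2 * P) := by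
    have h1 : D = (g.z (w, y) - g.z (ζ, η)) - (g.z (ζ, y) - g.z (ζ, η)) := by rw [hD]; ring
    rw [h1]
    refine (norm_sub_le _ _).trans ?_
    have h2 : L * ‖y - η‖ ≤ L * √(2 * P) := mul_le_mul_of_nonneg_left e2' (by linarith)
    linarith
  have hLP : L * P ≤ L ^ 4 * C₁ * P := mul_le_mul_of_nonneg_right hK1 hP0
  have hL2P : L ^ 2 * P ≤ L ^ 4 * C₁ * P := mul_le_mul_of_nonneg_right hK2 hP0
  have hL4P : L ^ 4 * P ≤ L ^ 4 * C₁ * P := mul_le_mul_of_nonneg_right hK4 hP0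
  have h1P : 1 * P ≤ L ^ 4 * C₁ * P := mul_le_mul_of_nonneg_right hK0 hP0
  refine
    { im := him
      r1 := e1
      d1 := by rw [norm_sub_rev]; exact e2
      rt := ?_
      bt := ?_
      nn := ?_
      dw := ?_
      bl := ?_
      ex := ?_ }
  · have h1 : L ^ 2 * ζ.im ≤ L ^ 4 * C₁ * ζ.im := mul_le_mul_of_nonneg_right hK2 him.le
    have h2 : 0 ≤ L ^ 4 * C₁ * ζ.im := by positivity
    linarith
  · have h1 : C₁ * ζ.im ≤ L ^ 4 * C₁ * ζ.im := mul_le_mul_of_nonneg_right hKC' him.le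
    have h2 : 0 ≤ L ^ 4 * C₁ * ζ.im := by positivity
    linarith
  · have h1 : NN g (ζ, η) y = -(starRingEnd ℂ b * G + (r : ℂ) * (q * g.a' (ζ, η) + g.b' (ζ, η))) :=
      rfl
    rw [h1, norm_neg]
    have h2 : ‖starRingEnd ℂ b * G‖ ≤ ‖b‖ * (‖b‖ + L ^ 2 * ‖y - η‖) := by
      rw [norm_mul, RCLike.norm_conj]
      exact mul_le_mul_of_nonneg_left hGn hbn
    have h3 : ‖(r : ℂ) * (q * g.a' (ζ, η) + g.b' (ζ, η))‖ ≤ r * (L * L + L) := by
      rw [norm_mul, Complex.norm_real, Real.norm_eq_abs, abs_of_pos hr0]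
      refine mul_le_mul_of_nonneg_left ?_ hr0.le
      refine (norm_add_le _ _).trans (add_le_add ?_ hb')
      rw [norm_mul]
      exact mul_le_mul hql ha' (norm_nonneg _) (by linarith)
    have h4 : ‖b‖ * (L ^ 2 * ‖y - η‖) ≤ L ^ 2 * (‖b‖ ^ 2 + ‖y - η‖ ^ 2) / 2 := by
      nlinarith [mul_nonneg (by positivity : (0:ℝ) ≤ L ^ 2) (sq_nonneg (‖b‖ - ‖y - η‖))]
    have h5 : r * (L * L + L) ≤ (2 * P) * (L * L + L) :=
      mul_le_mul_of_nonneg_right e1 (by positivity)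
    have h6 : L ^ 2 * ‖y - η‖ ^ 2 ≤ L ^ 2 * (2 * P) := mul_le_mul_of_nonneg_left e2 (by positivity)
    have h7 : L ^ 2 * ‖b‖ ^ 2 ≤ L ^ 4 * C₁ * ‖b‖ ^ 2 :=
      mul_le_mul_of_nonneg_right hK2 (by positivity)
    have h8 : 1 * ‖b‖ ^ 2 ≤ L ^ 4 * C₁ * ‖b‖ ^ 2 :=
      mul_le_mul_of_nonneg_right hK0 (by positivity)
    have h9 := norm_add_le (starRingEnd ℂ b * G) ((r : ℂ) * (q * g.a' (ζ, η) + g.b' (ζ, η)))
    have h10 : 0 ≤ L ^ 4 * C₁ * ‖b‖ ^ 2 := by positivity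
    have h11 : 0 ≤ L ^ 4 * C₁ * P := by positivity
    have h12 : ‖b‖ * (‖b‖ + L ^ 2 * ‖y - η‖) = ‖b‖ ^ 2 + ‖b‖ * (L ^ 2 * ‖y - η‖) := by ring
    have h13 : (2 * P) * (L * L + L) = 2 * (L ^ 2 * P) + 2 * (L * P) := by ring
    have h14 : L ^ 2 * (‖b‖ ^ 2 + ‖y - η‖ ^ 2) / 2 =
      (L ^ 2 * ‖b‖ ^ 2) / 2 + (L ^ 2 * ‖y - η‖ ^ 2) / 2 := by ring
    have h15 : 20 * (L ^ 4 * C₁) * (‖b‖ ^ 2 + P) =
        20 * (L ^ 4 * C₁ * ‖b‖ ^ 2) + 20 * (L ^ 4 * C₁ * P) := by ring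
    have h16 : L ^ 2 * (2 * P) = 2 * (L ^ 2 * P) := by ring
    rw [h15]
    linarith
  · have h1 : L * ‖D‖ ≤ L * (L * (3 * P + 2 * C₁ * √(ζ.im * P) + 2 * L ^ 2 * P)) :=
      mul_le_mul_of_nonneg_left hD1 (by linarith)
    have h2 : L ^ 2 * (C₁ * √(ζ.im * P)) ≤ L ^ 4 * (C₁ * √(ζ.im * P)) :=
      mul_le_mul_of_nonneg_right hL24 (by positivity)
    have h3 : 0 ≤ L ^ 4 * (C₁ * √(ζ.im * P)) := by positivity
    have h11 : 0 ≤ L ^ 4 * C₁ * P := by positivity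
    have h12 : L * (L * (3 * P + 2 * C₁ * √(ζ.im * P) + 2 * L ^ 2 * P)) =
        3 * (L ^ 2 * P) + 2 * (L ^ 2 * (C₁ * √(ζ.im * P))) + 2 * (L ^ 4 * P) := by ring
    have h15 : 20 * (L ^ 4 * C₁) * (√(ζ.im * P) + P) =
        20 * (L ^ 4 * (C₁ * √(ζ.im * P))) + 20 * (L ^ 4 * C₁ * P) := by ring
    rw [h15]
    have h16 : ‖w - ζ‖ ≤ L * ‖D‖ := hinj
    linarith
  · have h1 : |‖b‖ - ‖bb g (ζ, y)‖| ≤ ‖bb g (ζ, y) - b‖ := by
      rw [norm_sub_rev]; exact abs_norm_sub_norm_le _ _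
    have h2 : (2 * L ^ 2 + L) * ‖y - η‖ ≤ 20 * (L ^ 4 * C₁) * ‖y - η‖ :=
      mul_le_mul_of_nonneg_right (by linarith) hyn
    rw [norm_sub_rev η y]
    linarith
  · have h1 : (y - η) * bb g (ζ, y) - D * g.a (ζ, y) =
        ((r : ℂ) - Ph g (ζ, η) (w, y)) - D * (g.a (ζ, y) - g.a (ζ, η)) +
          (y - η) * ((bb g (ζ, y) - b) + (G + b)) := by
      rw [hPeq]; ring
    rw [h1]
    have h2 : ‖(r : ℂ) - Ph g (ζ, η) (w, y)‖ ≤ 3 * P := by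
      refine (norm_sub_le _ _).trans ?_
      rw [Complex.norm_real, Real.norm_eq_abs, abs_of_pos hr0]
      linarith
    have h3 : ‖D * (g.a (ζ, y) - g.a (ζ, η))‖ ≤ (1 + L) * L * (2 * P) := by
      rw [norm_mul]
      have h4 : ‖g.a (ζ, y) - g.a (ζ, η)‖ ≤ L * √(2 * P) :=
        hal.trans (mul_le_mul_of_nonneg_left e2' (by linarith))
      calc _ ≤ ((1 + L) * √(2 * P)) * (L * √(2 * P)) :=
            mul_le_mul hD2 h4 (norm_nonneg _) (by positivity)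
        _ = (1 + L) * L * √(2 * P) ^ 2 := by ring
        _ = _ := by rw [hs2]
    have h5 : ‖(y - η) * ((bb g (ζ, y) - b) + (G + b))‖ ≤ (2 * L ^ 2 + L + L ^ 2) * (2 * P) := by
      rw [norm_mul]
      have h6 : ‖(bb g (ζ, y) - b) + (G + b)‖ ≤ (2 * L ^ 2 + L + L ^ 2) * ‖y - η‖ := by
        refine (norm_add_le _ _).trans ?_
        nlinarith
      calc _ ≤ ‖y - η‖ * ((2 * L ^ 2 + L + L ^ 2) * ‖y - η‖) := mul_le_mul_of_nonneg_left h6 hyn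
        _ = (2 * L ^ 2 + L + L ^ 2) * ‖y - η‖ ^ 2 := by ring
        _ ≤ _ := mul_le_mul_of_nonneg_left e2 (by positivity)
    have h9 := norm_add_le ((r : ℂ) - Ph g (ζ, η) (w, y) - D * (g.a (ζ, y) - g.a (ζ, η)))
      ((y - η) * ((bb g (ζ, y) - b) + (G + b)))
    have h10 := norm_sub_le ((r : ℂ) - Ph g (ζ, η) (w, y)) (D * (g.a (ζ, y) - g.a (ζ, η)))
    have h11 : (1 + L) * L * (2 * P) = 2 * (L * P) + 2 * (L ^ 2 * P) := by ring
    have h12 : (2 * L ^ 2 + L + L ^ 2) * (2 * P) = 6 * (L ^ 2 * P) + 2 * (L * P) := by ring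
    have h13 : 0 ≤ L ^ 4 * C₁ * P := by positivity
    have h15 : 20 * (L ^ 4 * C₁) * P = 20 * (L ^ 4 * C₁ * P) := by ring
    rw [h15]
    linarith

end Pool.Agent.P157D
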