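import Mathlib
import Pool.Agent.P157C.Rep
import Pool.Agent.P157D.PtE

set_option autoImplicit false

open MeasureTheory Metric Set Filter Topology Complex

namespace Pool.Agent.P157D

open Pool.Agent.P157C (dz qq dbar Cut ExtP)

section

open Pool.Agent.P157C (RQ FF dslope_symm)

open Pool.Agent.H720R2.HP (db db_mul db_holo db_congr)

open Pool.Agent.Y263.SC (HDb)

variable {κ L B : ℝ} {g : GD}

theorem D3_slice_D3 (h : GM κ L g) {ζ : ℂ} (hζ : ‖ζ‖ < κ) :
    DifferentiableOn ℂ (fun y : ℂ => g.z (ζ, y)) (ball 0 κ) := by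
  have h1 : MapsTo (fun y : ℂ => (ζ, y)) (ball 0 κ) {p : ℂ × ℂ | ‖p.1‖ < κ ∧ ‖p.2‖ < κ} := by
    intro y hy
    exact ⟨hζ, by simpa using hy⟩
  exact h.diff.comp (by fun_prop) h1

/-- the derivative of a real function from its derivative with respect to the conjugate variable -/
theorem D3_fd_D3 {r : ℂ → ℝ} {η A : ℂ} (hr : DifferentiableAt ℝ r η)
    (h : dbar (fun η : ℂ => (r η : ℂ)) η = starRingEnd ℂ A) (v : ℂ) :
    fderiv ℝ r η v = 2 * (A * v).re := by
  have h1 : HasFDerivAt (fun η : ℂ => (r η : ℂ)) (Complex.ofRealCLM.comp (fderiv ℝ r η)) η :=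
    Complex.ofRealCLM.hasFDerivAt.comp η hr.hasFDerivAt
  unfold dbar at h
  rw [h1.fderiv] at h
  simp only [ContinuousLinearMap.comp_apply, Complex.ofRealCLM_apply] at h
  have h2 : fderiv ℝ r η v = v.re * fderiv ℝ r η 1 + v.im * fderiv ℝ r η Complex.I := by
    have e : v = v.re • (1 : ℂ) + v.im • Complex.I := by
      apply Complex.ext <;> simp
    conv_lhs => rw [e]
    rw [map_add, map_smul, map_smul, smul_eq_mul, smul_eq_mul]
  have h3 : A.re = fderiv ℝ r η 1 / 2 := by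
    have := congrArg Complex.re h
    simp at this
    linarith
  have h4 : A.im = -(fderiv ℝ r η Complex.I / 2) := by
    have := congrArg Complex.im h
    simp at this
    linarith
  rw [h2, Complex.mul_re, h3, h4]
  ring

/-- the abstract data -/
theorem D3_rq_D3 (h : GM κ L g) {χ : ℂ → ℝ} (hχ : Cut κ B χ) {ζ y : ℂ}
    (hζ : ‖ζ‖ < κ / 2) (hy : ‖y‖ < κ / 8) (hρ : 0 < rho g (ζ, y)) :
    RQ (SS g κ ζ) (fun η => rho g (ζ, η)) (fun η => bb g (ζ, η))
      (fun η => -(qq g.z (ζ, η) y * g.a (ζ, η) + g.b (ζ, η)))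
      (fun η => -(qq g.z (ζ, η) y * g.a' (ζ, η) + g.b' (ζ, η))) χ y (3 * κ / 8) (L * L + L)
      (B * (8 / κ)) := by
  have hκ := h.κ0
  have hκ1 := h.κ1
  have hL := h.L1
  have hζ' : ‖ζ‖ < κ := by linarith
  have hyκ : ‖y‖ < κ := by linarith
  set f : ℂ → ℂ := fun y : ℂ => g.z (ζ, y) with hfdef
  have hf : DifferentiableOn ℂ f (ball 0 κ) := D3_slice_D3 h hζ'
  have hSb : SS g κ ζ ⊆ ball 0 κ := by
    intro η hη
    have : ‖η‖ < κ / 2 := hη.1
    simp only [mem_ball_zero_iff]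
    linarith
  have hf'C : ContDiffOn ℝ 1 (deriv f) (ball 0 κ) := by
    intro η hη
    have : AnalyticAt ℂ (deriv f) η := (hf.analyticAt (isOpen_ball.mem_nhds hη)).deriv
    exact ((this.contDiffAt (n := 1)).restrict_scalars ℝ).contDiffWithinAt
  have hqd : DifferentiableOn ℂ (dslope f y) (ball 0 κ) :=
    (Complex.differentiableOn_dslope (isOpen_ball.mem_nhds (by simpa using hyκ))).2 hf
  have hqC : ContDiffOn ℝ 1 (dslope f y) (ball 0 κ) := by
    intro η hη
    have : AnalyticAt ℂ (dslope f y) η := hqd.analyticAt (isOpen_ball.mem_nhds hη)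
    exact ((this.contDiffAt (n := 1)).restrict_scalars ℝ).contDiffWithinAt
  -- the function `r`
  have hrC : ContDiffOn ℝ 1 (fun η => rho g (ζ, η)) (ball 0 κ) := h.rC ζ hζ'
  have haC : ContDiffOn ℝ 1 (fun η => g.a (ζ, η)) (ball 0 κ) := h.aC ζ hζ'
  have hbC : ContDiffOn ℝ 1 (fun η => g.b (ζ, η)) (ball 0 κ) := h.bC ζ hζ'
  have hop : IsOpen (SS g κ ζ) := by
    have h1 : IsOpen (ball (0 : ℂ) κ ∩ (fun η => rho g (ζ, η)) ⁻¹' Ioi 0) :=
      hrC.continuousOn.isOpen_inter_preimage isOpen_ball isOpen_Ioi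
    have h2 : SS g κ ζ = ball (0 : ℂ) (κ / 2) ∩
        (ball (0 : ℂ) κ ∩ (fun η => rho g (ζ, η)) ⁻¹' Ioi 0) := by
      ext η
      simp only [SS, mem_ofPred_eq, mem_inter_iff, mem_ball_zero_iff, mem_preimage, mem_Ioi]
      constructor
      · rintro ⟨a, b⟩
        exact ⟨a, by linarith, b⟩
      · rintro ⟨a, _, b⟩
        exact ⟨a, b⟩
    rw [h2]
    exact isOpen_ball.inter h1
  have hq : ∀ η, qq g.z (ζ, η) y = dslope f y η := by
    intro η
    unfold qq
    exact dslope_symm f η y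
  have hdz : ∀ η, dz g.z (ζ, η) = deriv f η := fun η => rfl
  have hbb : ∀ η, bb g (ζ, η) = -(g.a (ζ, η) * deriv f η + g.b (ζ, η)) := fun η => rfl
  have hqB : ∀ η ∈ SS g κ ζ, ‖qq g.z (ζ, η) y‖ ≤ L := by
    intro η hη
    have hηκ : ‖η‖ < κ := by simpa using hSb hη
    exact qq_le h hζ' hηκ hyκ
  have hL0 : (0 : ℝ) ≤ L := by linarith
  refine ⟨hop, ?_, hrC.mono hSb, ?_, ?_, ?_, ?_, hχ.smooth, ?_, hχ.one y (by linarith), hχ.nn,
    hχ.le, ?_, ?_, fun η hη => hη.2, ⟨by linarith, hρ⟩, ?_, ?_, ?_, ?_, ?_⟩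
  · -- finite volume
    have h1 : SS g κ ζ ⊆ ball 0 κ := hSb
    exact ((measure_mono h1).trans_lt measure_ball_lt_top).ne
  · -- the derivative of r
    intro η hη v
    have hηκ : ‖η‖ < κ := by simpa using hSb hη
    have hd : DifferentiableAt ℝ (fun η => rho g (ζ, η)) η :=
      (hrC.differentiableOn one_ne_zero η (hSb hη)).differentiableAt
        (isOpen_ball.mem_nhds (hSb hη))
    rw [D3_fd_D3 (A := g.a (ζ, η) * dz g.z (ζ, η) + g.b (ζ, η)) hd (h.rd (ζ, η) hζ' hηκ) v]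
    simp only [bb]
    generalize g.a (ζ, η) * dz g.z (ζ, η) + g.b (ζ, η) = A
    simp only [Complex.mul_re, Complex.neg_re, Complex.neg_im]
    ring
  · -- continuity of b
    have h1 : ContinuousOn (fun η => -(g.a (ζ, η) * deriv f η + g.b (ζ, η))) (ball 0 κ) :=
      ((haC.continuousOn.mul hf'C.continuousOn).add hbC.continuousOn).neg
    exact h1.mono hSb
  · -- smoothness of c
    have h1 : ContDiffOn ℝ 1 (fun η => -(dslope f y η * g.a (ζ, η) + g.b (ζ, η))) (ball 0 κ) :=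
      ((hqC.mul haC).add hbC).neg
    refine (h1.mono hSb).congr (fun η _ => ?_)
    rw [hq]
  · -- the derivative of c
    intro η hη
    have hηκ : ‖η‖ < κ := by simpa using hSb hη
    have hn := isOpen_ball.mem_nhds (hSb hη)
    have e : (fun η => -(qq g.z (ζ, η) y * g.a (ζ, η) + g.b (ζ, η))) =
        fun η => (0 - dslope f y η * g.a (ζ, η)) - g.b (ζ, η) := by
      funext η
      rw [hq]
      ring
    rw [e, hq]
    have hq' : DifferentiableAt ℂ (dslope f y) η := hqd.differentiableAt hn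
    have d1 : HDb (fun η => g.a (ζ, η)) (g.a' (ζ, η)) η :=
      ⟨(haC.differentiableOn one_ne_zero η (hSb hη)).differentiableAt hn, h.ad (ζ, η) hζ' hηκ⟩
    have d2 : HDb (fun η => g.b (ζ, η)) (g.b' (ζ, η)) η :=
      ⟨(hbC.differentiableOn one_ne_zero η (hSb hη)).differentiableAt hn, h.bd (ζ, η) hζ' hηκ⟩
    have d3 := ((HDb.holo (f := fun _ : ℂ => (0 : ℂ)) (z := η)
      (differentiableAt_const _)).sub ((HDb.holo hq').mul d1)).sub d2
    rw [d3.2]
    ring
  · -- vanishing of χ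
    intro η hη
    exact hχ.zero η hη.le
  · -- the bound for the derivative of χ
    intro η hη
    have hB : 0 ≤ B := (norm_nonneg _).trans (hχ.bd η)
    by_cases hc : ‖η‖ < κ / 4
    · have h1 : (fun η => (χ η : ℂ)) =ᶠ[𝓝 η] fun _ => 1 := by
        filter_upwards [isOpen_ball.mem_nhds (show η ∈ ball (0 : ℂ) (κ / 4) by simpa using hc)]
          with ξ hξ
        have : ‖ξ‖ < κ / 4 := by simpa using hξ
        rw [hχ.one ξ this.le]
        simp
      rw [db_congr h1, db_holo (differentiableAt_const _), norm_zero, zero_mul]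
      positivity
    · push Not at hc
      have h1 : κ / 8 ≤ ‖y - η‖ := by
        have := norm_sub_norm_le η y
        rw [norm_sub_rev] at this
        linarith
      have h2 : ‖(y - η)⁻¹‖ ≤ 8 / κ := by
        rw [norm_inv, inv_eq_one_div, div_le_div_iff₀ (by linarith) hκ]
        linarith
      exact mul_le_mul (hχ.bd η) h2 (norm_nonneg _) hB
  · -- compactness
    intro ε hε
    have h1 : {η | η ∈ SS g κ ζ ∧ ε ≤ rho g (ζ, η) ∧ ‖η‖ ≤ 3 * κ / 8} =
        closedBall (0 : ℂ) (3 * κ / 8) ∩ (fun η => rho g (ζ, η)) ⁻¹' Ici ε := by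
      ext η
      simp only [SS, mem_ofPred_eq, mem_inter_iff, mem_closedBall_zero_iff, mem_preimage, mem_Ici]
      constructor
      · rintro ⟨_, b, c⟩
        exact ⟨c, b⟩
      · rintro ⟨c, b⟩
        exact ⟨⟨by linarith, by linarith⟩, b, c⟩
    rw [h1]
    refine (isCompact_closedBall (0 : ℂ) (3 * κ / 8)).of_isClosed_subset ?_ inter_subset_left
    refine ContinuousOn.preimage_isClosed_of_isClosed (hrC.continuousOn.mono ?_)
      isClosed_closedBall isClosed_Ici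
    exact closedBall_subset_ball (by linarith)
  · -- the real part
    intro η hη
    have hηκ : ‖η‖ < κ := by simpa using hSb hη
    have h0 := h.cvx (ζ, η) (ζ, y) hζ' hηκ hζ' hyκ
    have h1 : (y - η) * qq g.z (ζ, η) y = g.z (ζ, y) - g.z (ζ, η) := by
      have := sub_smul_dslope f η y
      simpa [qq, smul_eq_mul] using this
    have h2 : ((rho g (ζ, η) : ℝ) : ℂ) -
        (-(qq g.z (ζ, η) y * g.a (ζ, η) + g.b (ζ, η))) * (y - η) = Ph g (ζ, η) (ζ, y) := by
      simp only [Ph, rho]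
      linear_combination (g.a (ζ, η)) * h1
    rw [h2]
    have h3 := sq_nonneg ‖g.z (ζ, y) - g.z (ζ, η)‖
    have h4 := sq_nonneg ‖y - η‖
    simp only [rho]
    simp only at h0
    linarith
  · intro η hη
    have hηκ : ‖η‖ < κ := by simpa using hSb hη
    have h1 := rho_le h (s := (ζ, η)) hζ' hηκ hη.2
    have h2 : ζ.im ≤ 1 / 2 := by
      have := (Complex.abs_im_le_norm ζ)
      have := le_abs_self ζ.im
      linarith
    simp only at h1
    have h3 : 2 * L ^ 2 * ζ.im ≤ 2 * L ^ 2 * (1 / 2) :=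
      mul_le_mul_of_nonneg_left h2 (by positivity)
    nlinarith
  · intro η hη
    have hηκ : ‖η‖ < κ := by simpa using hSb hη
    simp only [bb]
    rw [norm_neg]
    refine (norm_add_le _ _).trans (add_le_add ?_ (h.bhi (ζ, η) hζ' hηκ))
    rw [norm_mul]
    exact mul_le_mul (h.ahi (ζ, η) hζ' hηκ) (h.dbd (ζ, η) hζ' hηκ) (norm_nonneg _) hL0
  · intro η hη
    have hηκ : ‖η‖ < κ := by simpa using hSb hη
    rw [norm_neg]
    refine (norm_add_le _ _).trans (add_le_add ?_ (h.bhi (ζ, η) hζ' hηκ))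
    rw [norm_mul]
    exact mul_le_mul (hqB η hη) (h.ahi (ζ, η) hζ' hηκ) (norm_nonneg _) hL0
  · intro η hη
    have hηκ : ‖η‖ < κ := by simpa using hSb hη
    rw [norm_neg]
    refine (norm_add_le _ _).trans (add_le_add ?_ (h.b'hi (ζ, η) hζ' hηκ))
    rw [norm_mul]
    exact mul_le_mul (hqB η hη) (h.a'hi (ζ, η) hζ' hηκ) (norm_nonneg _) hL0

end

open Pool.Agent.H720R2.HP (db) in
/-- **TARGET** -/
theorem repro {κ L B : ℝ} {g : GD} (h : GM κ L g) {χ : ℂ → ℝ} (hχ : Cut κ B χ) {ζ y : ℂ}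
    (hζ : ‖ζ‖ < κ / 2) (hy : ‖y‖ < κ / 8) (hρ : 0 < rho g (ζ, y)) {H : ℂ → ℂ}
    (hH : DifferentiableOn ℂ H (SS g κ ζ)) {M : ℝ} (hM : ∀ η ∈ SS g κ ζ, ‖H η‖ ≤ M) :
    (1 / Real.pi : ℂ) * ∫ η in SS g κ ζ, H η * KK g χ (ζ, η) (ζ, y) = H y := by
  have hR := D3_rq_D3 h hχ hζ hy hρ
  have h1 := hR.repr hH hM
  have h2 : ∫ η in SS g κ ζ, H η * KK g χ (ζ, η) (ζ, y) =
      ∫ η in SS g κ ζ, Pool.Agent.P157C.FF (fun η => rho g (ζ, η)) (fun η => bb g (ζ, η))
      (fun η => -(qq g.z (ζ, η) y * g.a (ζ, η) + g.b (ζ, η)))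
      (fun η => -(qq g.z (ζ, η) y * g.a' (ζ, η) + g.b' (ζ, η))) H χ y 0 η := by
    refine setIntegral_congr_fun hR.op.measurableSet (fun η hη => ?_)
    have hmax : max (rho g (ζ, η) - 0) 0 = rho g (ζ, η) := by
      rw [sub_zero]; exact max_eq_left hη.2.le
    have hΨ : ((rho g (ζ, η) : ℝ) : ℂ) - ((0 : ℝ) : ℂ) -
        (-(qq g.z (ζ, η) y * g.a (ζ, η) + g.b (ζ, η))) * (y - η) =
        Ph g (ζ, η) (ζ, y) := by
      have h1 : (y - η) * qq g.z (ζ, η) y = g.z (ζ, y) - g.z (ζ, η) := by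
        have := sub_smul_dslope (fun y : ℂ => g.z (ζ, y)) η y
        simpa [qq, smul_eq_mul] using this
      simp only [Ph, rho, Complex.ofReal_zero]
      linear_combination (g.a (ζ, η)) * h1
    simp only [Pool.Agent.P157C.FF]
    rw [hmax, hΨ]
    simp only [KK, NN]
    have e : dbar (fun η => (χ η : ℂ)) η = db (fun η => (χ η : ℂ)) η := rfl
    rw [e]
    simp only [rho]
    generalize y - η = d
    ring
  rw [h2, h1]
  have hπ : (Real.pi : ℂ) ≠ 0 := by exact_mod_cast Real.pi_ne_zero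
  field_simp

end Pool.Agent.P157D
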