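import Mathlib
import Pool.Agent.P157C.ExtB
import Pool.Agent.P157D.Rep

set_option autoImplicit false

open MeasureTheory Metric Set Filter Topology Complex

namespace Pool.Agent.P157D

open Pool.Agent.P157C (dz qq dbar Cut ExtP)

theorem D4_lipc_D4 {E : Type} [NormedAddCommGroup E] {κ L : ℝ} (hL : 1 ≤ L) {f : ℂ × ℂ → E}
    (hf : ∀ p q : ℂ × ℂ, ‖p.1‖ < κ → ‖p.2‖ < κ → ‖q.1‖ < κ → ‖q.2‖ < κ →
      ‖f p - f q‖ ≤ L * (‖p.1 - q.1‖ + ‖p.2 - q.2‖)) :
    ContinuousOn f {p : ℂ × ℂ | ‖p.1‖ < κ ∧ ‖p.2‖ < κ} := by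
  have hl : LipschitzOnWith (Real.toNNReal (2 * L)) f {p : ℂ × ℂ | ‖p.1‖ < κ ∧ ‖p.2‖ < κ} := by
    refine LipschitzOnWith.of_dist_le_mul fun p hp q hq => ?_
    rw [Real.coe_toNNReal _ (by linarith), dist_eq_norm, dist_eq_norm]
    refine (hf p q hp.1 hp.2 hq.1 hq.2).trans ?_
    have h1 : ‖p.1 - q.1‖ ≤ ‖p - q‖ := norm_fst_le (p - q)
    have h2 : ‖p.2 - q.2‖ ≤ ‖p - q‖ := norm_snd_le (p - q)
    nlinarith
  exact hl.continuousOn

theorem D4_rc_D4 {κ L : ℝ} {g : GD} (h : GM κ L g) :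
    ContinuousOn (rho g) {p : ℂ × ℂ | ‖p.1‖ < κ ∧ ‖p.2‖ < κ} := by
  refine D4_lipc_D4 h.L1 ?_
  intro p q h1 h2 h3 h4
  rw [Real.norm_eq_abs]
  exact h.rlip p q h1 h2 h3 h4

theorem D4_ac_D4 {κ L : ℝ} {g : GD} (h : GM κ L g) :
    ContinuousOn g.a {p : ℂ × ℂ | ‖p.1‖ < κ ∧ ‖p.2‖ < κ} := D4_lipc_D4 h.L1 h.alip

theorem D4_bc_D4 {κ L : ℝ} {g : GD} (h : GM κ L g) :
    ContinuousOn g.b {p : ℂ × ℂ | ‖p.1‖ < κ ∧ ‖p.2‖ < κ} := D4_lipc_D4 h.L1 h.blip

theorem D4_dc_D4 {κ L : ℝ} {g : GD} (h : GM κ L g) :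
    ContinuousOn (dz g.z) {p : ℂ × ℂ | ‖p.1‖ < κ ∧ ‖p.2‖ < κ} := D4_lipc_D4 h.L1 h.lip2

theorem D4_slice_D4 {E : Type} [TopologicalSpace E] {κ L : ℝ} {g : GD} (h : GM κ L g) {f : ℂ × ℂ → E}
    (hf : ContinuousOn f {p : ℂ × ℂ | ‖p.1‖ < κ ∧ ‖p.2‖ < κ}) {ζ : ℂ} (hζ : ‖ζ‖ < κ) :
    ContinuousOn (fun η => f (ζ, η)) (SS g κ ζ) := by
  have h0 := h.κ0
  refine hf.comp (by fun_prop) ?_
  intro η hη
  exact ⟨hζ, lt_trans hη.1 (by linarith)⟩

theorem D4_SS_open_D4 {κ L : ℝ} {g : GD} (h : GM κ L g) {ζ : ℂ} (hζ : ‖ζ‖ < κ) :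
    IsOpen (SS g κ ζ) := by
  have h0 := h.κ0
  have hU : IsOpen {η : ℂ | ‖η‖ < κ / 2} := isOpen_lt continuous_norm continuous_const
  have h1 : ContinuousOn (fun η => rho g (ζ, η)) {η : ℂ | ‖η‖ < κ / 2} := by
    refine (D4_rc_D4 h).comp (by fun_prop) ?_
    intro η hη
    exact ⟨hζ, lt_trans hη (by linarith)⟩
  exact h1.isOpen_inter_preimage hU isOpen_Ioi

theorem D4_sub_D4 {κ L : ℝ} {g : GD} (h : GM κ L g) {ζ η : ℂ} (hη : η ∈ SS g κ ζ) : ‖η‖ < κ := by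
  have h0 := h.κ0
  have : ‖η‖ < κ / 2 := hη.1
  linarith

theorem D4_rho_le_D4 {κ L : ℝ} {g : GD} (h : GM κ L g) {s : ℂ × ℂ} (h1 : ‖s.1‖ < κ)
    (h2 : ‖s.2‖ < κ) (h3 : 0 < rho g s) : rho g s ≤ 2 * L ^ 2 := by
  have h4 := rho_le h h1 h2 h3
  have h5 : s.1.im ≤ 1 :=
    (Complex.im_le_norm s.1).trans (h1.le.trans h.κ1)
  have h6 : 0 ≤ L ^ 2 := sq_nonneg L
  nlinarith

theorem D4_Ph_ge_D4 {κ L θ : ℝ} {g : GD} (h : GM κ L g) {s p : ℂ × ℂ} (s1 : ‖s.1‖ < κ)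
    (s2 : ‖s.2‖ < κ) (p1 : ‖p.1‖ < κ) (p2 : ‖p.2‖ < κ) (hs : 0 < rho g s) (hp : θ < rho g p) :
    θ / 2 < ‖Ph g s p‖ := by
  have h1 := h.cvx s p s1 s2 p1 p2
  have h2 := Complex.re_le_norm (Ph g s p)
  have h3 := sq_nonneg ‖g.z p - g.z s‖
  have h4 := sq_nonneg ‖p.2 - s.2‖
  have h5 : 0 < g.r s := hs
  have h6 : θ < g.r p := hp
  linarith

theorem D4_bb_le_D4 {κ L : ℝ} {g : GD} (h : GM κ L g) {s : ℂ × ℂ} (h1 : ‖s.1‖ < κ)
    (h2 : ‖s.2‖ < κ) : ‖bb g s‖ ≤ L * L + L := by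
  have hL := h.L1
  unfold bb
  rw [norm_neg]
  refine (norm_add_le _ _).trans ?_
  rw [norm_mul]
  have h3 := mul_le_mul (h.ahi s h1 h2) (h.dbd s h1 h2) (norm_nonneg _) (by linarith)
  have h4 := h.bhi s h1 h2
  linarith

theorem D4_NN_le_D4 {κ L : ℝ} {g : GD} (h : GM κ L g) {s : ℂ × ℂ} {y : ℂ} (h1 : ‖s.1‖ < κ)
    (h2 : ‖s.2‖ < κ) (h3 : ‖y‖ < κ) (hs : 0 < rho g s) :
    ‖NN g s y‖ ≤ (L * L + L) * (L * L + L) + 2 * L ^ 2 * (L * L + L) := by
  have hL := h.L1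
  have hLL : 0 ≤ L * L := by positivity
  have hq := qq_le h h1 h2 h3
  have ha := h.ahi s h1 h2
  have hb := h.bhi s h1 h2
  have ha' := h.a'hi s h1 h2
  have hb' := h.b'hi s h1 h2
  have hbb := D4_bb_le_D4 h h1 h2
  have hr : ‖(g.r s : ℂ)‖ ≤ 2 * L ^ 2 := by
    have hs' : 0 < g.r s := hs
    rw [Complex.norm_real, Real.norm_of_nonneg hs'.le]
    exact D4_rho_le_D4 h h1 h2 hs
  unfold NN
  rw [norm_neg]
  refine (norm_add_le _ _).trans (add_le_add ?_ ?_)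
  · rw [norm_mul, RCLike.norm_conj]
    refine mul_le_mul hbb ?_ (norm_nonneg _) (by linarith)
    refine (norm_add_le _ _).trans ?_
    rw [norm_mul]
    have := mul_le_mul hq ha (norm_nonneg _) (by linarith)
    linarith
  · rw [norm_mul]
    refine mul_le_mul hr ?_ (norm_nonneg _) (by positivity)
    refine (norm_add_le _ _).trans ?_
    rw [norm_mul]
    have := mul_le_mul hq ha' (norm_nonneg _) (by linarith)
    linarith

theorem D4_KK_bd_D4 {κ L B θ : ℝ} {g : GD} (h : GM κ L g) {χ : ℂ → ℝ} (hχ : Cut κ B χ)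
    (hθ : 0 < θ) {ζ η : ℂ} (hζ : ‖ζ‖ < κ / 2) (hη : η ∈ SS g κ ζ) {p : ℂ × ℂ}
    (hp : p ∈ DD g (κ / 8) θ) :
    ‖KK g χ (ζ, η) p‖ ≤ B * (2 * L ^ 2) ^ 2 / ((θ / 2) ^ 2 * (κ / 8)) +
      2 * (2 * L ^ 2) * ((L * L + L) * (L * L + L) + 2 * L ^ 2 * (L * L + L)) / (θ / 2) ^ 3 := by
  have hκ := h.κ0
  have hL := h.L1
  obtain ⟨p1, p2, p3⟩ := hp
  have hζ' : ‖ζ‖ < κ := by linarith
  have hη' := D4_sub_D4 h hη
  have hPh := D4_Ph_ge_D4 h (s := (ζ, η)) (p := p) hζ' hη' (by linarith) (by linarith) hη.2 p3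
  have hPh0 : 0 < θ / 2 := by linarith
  have hP0 : 0 < ‖Ph g (ζ, η) p‖ := by linarith
  have hr0 : 0 ≤ rho g (ζ, η) := hη.2.le
  have hr1 : rho g (ζ, η) ≤ 2 * L ^ 2 := D4_rho_le_D4 h hζ' hη' hη.2
  have hB : 0 ≤ B := (norm_nonneg _).trans (hχ.bd 0)
  unfold KK
  refine (norm_add_le _ _).trans (add_le_add ?_ ?_)
  · by_cases h4 : ‖η‖ < κ / 4
    · rw [Pool.Agent.P157C.j6_dbar_zero hχ h4, zero_mul, zero_div, norm_zero]
      positivity
    · have h5 : κ / 8 ≤ ‖p.2 - η‖ := by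
        have := norm_sub_norm_le η p.2
        rw [norm_sub_rev] at this
        linarith [not_lt.1 h4]
      rw [norm_div, norm_mul, norm_mul, norm_pow, norm_pow, Complex.norm_real,
        Real.norm_of_nonneg hr0]
      refine div_le_div₀ (by positivity) ?_ (by positivity) ?_
      · exact mul_le_mul (hχ.bd η) (pow_le_pow_left₀ hr0 hr1 2) (by positivity) hB
      · exact mul_le_mul (pow_le_pow_left₀ hPh0.le hPh.le 2) h5 (by positivity) (by positivity)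
  · have hN := D4_NN_le_D4 h (s := (ζ, η)) (y := p.2) hζ' hη' (by linarith) hη.2
    rw [norm_div, norm_mul, norm_mul, norm_mul, norm_pow, Complex.norm_real, Complex.norm_real,
      Real.norm_of_nonneg hr0, Real.norm_of_nonneg (hχ.nn η)]
    have h2 : ‖(2 : ℂ)‖ = 2 := by norm_num
    rw [h2]
    refine div_le_div₀ (by positivity) ?_ (by positivity) (pow_le_pow_left₀ hPh0.le hPh.le 3)
    · have hx0 := hχ.nn η
      have hx1 := hχ.le η
      have h6 : 2 * χ η * rho g (ζ, η) ≤ 2 * (2 * L ^ 2) := by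
        have := mul_le_mul hx1 hr1 hr0 (by norm_num)
        nlinarith
      exact mul_le_mul h6 hN (norm_nonneg _) (by positivity)

theorem D4_qq_ae_D4 {κ L : ℝ} {g : GD} (h : GM κ L g) {ζ : ℂ} (hζ : ‖ζ‖ < κ) (y : ℂ) :
    AEMeasurable (fun η => qq g.z (ζ, η) y) (volume.restrict (SS g κ ζ)) := by
  have hS := (D4_SS_open_D4 h hζ).measurableSet
  have hz : AEMeasurable (fun η => g.z (ζ, η)) (volume.restrict (SS g κ ζ)) :=
    (D4_slice_D4 h h.diff.continuousOn hζ).aemeasurable hS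
  have h1 : AEMeasurable (fun η => (g.z (ζ, y) - g.z (ζ, η)) / (y - η))
      (volume.restrict (SS g κ ζ)) :=
    (aemeasurable_const.sub hz).div (aemeasurable_const.sub aemeasurable_id)
  refine h1.congr ?_
  have h2 : ∀ᵐ η ∂(volume.restrict (SS g κ ζ)), η ≠ y := by
    refine ae_restrict_of_ae ?_
    rw [ae_iff]
    have : {a : ℂ | ¬ a ≠ y} = {y} := by ext a; simp
    rw [this]
    exact measure_singleton y
  filter_upwards [h2] with η hη
  unfold qq
  rw [dslope_of_ne _ (Ne.symm hη), slope_def_field]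

theorem D4_KK_aesm_D4 {κ L B : ℝ} {g : GD} (h : GM κ L g) {χ : ℂ → ℝ} (hχ : Cut κ B χ)
    {ζ : ℂ} (hζ : ‖ζ‖ < κ) (p : ℂ × ℂ) :
    AEStronglyMeasurable (fun η => KK g χ (ζ, η) p) (volume.restrict (SS g κ ζ)) := by
  have hS := (D4_SS_open_D4 h hζ).measurableSet
  have hz : AEMeasurable (fun η => g.z (ζ, η)) (volume.restrict (SS g κ ζ)) :=
    (D4_slice_D4 h h.diff.continuousOn hζ).aemeasurable hS
  have hdz : AEMeasurable (fun η => dz g.z (ζ, η)) (volume.restrict (SS g κ ζ)) :=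
    (D4_slice_D4 h (D4_dc_D4 h) hζ).aemeasurable hS
  have ha : AEMeasurable (fun η => g.a (ζ, η)) (volume.restrict (SS g κ ζ)) :=
    (D4_slice_D4 h (D4_ac_D4 h) hζ).aemeasurable hS
  have hb : AEMeasurable (fun η => g.b (ζ, η)) (volume.restrict (SS g κ ζ)) :=
    (D4_slice_D4 h (D4_bc_D4 h) hζ).aemeasurable hS
  have ha' : AEMeasurable (fun η => g.a' (ζ, η)) (volume.restrict (SS g κ ζ)) :=
    (D4_slice_D4 h h.a'c hζ).aemeasurable hS
  have hb' : AEMeasurable (fun η => g.b' (ζ, η)) (volume.restrict (SS g κ ζ)) :=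
    (D4_slice_D4 h h.b'c hζ).aemeasurable hS
  have hqq := D4_qq_ae_D4 h hζ p.2
  have hid : AEMeasurable (fun η : ℂ => η) (volume.restrict (SS g κ ζ)) := aemeasurable_id
  have hrho : AEMeasurable (fun η => ((rho g (ζ, η) : ℝ) : ℂ)) (volume.restrict (SS g κ ζ)) :=
    Complex.measurable_ofReal.comp_aemeasurable ((D4_slice_D4 h (D4_rc_D4 h) hζ).aemeasurable hS)
  have hrho' : AEMeasurable (fun η => ((g.r (ζ, η) : ℝ) : ℂ)) (volume.restrict (SS g κ ζ)) := hrho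
  have hdb : AEMeasurable (fun η => dbar (fun η => (χ η : ℂ)) η) (volume.restrict (SS g κ ζ)) :=
    (Pool.Agent.P157C.j6_dbar_cont hχ).measurable.aemeasurable
  have hχm : AEMeasurable (fun η => (χ η : ℂ)) (volume.restrict (SS g κ ζ)) :=
    (Complex.continuous_ofReal.comp hχ.smooth.continuous).measurable.aemeasurable
  have hPh : AEMeasurable (fun η => Ph g (ζ, η) p) (volume.restrict (SS g κ ζ)) := by
    unfold Ph
    exact (hrho'.add (ha.mul (aemeasurable_const.sub hz))).add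
      (hb.mul (aemeasurable_const.sub hid))
  have hbb : AEMeasurable (fun η => bb g (ζ, η)) (volume.restrict (SS g κ ζ)) := by
    unfold bb
    exact ((ha.mul hdz).add hb).neg
  have hNN : AEMeasurable (fun η => NN g (ζ, η) p.2) (volume.restrict (SS g κ ζ)) := by
    unfold NN
    exact (((Pool.Agent.P157C.j6_conj hbb).mul ((hqq.mul ha).add hb)).add
      (hrho'.mul ((hqq.mul ha').add hb'))).neg
  refine AEMeasurable.aestronglyMeasurable ?_
  unfold KK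
  refine AEMeasurable.add ?_ ?_
  · exact (hdb.mul (hrho.pow_const 2)).div ((hPh.pow_const 2).mul (aemeasurable_const.sub hid))
  · exact (((aemeasurable_const.mul hχm).mul hrho).mul hNN).div (hPh.pow_const 3)

/-- the candidate for the extension -/
noncomputable def D4_ev_D4 (g : GD) (κ : ℝ) (χ : ℂ → ℝ) (v : ℂ × ℂ → ℂ) (ζ : ℂ) (p : ℂ × ℂ) : ℂ :=
  open Classical in
  if ‖ζ‖ < κ / 2 ∧ ‖p.1‖ < κ / 8 ∧ ‖p.2‖ < κ / 8 then
    (1 / Real.pi : ℂ) * ∫ η in SS g κ ζ, v (ζ, η) * KK g χ (ζ, η) p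
  else 0

/-- joint measurability -/
theorem D4_ev_meas_D4 {κ L B : ℝ} {g : GD} (h : GM κ L g) {χ : ℂ → ℝ} (hχ : Cut κ B χ)
    {v : ℂ × ℂ → ℂ} (hv : Measurable v) :
    Measurable (fun q : ℂ × (ℂ × ℂ) => D4_ev_D4 g κ χ v q.1 q.2) := by
  classical
  have hκ := h.κ0
  set U : Set (ℂ × ℂ) := {p | ‖p.1‖ < κ ∧ ‖p.2‖ < κ} with hU
  have hzU : ContinuousOn g.z U := h.diff.continuousOn
  have hdzU : ContinuousOn (dz g.z) U := D4_dc_D4 h
  have hrU : ContinuousOn (rho g) U := D4_rc_D4 h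
  have haU : ContinuousOn g.a U := D4_ac_D4 h
  have hbU : ContinuousOn g.b U := D4_bc_D4 h
  have haU' : ContinuousOn g.a' U := h.a'c
  have hbU' : ContinuousOn g.b' U := h.b'c
  -- the open set
  set V : Set ((ℂ × (ℂ × ℂ)) × ℂ) := {t | ‖t.1.1‖ < κ / 2 ∧ ‖t.1.2.1‖ < κ / 8 ∧
    ‖t.1.2.2‖ < κ / 8 ∧ ‖t.2‖ < κ / 2 ∧ t.2 ≠ t.1.2.2} with hV
  have hVo : IsOpen V := by
    have o1 : IsOpen {t : (ℂ × (ℂ × ℂ)) × ℂ | ‖t.1.1‖ < κ / 2} :=
      isOpen_lt (by fun_prop) continuous_const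
    have o2 : IsOpen {t : (ℂ × (ℂ × ℂ)) × ℂ | ‖t.1.2.1‖ < κ / 8} :=
      isOpen_lt (by fun_prop) continuous_const
    have o2' : IsOpen {t : (ℂ × (ℂ × ℂ)) × ℂ | ‖t.1.2.2‖ < κ / 8} :=
      isOpen_lt (by fun_prop) continuous_const
    have o3 : IsOpen {t : (ℂ × (ℂ × ℂ)) × ℂ | ‖t.2‖ < κ / 2} :=
      isOpen_lt (by fun_prop) continuous_const
    have o4 : IsOpen {t : (ℂ × (ℂ × ℂ)) × ℂ | t.2 ≠ t.1.2.2} :=
      isOpen_ne_fun continuous_snd (by fun_prop)
    exact o1.inter (o2.inter (o2'.inter (o3.inter o4)))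
  have hVU : ∀ t ∈ V, ((t.1.1, t.2) : ℂ × ℂ) ∈ U := by
    intro t ht
    exact ⟨by linarith [ht.1], by linarith [ht.2.2.2.1]⟩
  have hrV : ContinuousOn (fun t : (ℂ × (ℂ × ℂ)) × ℂ => rho g (t.1.1, t.2)) V :=
    hrU.comp (by fun_prop) hVU
  set T : Set ((ℂ × (ℂ × ℂ)) × ℂ) :=
    V ∩ (fun t : (ℂ × (ℂ × ℂ)) × ℂ => rho g (t.1.1, t.2)) ⁻¹' Ioi 0 with hT
  have hTo : IsOpen T := hrV.isOpen_inter_preimage hVo isOpen_Ioi
  have hTm : MeasurableSet T := hTo.measurableSet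
  set f : (ℂ × (ℂ × ℂ)) × ℂ → ℂ := fun t => v (t.1.1, t.2) * KK g χ (t.1.1, t.2) t.1.2 with hf
  have hfT : Measurable (T.domRestrict f) := by
    have cA : Continuous (fun t : T => ((t.1.1.1, t.1.2) : ℂ × ℂ)) := by fun_prop
    have cB : Continuous (fun t : T => (t.1.1.2 : ℂ × ℂ)) := by fun_prop
    have cC : Continuous (fun t : T => ((t.1.1.1, t.1.1.2.2) : ℂ × ℂ)) := by fun_prop
    have mA : ∀ t : T, ((t.1.1.1, t.1.2) : ℂ × ℂ) ∈ U := fun t => hVU t.1 t.2.1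
    have mB : ∀ t : T, (t.1.1.2 : ℂ × ℂ) ∈ U := fun t =>
      ⟨by linarith [t.2.1.2.1], by linarith [t.2.1.2.2.1]⟩
    have mC : ∀ t : T, ((t.1.1.1, t.1.1.2.2) : ℂ × ℂ) ∈ U := fun t =>
      ⟨by linarith [t.2.1.1], by linarith [t.2.1.2.2.1]⟩
    have gA : Measurable (fun t : T => v (t.1.1.1, t.1.2)) := hv.comp cA.measurable
    have zA : Measurable (fun t : T => g.z (t.1.1.1, t.1.2)) :=
      (hzU.comp_continuous cA mA).measurable
    have zB : Measurable (fun t : T => g.z t.1.1.2) := (hzU.comp_continuous cB mB).measurable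
    have zC : Measurable (fun t : T => g.z (t.1.1.1, t.1.1.2.2)) :=
      (hzU.comp_continuous cC mC).measurable
    have dA : Measurable (fun t : T => dz g.z (t.1.1.1, t.1.2)) :=
      (hdzU.comp_continuous cA mA).measurable
    have aA : Measurable (fun t : T => g.a (t.1.1.1, t.1.2)) :=
      (haU.comp_continuous cA mA).measurable
    have bA0 : Measurable (fun t : T => g.b (t.1.1.1, t.1.2)) :=
      (hbU.comp_continuous cA mA).measurable
    have aA' : Measurable (fun t : T => g.a' (t.1.1.1, t.1.2)) :=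
      (haU'.comp_continuous cA mA).measurable
    have bA' : Measurable (fun t : T => g.b' (t.1.1.1, t.1.2)) :=
      (hbU'.comp_continuous cA mA).measurable
    have rA : Measurable (fun t : T => rho g (t.1.1.1, t.1.2)) :=
      (hrU.comp_continuous cA mA).measurable
    have eA : Measurable (fun t : T => t.1.2) := by fun_prop
    have yA : Measurable (fun t : T => t.1.1.2.2) := by fun_prop
    have chi : Measurable (fun t : T => χ t.1.2) :=
      (hχ.smooth.continuous.comp (by fun_prop)).measurable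
    have db : Measurable (fun t : T => dbar (fun η => (χ η : ℂ)) t.1.2) :=
      ((Pool.Agent.P157C.j6_dbar_cont hχ).comp (by fun_prop)).measurable
    have qA : Measurable (fun t : T => qq g.z (t.1.1.1, t.1.2) t.1.1.2.2) := by
      have e : (fun t : T => qq g.z (t.1.1.1, t.1.2) t.1.1.2.2) =
          fun t : T => (t.1.1.2.2 - t.1.2)⁻¹ *
            (g.z (t.1.1.1, t.1.1.2.2) - g.z (t.1.1.1, t.1.2)) := by
        funext t
        unfold qq
        rw [dslope_of_ne _ (Ne.symm t.2.1.2.2.2.2), slope_def_module, smul_eq_mul]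
      rw [e]
      exact (yA.sub eA).inv.mul (zC.sub zA)
    have star : Measurable (fun c : ℂ => starRingEnd ℂ c) := Complex.continuous_conj.measurable
    have rcA : Measurable (fun t : T => (rho g (t.1.1.1, t.1.2) : ℂ)) :=
      Complex.measurable_ofReal.comp rA
    have rcA' : Measurable (fun t : T => (g.r (t.1.1.1, t.1.2) : ℂ)) := rcA
    have ccA : Measurable (fun t : T => (χ t.1.2 : ℂ)) := Complex.measurable_ofReal.comp chi
    have phA : Measurable (fun t : T => Ph g (t.1.1.1, t.1.2) t.1.1.2) := by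
      unfold Ph
      exact (rcA'.add (aA.mul (zB.sub zA))).add (bA0.mul (yA.sub eA))
    have bA : Measurable (fun t : T => bb g (t.1.1.1, t.1.2)) := by
      unfold bb
      exact ((aA.mul dA).add bA0).neg
    have nA : Measurable (fun t : T => NN g (t.1.1.1, t.1.2) t.1.1.2.2) := by
      unfold NN
      exact (((star.comp bA).mul ((qA.mul aA).add bA0)).add
        (rcA'.mul ((qA.mul aA').add bA'))).neg
    have kA : Measurable (fun t : T => KK g χ (t.1.1.1, t.1.2) t.1.1.2) := by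
      unfold KK
      exact ((db.mul (rcA.pow_const 2)).div ((phA.pow_const 2).mul (yA.sub eA))).add
        ((((measurable_const.mul ccA).mul rcA).mul nA).div (phA.pow_const 3))
    exact gA.mul kA
  have hFm : Measurable (T.indicator f) := by
    refine measurable_of_restrict_of_restrict_compl hTm ?_ ?_
    · have e : T.domRestrict (T.indicator f) = T.domRestrict f := by
        funext t
        simp only [Set.domRestrict_apply]
        rw [Set.indicator_of_mem t.2]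
      rw [e]
      exact hfT
    · have e : Tᶜ.domRestrict (T.indicator f) = fun _ => 0 := by
        funext t
        simp only [Set.domRestrict_apply]
        rw [Set.indicator_of_notMem t.2]
      rw [e]
      exact measurable_const
  have hint : StronglyMeasurable (fun q : ℂ × (ℂ × ℂ) => ∫ η : ℂ, T.indicator f (q, η)) :=
    StronglyMeasurable.integral_prod_right
      (f := fun (q : ℂ × (ℂ × ℂ)) (η : ℂ) => T.indicator f (q, η)) hFm.stronglyMeasurable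
  have hee : (fun q : ℂ × (ℂ × ℂ) => D4_ev_D4 g κ χ v q.1 q.2) =
      fun q => (1 / Real.pi : ℂ) * ∫ η : ℂ, T.indicator f (q, η) := by
    funext q
    unfold D4_ev_D4
    by_cases hq : ‖q.1‖ < κ / 2 ∧ ‖q.2.1‖ < κ / 8 ∧ ‖q.2.2‖ < κ / 8
    · rw [if_pos hq]
      congr 1
      have hSo : IsOpen (SS g κ q.1) := D4_SS_open_D4 h (by linarith [hq.1])
      rw [← integral_indicator hSo.measurableSet]
      refine integral_congr_ae ?_
      have hne : ∀ᵐ η : ℂ, η ≠ q.2.2 := by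
        rw [ae_iff]
        simp
      filter_upwards [hne] with η hη
      by_cases hm : η ∈ SS g κ q.1
      · rw [Set.indicator_of_mem hm, Set.indicator_of_mem]
        exact ⟨⟨hq.1, hq.2.1, hq.2.2, hm.1, hη⟩, hm.2⟩
      · rw [Set.indicator_of_notMem hm, Set.indicator_of_notMem]
        rintro ⟨⟨-, -, -, h3, -⟩, h4⟩
        exact hm ⟨h3, h4⟩
    · rw [if_neg hq]
      have h0 : ∀ η : ℂ, T.indicator f (q, η) = 0 := by
        intro η
        rw [Set.indicator_of_notMem]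
        rintro ⟨⟨h1, h2, h3, -, -⟩, -⟩
        exact hq ⟨h1, h2, h3⟩
      simp [h0]
  rw [hee]
  exact measurable_const.mul hint.measurable

theorem D4_ev_aesm_D4 {κ L B : ℝ} {g : GD} (h : GM κ L g) {χ : ℂ → ℝ} (hχ : Cut κ B χ)
    {v : ℂ × ℂ → ℂ} (hv : Measurable v) {ζ : ℂ} (hζ : ‖ζ‖ < κ) (p : ℂ × ℂ) :
    AEStronglyMeasurable (fun η => v (ζ, η) * KK g χ (ζ, η) p) (volume.restrict (SS g κ ζ)) := by
  have hk := D4_KK_aesm_D4 h hχ hζ p
  have hvm : Measurable (fun η : ℂ => v (ζ, η)) := hv.comp (by fun_prop)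
  exact hvm.aestronglyMeasurable.mul hk

theorem D4_ev_qbd_D4 {κ L B M θ : ℝ} {g : GD} (h : GM κ L g) {χ : ℂ → ℝ} (hχ : Cut κ B χ)
    (hθ : 0 < θ) : ∃ M' : ℝ, ∀ (v : ℂ × ℂ → ℂ) (ζ : ℂ), ‖ζ‖ < κ / 2 →
      (∀ η ∈ SS g κ ζ, ‖v (ζ, η)‖ ≤ M) → ∀ p ∈ DD g (κ / 8) θ, ‖D4_ev_D4 g κ χ v ζ p‖ ≤ M' := by
  set M1 : ℝ := B * (2 * L ^ 2) ^ 2 / ((θ / 2) ^ 2 * (κ / 8)) +
      2 * (2 * L ^ 2) * ((L * L + L) * (L * L + L) + 2 * L ^ 2 * (L * L + L)) / (θ / 2) ^ 3
    with hM1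
  have hκ := h.κ0
  have hL := h.L1
  have hB : 0 ≤ B := (norm_nonneg _).trans (hχ.bd 0)
  have hM10 : 0 ≤ M1 := by positivity
  refine ⟨(1 / Real.pi) * (|M| * M1 * volume.real (ball (0 : ℂ) 1)), ?_⟩
  intro v ζ hζ hGM p hp
  have hsub : SS g κ ζ ⊆ ball (0 : ℂ) 1 := by
    intro η hη
    rw [mem_ball_zero_iff]
    have := D4_sub_D4 h hη
    linarith [h.κ1]
  have hfin : volume (ball (0 : ℂ) 1) < ⊤ := measure_ball_lt_top
  unfold D4_ev_D4
  rw [if_pos ⟨hζ, hp.1, hp.2.1⟩, norm_mul]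
  have h1 : ‖(1 / Real.pi : ℂ)‖ = 1 / Real.pi := by
    rw [norm_div, norm_one, Complex.norm_real, Real.norm_of_nonneg Real.pi_pos.le]
  rw [h1]
  refine mul_le_mul_of_nonneg_left ?_ (by positivity)
  refine (norm_setIntegral_le_of_norm_le_const (C := |M| * M1)
    ((measure_mono hsub).trans_lt hfin) (fun η hη => ?_)).trans ?_
  · rw [norm_mul]
    exact mul_le_mul ((hGM η hη).trans (le_abs_self M)) (D4_KK_bd_D4 h hχ hθ hζ hη hp)
      (norm_nonneg _) (abs_nonneg M)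
  · refine mul_le_mul_of_nonneg_left ?_ (by positivity)
    exact measureReal_mono hsub hfin.ne

theorem D4_ev_diff_D4 {κ L B M θ : ℝ} {g : GD} (h : GM κ L g) {χ : ℂ → ℝ} (hχ : Cut κ B χ)
    (hθ : 0 < θ) {v : ℂ × ℂ → ℂ} (hv : Measurable v) {ζ : ℂ} (hζ : ‖ζ‖ < κ / 2)
    (hM : ∀ η ∈ SS g κ ζ, ‖v (ζ, η)‖ ≤ M) :
    DifferentiableOn ℂ (D4_ev_D4 g κ χ v ζ) (DD g (κ / 8) θ) := by
  have hκ := h.κ0
  have hL := h.L1
  have hζ' : ‖ζ‖ < κ := by linarith
  have hS := (D4_SS_open_D4 h hζ').measurableSet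
  set M1 : ℝ := B * (2 * L ^ 2) ^ 2 / ((θ / 2) ^ 2 * (κ / 8)) +
      2 * (2 * L ^ 2) * ((L * L + L) * (L * L + L) + 2 * L ^ 2 * (L * L + L)) / (θ / 2) ^ 3
    with hM1
  have hB : 0 ≤ B := (norm_nonneg _).trans (hχ.bd 0)
  have hM10 : 0 ≤ M1 := by positivity
  have hsub : SS g κ ζ ⊆ ball (0 : ℂ) 1 := by
    intro η hη
    rw [mem_ball_zero_iff]
    have := D4_sub_D4 h hη
    linarith [h.κ1]
  have hfin : volume (SS g κ ζ) < ⊤ := (measure_mono hsub).trans_lt measure_ball_lt_top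
  have hfm : IsFiniteMeasure (volume.restrict (SS g κ ζ)) := ⟨by
    rw [Measure.restrict_apply_univ]; exact hfin⟩
  -- the domain is open
  have hDo : IsOpen (DD g (κ / 8) θ) := by
    have h1 : ContinuousOn (rho g) {p : ℂ × ℂ | ‖p.1‖ < κ / 8 ∧ ‖p.2‖ < κ / 8} :=
      (D4_rc_D4 h).mono fun p hp => ⟨by linarith [hp.1], by linarith [hp.2]⟩
    have h2 := h1.isOpen_inter_preimage (Pool.Agent.P157C.j6_slab (κ / 8)) (isOpen_Ioi (a := θ))
    have h3 : DD g (κ / 8) θ = {p : ℂ × ℂ | ‖p.1‖ < κ / 8 ∧ ‖p.2‖ < κ / 8} ∩ rho g ⁻¹' Ioi θ := by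
      ext p
      simp only [DD, mem_inter_iff, mem_preimage, mem_Ioi, Set.mem_ofPred_eq, and_assoc]
    rw [h3]
    exact h2
  -- differentiability of the kernel
  have hKd : ∀ η ∈ SS g κ ζ, DifferentiableOn ℂ (fun p => KK g χ (ζ, η) p) (DD g (κ / 8) θ) := by
    intro η hη p hp
    refine DifferentiableAt.differentiableWithinAt ?_
    obtain ⟨p1, p2, p3⟩ := hp
    have hzd : DifferentiableAt ℂ g.z p := by
      refine (h.diff p ⟨by linarith, by linarith⟩).differentiableAt ?_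
      exact (Pool.Agent.P157C.j6_slab κ).mem_nhds ⟨by linarith, by linarith⟩
    have hPhd : DifferentiableAt ℂ (fun p => Ph g (ζ, η) p) p := by
      unfold Ph
      exact ((hzd.sub_const _).const_mul _ |>.const_add _).add
        ((differentiableAt_snd.sub_const _).const_mul _)
    have hPh0 : Ph g (ζ, η) p ≠ 0 := by
      have h1 := D4_Ph_ge_D4 h (s := (ζ, η)) (p := p) hζ' (D4_sub_D4 h hη) (by linarith) (by linarith)
        hη.2 p3
      intro h2
      rw [h2, norm_zero] at h1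
      linarith
    have hqd : DifferentiableAt ℂ (fun y => qq g.z (ζ, η) y) p.2 := by
      have hU : IsOpen {y : ℂ | ‖y‖ < κ} := isOpen_lt continuous_norm continuous_const
      have h1 : DifferentiableOn ℂ (fun y => g.z (ζ, y)) {y : ℂ | ‖y‖ < κ} := by
        refine h.diff.comp (by fun_prop) ?_
        intro y hy
        exact ⟨hζ', hy⟩
      have h2 := (Complex.differentiableOn_dslope (c := η) (hU.mem_nhds (D4_sub_D4 h hη))).2 h1
      exact (h2 p.2 (by show ‖p.2‖ < κ; linarith)).differentiableAt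
        (hU.mem_nhds (by show ‖p.2‖ < κ; linarith))
    have hqd2 : DifferentiableAt ℂ (fun p : ℂ × ℂ => qq g.z (ζ, η) p.2) p :=
      DifferentiableAt.comp p (g := fun y => qq g.z (ζ, η) y) hqd differentiableAt_snd
    have hNd : DifferentiableAt ℂ (fun p : ℂ × ℂ => NN g (ζ, η) p.2) p := by
      unfold NN
      exact ((((hqd2.mul_const _).add_const _).const_mul _).add
        (((hqd2.mul_const _).add_const _).const_mul _)).neg
    unfold KK
    refine DifferentiableAt.add ?_ ?_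
    · by_cases h4 : ‖η‖ < κ / 4
      · have h5 : (fun p : ℂ × ℂ => dbar (fun η => (χ η : ℂ)) (ζ, η).2 *
            (rho g (ζ, η) : ℂ) ^ 2 / (Ph g (ζ, η) p ^ 2 * (p.2 - (ζ, η).2))) = fun _ => 0 := by
          funext p
          show dbar (fun η => (χ η : ℂ)) η * (rho g (ζ, η) : ℂ) ^ 2 / _ = 0
          rw [Pool.Agent.P157C.j6_dbar_zero hχ h4, zero_mul, zero_div]
        rw [h5]
        exact differentiableAt_const _
      · have h5 : p.2 - η ≠ 0 := by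
          intro h6
          have h7 : p.2 = η := sub_eq_zero.1 h6
          rw [← h7] at h4
          linarith [not_lt.1 h4]
        have h6 : DifferentiableAt ℂ (fun p : ℂ × ℂ => Ph g (ζ, η) p ^ 2 * (p.2 - η)) p :=
          (hPhd.fun_pow 2).mul (differentiableAt_snd.sub_const η)
        have h7 : DifferentiableAt ℂ (fun _ : ℂ × ℂ => dbar (fun η => (χ η : ℂ)) η *
          (rho g (ζ, η) : ℂ) ^ 2) p := differentiableAt_const _
        have h8 := h7.mul (h6.inv (mul_ne_zero (pow_ne_zero 2 hPh0) h5))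
        simp only [div_eq_mul_inv]
        exact h8
    · have h6 : DifferentiableAt ℂ (fun p : ℂ × ℂ => Ph g (ζ, η) p ^ 3) p := hPhd.fun_pow 3
      have h7 : DifferentiableAt ℂ (fun p : ℂ × ℂ => (2 * (χ η : ℂ) * (rho g (ζ, η) : ℂ)) *
        NN g (ζ, η) p.2) p := hNd.const_mul _
      have h8 := h7.mul (h6.inv (pow_ne_zero 3 hPh0))
      simp only [div_eq_mul_inv]
      exact h8
  -- the integral
  have hmain := Pool.Agent.HP.differentiableOn_integral (volume.restrict (SS g κ ζ))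
    (fun (η : ℂ) (p : ℂ × ℂ) => (SS g κ ζ).indicator (fun η => v (ζ, η) * KK g χ (ζ, η) p) η)
    (DD g (κ / 8) θ) hDo ?_ ?_ (fun _ => |M| * M1) (integrable_const _) ?_
  · refine (hmain.const_mul (1 / Real.pi : ℂ)).congr ?_
    intro p hp
    unfold D4_ev_D4
    rw [if_pos ⟨hζ, hp.1, hp.2.1⟩]
    congr 1
    refine (setIntegral_congr_fun hS fun η hη => ?_).symm
    exact indicator_of_mem hη _
  · intro p hp
    have h1 := D4_ev_aesm_D4 h hχ hv hζ' p
    refine h1.congr ?_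
    refine (ae_restrict_iff' hS).2 (Eventually.of_forall fun η hη => ?_)
    exact (indicator_of_mem hη (fun η => v (ζ, η) * KK g χ (ζ, η) p)).symm
  · intro η
    by_cases hη : η ∈ SS g κ ζ
    · simp only [indicator_of_mem hη]
      exact (hKd η hη).const_mul _
    · simp only [indicator_of_notMem hη]
      exact differentiableOn_const _
  · intro η p hp
    by_cases hη : η ∈ SS g κ ζ
    · simp only [indicator_of_mem hη]
      rw [norm_mul]
      exact mul_le_mul ((hM η hη).trans (le_abs_self M)) (D4_KK_bd_D4 h hχ hθ hζ hη hp)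
        (norm_nonneg _) (abs_nonneg M)
    · simp only [indicator_of_notMem hη, norm_zero]
      positivity

/-- pointwise bound for the kernel -/
theorem D4_KK_le_D4 {κ L B C : ℝ} (hB : 0 ≤ B) {g : GD} (h : GM κ L g) {χ : ℂ → ℝ}
    (hχ : Cut κ B χ) {ζ w y η : ℂ} (hy : ‖y‖ < κ / 8) (hη : η ∈ SS g κ ζ) (hC : 1 ≤ C)
    (hp : Pt C g ζ w y η) :
    ‖KK g χ (ζ, η) (w, y)‖ ≤ 32 * B / κ + 2 * C * (rho g (ζ, η) *
      (‖bb g (ζ, η)‖ ^ 2 + ‖Ph g (ζ, η) (w, y)‖) / ‖Ph g (ζ, η) (w, y)‖ ^ 3) := by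
  have hr : 0 < rho g (ζ, η) := hη.2
  have hκ := h.κ0
  set r := rho g (ζ, η) with hrdef
  set Φ := ‖Ph g (ζ, η) (w, y)‖ with hΦdef
  have hΦ : 0 < Φ := by nlinarith [hp.r1]
  unfold KK
  refine (norm_add_le _ _).trans (add_le_add ?_ ?_)
  · simp only
    rw [norm_div, norm_mul, norm_mul, norm_pow, norm_pow, Complex.norm_real, Real.norm_eq_abs,
      ← hrdef, abs_of_pos hr, ← hΦdef]
    by_cases hc : ‖η‖ < κ / 4
    · rw [Pool.Agent.P157C.dbar_zero hχ hc]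
      simp only [norm_zero, zero_mul, zero_div]
      positivity
    · have hyη : κ / 8 ≤ ‖y - η‖ := by
        have := norm_sub_norm_le η y
        rw [norm_sub_rev] at this
        linarith [not_lt.1 hc]
      have hyη0 : 0 < ‖y - η‖ := lt_of_lt_of_le (by positivity) hyη
      rw [div_le_div_iff₀ (by positivity) hκ]
      have hr2 : r ^ 2 ≤ 4 * Φ ^ 2 := by nlinarith [hp.r1]
      calc ‖dbar (fun η => (χ η : ℂ)) η‖ * r ^ 2 * κ ≤ B * (4 * Φ ^ 2) * (8 * ‖y - η‖) := by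
            gcongr
            · exact hχ.bd η
            · linarith
        _ = 32 * B * (Φ ^ 2 * ‖y - η‖) := by ring
  · simp only
    rw [norm_div, norm_mul, norm_mul, norm_mul, norm_pow, Complex.norm_real, Complex.norm_real,
      Real.norm_eq_abs, Real.norm_eq_abs, ← hrdef, abs_of_pos hr, ← hΦdef, Complex.norm_two,
      abs_of_nonneg (hχ.nn η), ← mul_div_assoc]
    refine div_le_div_of_nonneg_right ?_ (by positivity)
    calc 2 * χ η * r * ‖NN g (ζ, η) y‖ ≤ 2 * 1 * r * (C * (‖bb g (ζ, η)‖ ^ 2 + Φ)) := by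
          gcongr
          · exact hχ.le η
          · exact hp.nn
      _ = 2 * C * (r * (‖bb g (ζ, η)‖ ^ 2 + Φ)) := by ring

theorem D4_bound_int_D4 {κ L C θ : ℝ} {g : GD} (h : GM κ L g) (hθ : 0 < θ) (_hC : 1 ≤ C)
    {ζ w y : ℂ} (hζ : ‖ζ‖ < κ) (hw1 : ‖w‖ < κ) (hy1 : ‖y‖ < κ) (hw : θ < rho g (w, y))
    (hp : ∀ η ∈ SS g κ ζ, Pt C g ζ w y η) :
    Integrable (fun η => rho g (ζ, η) * (‖bb g (ζ, η)‖ ^ 2 + ‖Ph g (ζ, η) (w, y)‖) /
      ‖Ph g (ζ, η) (w, y)‖ ^ 3) (volume.restrict (SS g κ ζ)) := by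
  have hκ := h.κ0
  have hSo := D4_SS_open_D4 h hζ
  have hSb : SS g κ ζ ⊆ ball 0 1 := by
    intro η hη
    rw [mem_ball_zero_iff]
    have := hη.1
    linarith [h.κ1]
  have hfin : volume (SS g κ ζ) ≠ ⊤ :=
    ((measure_mono hSb).trans_lt measure_ball_lt_top).ne
  have : IsFiniteMeasure (volume.restrict (SS g κ ζ)) := ⟨by
    rw [Measure.restrict_apply_univ]; exact hfin.lt_top⟩
  have hsub : ∀ η ∈ SS g κ ζ, ‖η‖ < κ := fun η hη => lt_trans hη.1 (by linarith)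
  have hz : ContinuousOn (fun η => g.z (ζ, η)) (SS g κ ζ) := D4_slice_D4 h h.diff.continuousOn hζ
  have hdz : ContinuousOn (fun η => dz g.z (ζ, η)) (SS g κ ζ) := D4_slice_D4 h (D4_dc_D4 h) hζ
  have ha : ContinuousOn (fun η => g.a (ζ, η)) (SS g κ ζ) := D4_slice_D4 h (D4_ac_D4 h) hζ
  have hb : ContinuousOn (fun η => g.b (ζ, η)) (SS g κ ζ) := D4_slice_D4 h (D4_bc_D4 h) hζ
  have hbb : ContinuousOn (fun η => bb g (ζ, η)) (SS g κ ζ) := by
    unfold bb
    exact ((ha.mul hdz).add hb).neg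
  have hrho : ContinuousOn (fun η => rho g (ζ, η)) (SS g κ ζ) := D4_slice_D4 h (D4_rc_D4 h) hζ
  have hrho' : ContinuousOn (fun η => ((g.r (ζ, η) : ℝ) : ℂ)) (SS g κ ζ) :=
    Complex.continuous_ofReal.comp_continuousOn hrho
  have hPh : ContinuousOn (fun η => Ph g (ζ, η) (w, y)) (SS g κ ζ) := by
    unfold Ph
    exact (hrho'.add (ha.mul (continuousOn_const.sub hz))).add
      (hb.mul (continuousOn_const.sub continuousOn_id))
  have hΦ : ∀ η ∈ SS g κ ζ, θ / 2 ≤ ‖Ph g (ζ, η) (w, y)‖ := by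
    intro η hη
    exact (D4_Ph_ge_D4 h (s := (ζ, η)) (p := (w, y)) hζ (hsub η hη) hw1 hy1 hη.2 hw).le
  have hcont : ContinuousOn (fun η => rho g (ζ, η) * (‖bb g (ζ, η)‖ ^ 2 +
      ‖Ph g (ζ, η) (w, y)‖) / ‖Ph g (ζ, η) (w, y)‖ ^ 3) (SS g κ ζ) := by
    refine ContinuousOn.div (hrho.mul ((hbb.norm.pow 2).add hPh.norm)) (hPh.norm.pow 3) ?_
    intro η hη
    have := hΦ η hη
    have : 0 < ‖Ph g (ζ, η) (w, y)‖ := by linarith
    positivity
  refine Integrable.of_bound (hcont.aestronglyMeasurable hSo.measurableSet)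
    (C * ζ.im * (C * ζ.im) / (θ / 2) ^ 3 + C * ζ.im / (θ / 2) ^ 2) ?_
  filter_upwards [ae_restrict_mem hSo.measurableSet] with η hη
  have h1 := hΦ η hη
  have h2 := hp η hη
  have h3 : 0 < rho g (ζ, η) := hη.2
  have him := h2.im
  have hΦ0 : 0 < ‖Ph g (ζ, η) (w, y)‖ := by linarith
  rw [Real.norm_eq_abs, abs_of_nonneg (by positivity)]
  have e1 : rho g (ζ, η) * (‖bb g (ζ, η)‖ ^ 2 + ‖Ph g (ζ, η) (w, y)‖) /
      ‖Ph g (ζ, η) (w, y)‖ ^ 3 = rho g (ζ, η) * ‖bb g (ζ, η)‖ ^ 2 / ‖Ph g (ζ, η) (w, y)‖ ^ 3 +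
      rho g (ζ, η) / ‖Ph g (ζ, η) (w, y)‖ ^ 2 := by
    field_simp
  rw [e1]
  have hθ2 : 0 < θ / 2 := by positivity
  have hCi : 0 ≤ C * ζ.im := by positivity
  gcongr
  · exact h2.rt
  · exact h2.bt
  · exact h2.rt

/-- **TARGET** -/
theorem extP_base {κ L : ℝ} (hκ : 0 < κ) (hκ1 : κ ≤ 1) (hL : 1 ≤ L) : ∃ C : ℝ, 0 ≤ C ∧
    ∀ g : GD, GM κ L g → ∀ θ : ℝ, 0 < θ → ∀ A : Set ℂ, (∀ ζ ∈ A, ‖ζ‖ < κ / 8) →
      ExtP A (DD g (κ / 2) 0) (DD g (κ / 8) θ) C := by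
  obtain ⟨B, χ, hB, hχ⟩ := Pool.Agent.P157C.cut_exists hκ
  obtain ⟨C, hC, hpt⟩ := pt hκ hκ1 hL
  obtain ⟨C', hC', hint⟩ := Pool.Agent.P157C.int_est C hC
  set V : ℝ := (volume (ball (0 : ℂ) 1)).toReal with hV
  have hV0 : 0 ≤ V := ENNReal.toReal_nonneg
  have hπ := Real.pi_pos
  have hC0 : 0 ≤ C := by linarith
  refine ⟨1 + (1 / Real.pi) * (32 * B / κ * V + 2 * C * C'), by positivity, ?_⟩
  intro g h θ hθ A hA v M hv hM0 hvd hvb
  have hA2 : ∀ ζ ∈ A, ‖ζ‖ < κ / 2 := fun ζ hζ => lt_trans (hA ζ hζ) (by linarith)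
  have hAκ : ∀ ζ ∈ A, ‖ζ‖ < κ := fun ζ hζ => lt_trans (hA ζ hζ) (by linarith)
  have hmap : ∀ ζ ∈ A, ∀ η ∈ SS g κ ζ, (ζ, η) ∈ DD g (κ / 2) 0 := by
    intro ζ hζ η hη
    exact ⟨hA2 ζ hζ, hη.1, hη.2⟩
  have hM : ∀ ζ ∈ A, ∀ η ∈ SS g κ ζ, ‖v (ζ, η)‖ ≤ M := by
    intro ζ hζ η hη
    exact hvb ζ hζ η (hmap ζ hζ η hη)
  have hself : ∀ ζ ∈ A, ∀ y : ℂ, (ζ, y) ∈ DD g (κ / 8) θ →
      D4_ev_D4 g κ χ v ζ (ζ, y) = v (ζ, y) := by
    intro ζ hζ y hy
    unfold D4_ev_D4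
    rw [if_pos ⟨hA2 ζ hζ, hy.1, hy.2.1⟩]
    refine repro h hχ (hA2 ζ hζ) hy.2.1 (hθ.trans hy.2.2) (H := fun η => v (ζ, η)) ?_
      (M := M) (hM ζ hζ)
    exact (hvd ζ hζ).mono fun η hη => hmap ζ hζ η hη
  refine ⟨D4_ev_D4 g κ χ v, D4_ev_meas_D4 h hχ hv, hself, ?_, ?_, ?_⟩
  · intro ζ hζ
    exact D4_ev_diff_D4 h hχ hθ hv (hA2 ζ hζ) (hM ζ hζ)
  · rintro ζ hζ ⟨w, y⟩ hp
    simp only
    have hsq : 0 ≤ √(ζ.im / ‖w - ζ‖) := Real.sqrt_nonneg _
    have hM00 : 0 ≤ (1 / Real.pi) * (32 * B / κ * V + 2 * C * C') := by positivity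
    by_cases hwζ : w = ζ
    · subst hwζ
      rw [hself w hζ y hp]
      have hp' : (w, y) ∈ DD g (κ / 2) 0 :=
        ⟨hA2 w hζ, lt_trans hp.2.1 (by linarith), hθ.trans hp.2.2⟩
      refine (hvb w hζ y hp').trans ?_
      have h2 : (1 : ℝ) ≤ 1 + √(w.im / ‖w - w‖) := by linarith
      calc M = 1 * M * 1 := by ring
        _ ≤ (1 + 1 / Real.pi * (32 * B / κ * V + 2 * C * C')) * M *
            (1 + √(w.im / ‖w - w‖)) := by
          gcongr
          linarith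
    · have hδ : 0 < ‖w - ζ‖ := norm_pos_iff.2 (sub_ne_zero.2 hwζ)
      unfold D4_ev_D4
      rw [if_pos ⟨hA2 ζ hζ, hp.1, hp.2.1⟩]
      have hw2 : ‖w‖ < κ / 2 := lt_trans hp.1 (by linarith)
      have hy2 : ‖y‖ < κ / 2 := lt_trans hp.2.1 (by linarith)
      have hρ : θ < rho g (w, y) := hp.2.2
      have hP : ∀ η ∈ SS g κ ζ, Pt C g ζ w y η :=
        hpt g h ζ w y (hA2 ζ hζ) hw2 hy2 (hθ.trans hρ).le
      rcases Set.eq_empty_or_nonempty (SS g κ ζ) with hS | ⟨η₁, hη₁⟩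
      · rw [hS]
        simp only [Measure.restrict_empty, integral_zero_measure, mul_zero, norm_zero]
        positivity
      · have him : 0 < ζ.im := (hP η₁ hη₁).im
        have hSo := D4_SS_open_D4 h (hAκ ζ hζ)
        have hSb : SS g κ ζ ⊆ ball 0 1 := by
          intro η hη
          rw [mem_ball_zero_iff]
          have := hη.1
          linarith
        have hfin : volume (SS g κ ζ) ≠ ⊤ :=
          ((measure_mono hSb).trans_lt measure_ball_lt_top).ne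
        have : IsFiniteMeasure (volume.restrict (SS g κ ζ)) := ⟨by
          rw [Measure.restrict_apply_univ]; exact hfin.lt_top⟩
        have hbi := D4_bound_int_D4 h hθ hC (hAκ ζ hζ) (lt_trans hw2 (by linarith))
          (lt_trans hy2 (by linarith)) hρ hP
        have hI := hint (SS g κ ζ) hSo.measurableSet hSb
          (fun η => ‖Ph g (ζ, η) (w, y)‖) (fun η => rho g (ζ, η)) (fun η => ‖bb g (ζ, η)‖)
          y (-((g.z (w, y) - g.z (ζ, y)) * g.a (ζ, y))) (bb g (ζ, y)) ζ.im ‖w - ζ‖ him hδ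
          (fun η hη => hη.2) (fun η hη => (hP η hη).r1) (fun η hη => (hP η hη).d1)
          (fun η hη => (hP η hη).rt) (fun η _ => norm_nonneg _) (fun η hη => (hP η hη).bt)
          (fun η hη => (hP η hη).bl) (fun η hη => by
            have := (hP η hη).ex
            rw [neg_add_eq_sub]
            exact this) (fun η hη => (hP η hη).dw)
        have hnorm : ‖∫ η in SS g κ ζ, v (ζ, η) * KK g χ (ζ, η) (w, y)‖ ≤
            ∫ η in SS g κ ζ, M * (32 * B / κ + 2 * C * (rho g (ζ, η) *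
              (‖bb g (ζ, η)‖ ^ 2 + ‖Ph g (ζ, η) (w, y)‖) / ‖Ph g (ζ, η) (w, y)‖ ^ 3)) := by
          refine norm_integral_le_of_norm_le
            (((integrable_const _).add (hbi.const_mul _)).const_mul _) ?_
          filter_upwards [ae_restrict_mem hSo.measurableSet] with η hη
          rw [norm_mul]
          exact mul_le_mul (hM ζ hζ η hη) (D4_KK_le_D4 hB h hχ hp.2.1 hη hC (hP η hη))
            (norm_nonneg _) (by positivity)
        rw [integral_const_mul, integral_add (integrable_const _) (hbi.const_mul _),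
          integral_const_mul, setIntegral_const, smul_eq_mul] at hnorm
        have hvol : volume.real (SS g κ ζ) ≤ V := by
          rw [hV]
          exact ENNReal.toReal_mono measure_ball_lt_top.ne (measure_mono hSb)
        rw [norm_mul, norm_div, norm_one, Complex.norm_real, Real.norm_eq_abs, abs_of_pos hπ]
        set X := √(ζ.im / ‖w - ζ‖) with hX
        calc 1 / Real.pi * ‖∫ η in SS g κ ζ, v (ζ, η) * KK g χ (ζ, η) (w, y)‖
            ≤ 1 / Real.pi * (M * (V * (32 * B / κ) + 2 * C * (C' * (1 + X)))) := by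
              refine mul_le_mul_of_nonneg_left (hnorm.trans ?_) (by positivity)
              gcongr
          _ = (1 / Real.pi * (32 * B / κ * V) * 1 + 1 / Real.pi * (2 * C * C') * (1 + X)) * M := by
              ring
          _ ≤ (1 / Real.pi * (32 * B / κ * V) * (1 + X) +
              1 / Real.pi * (2 * C * C') * (1 + X)) * M := by
              gcongr
              linarith
          _ ≤ (1 * (1 + X) + 1 / Real.pi * (32 * B / κ * V) * (1 + X) +
              1 / Real.pi * (2 * C * C') * (1 + X)) * M := by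
              gcongr
              linarith
          _ = (1 + 1 / Real.pi * (32 * B / κ * V + 2 * C * C')) * M * (1 + X) := by
              ring
  · obtain ⟨M', hM'⟩ := D4_ev_qbd_D4 (M := M) h hχ hθ
    exact ⟨M', fun ζ hζ p hp => hM' v ζ (hA2 ζ hζ) (hM ζ hζ) p hp⟩

end Pool.Agent.P157D
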