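import Mathlib
import Pool.Agent.P157C.VVw
import Pool.Agent.P157D.Defs

set_option autoImplicit false

open MeasureTheory Metric Set Filter Topology Complex

namespace Pool.Agent.P157D

open Pool.Agent.P157C (dz qq dbar Cut ExtP)

open Pool.Agent.H720R2 Pool.Agent.H720R2.HP

open Pool.Agent.Y263.SC (Den)

/-- the integrand without the last factor -/
noncomputable def D6_EE_D6 {ι : Type} (g : GD) (F : ℂ × ℂ → ℂ) (S : Finset ι) (a : ι → ℂ)
    (R : ι → Set ℂ) (μ : ℂ → ℂ) (v : ℂ × ℂ → ℂ) (ζ η y : ℂ) : ℂ :=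
  (∑ k ∈ S, (R k).indicator (fun ω => μ ω * Wk S a k ω (F (ζ, y))) (F (ζ, η))) *
      starRingEnd ℂ (dz F (ζ, η)) * v (ζ, η) * ((rho g (ζ, η) : ℂ) / Ph g (ζ, η) (ζ, y)) ^ 2

theorem D6_slice_diffC_D6 {κ : ℝ} {F : ℂ × ℂ → ℂ}
    (hF : DifferentiableOn ℂ F {p | ‖p.1‖ < κ ∧ ‖p.2‖ < κ}) {ζ : ℂ} (hζ : ‖ζ‖ < κ) :
    DifferentiableOn ℂ (fun η => F (ζ, η)) (ball (0 : ℂ) κ) := by
  have h1 : DifferentiableOn ℂ (fun η : ℂ => (ζ, η)) (ball (0 : ℂ) κ) := by fun_prop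
  refine hF.comp h1 ?_
  intro η hη
  exact ⟨hζ, by simpa using hη⟩

theorem D6_SS_sub_D6 {κ L : ℝ} {g : GD} (h : GM κ L g) {ζ η : ℂ} (hη : η ∈ SS g κ ζ) :
    η ∈ ball (0 : ℂ) κ := by
  have h1 := hη.1
  have h2 := h.κ0
  rw [mem_ball_zero_iff]
  linarith

theorem D6_SS_open_D6 {κ L : ℝ} {g : GD} (h : GM κ L g) {ζ : ℂ} (hζ : ‖ζ‖ < κ) :
    IsOpen (SS g κ ζ) := by
  have hκ := h.κ0
  have h1 : ContinuousOn (fun η => rho g (ζ, η)) (ball (0 : ℂ) (κ / 2)) :=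
    (h.rC ζ hζ).continuousOn.mono (ball_subset_ball (by linarith))
  have h2 := h1.isOpen_inter_preimage isOpen_ball (isOpen_Ioi (a := (0 : ℝ)))
  have h3 : SS g κ ζ = ball (0 : ℂ) (κ / 2) ∩ (fun η => rho g (ζ, η)) ⁻¹' Ioi 0 := by
    ext η
    simp only [SS, mem_setOf_eq, mem_inter_iff, mem_ball_zero_iff, mem_preimage, mem_Ioi]
  rw [h3]
  exact h2

theorem D6_Ph_ge_D6 {κ L : ℝ} {g : GD} (h : GM κ L g) {ζ η y : ℂ} (hζ : ‖ζ‖ < κ)
    (hη : η ∈ SS g κ ζ) (hy : y ∈ SS g κ ζ) :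
    rho g (ζ, η) / 2 ≤ ‖Ph g (ζ, η) (ζ, y)‖ := by
  refine le_trans ?_ (Complex.re_le_norm _)
  have e1 := D6_SS_sub_D6 h hη
  have e2 := D6_SS_sub_D6 h hy
  rw [mem_ball_zero_iff] at e1 e2
  have h0 := h.cvx (ζ, η) (ζ, y) hζ e1 hζ e2
  have h1 := sq_nonneg ‖g.z (ζ, y) - g.z (ζ, η)‖
  have h2 := sq_nonneg ‖((ζ, y) : ℂ × ℂ).2 - ((ζ, η) : ℂ × ℂ).2‖
  have h3 : 0 < g.r (ζ, y) := hy.2
  unfold rho
  linarith

theorem D6_Ph_ne_D6 {κ L : ℝ} {g : GD} (h : GM κ L g) {ζ η y : ℂ} (hζ : ‖ζ‖ < κ)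
    (hη : η ∈ SS g κ ζ) (hy : y ∈ SS g κ ζ) : Ph g (ζ, η) (ζ, y) ≠ 0 := by
  have h1 := D6_Ph_ge_D6 h hζ hη hy
  have h2 := hη.2
  rw [← norm_pos_iff]
  linarith

theorem D6_Ph_self_D6 (g : GD) (s : ℂ × ℂ) : Ph g s s = (rho g s : ℂ) := by
  unfold Ph rho
  ring

theorem D6_F_im_D6 {κ L : ℝ} {g : GD} {F : ℂ × ℂ → ℂ} (h : GM κ L g) (hF : SF κ L g F) {ζ η : ℂ}
    (hζ : ‖ζ‖ < κ) (hη : η ∈ SS g κ ζ) : 0 < (F (ζ, η)).im := by
  have h1 := D6_SS_sub_D6 h hη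
  rw [mem_ball_zero_iff] at h1
  have h2 := hF.pos (ζ, η) hζ h1 hη.2
  have h3 := h.L1
  have h4 := hη.2
  by_contra hcon
  push Not at hcon
  nlinarith

theorem D6_ind_mul_D6 {μ : ℂ → ℂ} (s : Set ℂ) (c : ℂ → ℂ) (ω : ℂ) :
    s.indicator (fun ω => μ ω * c ω) ω = s.indicator μ ω * c ω := by
  by_cases h : ω ∈ s
  · rw [indicator_of_mem h, indicator_of_mem h]
  · rw [indicator_of_notMem h, indicator_of_notMem h, zero_mul]

theorem D6_tm_D6 {E : Type} [TopologicalSpace E] [MeasurableSpace E] [BorelSpace E] [Zero E]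
    {Ω : Set ℂ} (hΩ : MeasurableSet Ω) {f : ℂ → E} (hf : ContinuousOn f Ω) :
    Measurable (Ω.indicator f) := by
  classical
  rw [← Set.piecewise_eq_indicator]
  exact ContinuousOn.measurable_piecewise hf continuousOn_const hΩ

theorem D6_EE_meas_D6 {κ L Cp K : ℝ} {ι : Type} {g : GD} {F : ℂ × ℂ → ℂ}
    {S : Finset ι} {a : ι → ℂ} {R : ι → Set ℂ} {μ : ℂ → ℂ} {v : ℂ × ℂ → ℂ}
    (h : GM κ L g) (hF : SF κ L g F) (hfam : Fam S a R Cp) (hD : Den univ S a R μ K)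
    (hv : Measurable v) {ζ : ℂ} (hζ : ‖ζ‖ < κ) :
    Measurable (fun p : ℂ × ℂ => (SS g κ ζ ×ˢ SS g κ ζ).indicator
      (fun p : ℂ × ℂ => D6_EE_D6 g F S a R μ v ζ p.1 p.2) p) := by
  classical
  set Ω := SS g κ ζ with hΩd
  have hΩ : IsOpen Ω := D6_SS_open_D6 h hζ
  set Ft : ℂ → ℂ := Ω.indicator (fun η => F (ζ, η)) with hFt
  set zt : ℂ → ℂ := Ω.indicator (fun η => g.z (ζ, η)) with hzt
  set rt : ℂ → ℝ := Ω.indicator (fun η => g.r (ζ, η)) with hrt
  set at' : ℂ → ℂ := Ω.indicator (fun η => g.a (ζ, η)) with hat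
  set bt : ℂ → ℂ := Ω.indicator (fun η => g.b (ζ, η)) with hbt
  have hsub : Ω ⊆ ball (0 : ℂ) κ := fun η hη => D6_SS_sub_D6 h hη
  have hFtm : Measurable Ft := D6_tm_D6 hΩ.measurableSet ((D6_slice_diffC_D6 hF.diff hζ).continuousOn.mono hsub)
  have hztm : Measurable zt := D6_tm_D6 hΩ.measurableSet ((D6_slice_diffC_D6 h.diff hζ).continuousOn.mono hsub)
  have hrtm : Measurable rt := D6_tm_D6 hΩ.measurableSet ((h.rC ζ hζ).continuousOn.mono hsub)
  have hatm : Measurable at' := D6_tm_D6 hΩ.measurableSet ((h.aC ζ hζ).continuousOn.mono hsub)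
  have hbtm : Measurable bt := D6_tm_D6 hΩ.measurableSet ((h.bC ζ hζ).continuousOn.mono hsub)
  set T : Set (ℂ × ℂ) := {p | 0 < p.1.im ∧ 0 < p.2.im} with hT
  have hTo : IsOpen T := by
    refine IsOpen.inter ?_ ?_
    · exact isOpen_lt continuous_const (Complex.continuous_im.comp continuous_fst)
    · exact isOpen_lt continuous_const (Complex.continuous_im.comp continuous_snd)
  have hWm : ∀ k ∈ S, Measurable (T.indicator (fun p : ℂ × ℂ => Wk S a k p.1 p.2)) := by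
    intro k hk
    rw [← Set.piecewise_eq_indicator]
    exact ContinuousOn.measurable_piecewise (Wk_cont hfam hk) continuousOn_const hTo.measurableSet
  have heq : (fun p : ℂ × ℂ => (Ω ×ˢ Ω).indicator
      (fun p : ℂ × ℂ => D6_EE_D6 g F S a R μ v ζ p.1 p.2) p) =
      (Ω ×ˢ Ω).indicator (fun p : ℂ × ℂ =>
        (∑ k ∈ S, (R k).indicator μ (Ft p.1) *
          T.indicator (fun p : ℂ × ℂ => Wk S a k p.1 p.2) (Ft p.1, Ft p.2)) *
        starRingEnd ℂ (deriv (fun y : ℂ => F (ζ, y)) p.1) * v (ζ, p.1) *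
        ((rt p.1 : ℂ) /
          ((rt p.1 : ℂ) + at' p.1 * (zt p.2 - zt p.1) + bt p.1 * (p.2 - p.1))) ^ 2) := by
    funext p
    by_cases hp : p ∈ Ω ×ˢ Ω
    · rw [indicator_of_mem hp, indicator_of_mem hp]
      have e1 : Ft p.1 = F (ζ, p.1) := indicator_of_mem hp.1 _
      have e2 : Ft p.2 = F (ζ, p.2) := indicator_of_mem hp.2 _
      have e3 : zt p.1 = g.z (ζ, p.1) := indicator_of_mem hp.1 _
      have e4 : zt p.2 = g.z (ζ, p.2) := indicator_of_mem hp.2 _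
      have e6 : rt p.1 = g.r (ζ, p.1) := indicator_of_mem hp.1 _
      have e7 : at' p.1 = g.a (ζ, p.1) := indicator_of_mem hp.1 _
      have e8 : bt p.1 = g.b (ζ, p.1) := indicator_of_mem hp.1 _
      rw [e1, e2, e3, e4, e6, e7, e8]
      have hmem : (F (ζ, p.1), F (ζ, p.2)) ∈ T := ⟨D6_F_im_D6 h hF hζ hp.1, D6_F_im_D6 h hF hζ hp.2⟩
      simp only [indicator_of_mem hmem]
      unfold D6_EE_D6
      have e5 : ∀ k ∈ S, (R k).indicator (fun ω => μ ω * Wk S a k ω (F (ζ, p.2))) (F (ζ, p.1)) =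
          (R k).indicator μ (F (ζ, p.1)) * Wk S a k (F (ζ, p.1)) (F (ζ, p.2)) := fun k _ =>
        D6_ind_mul_D6 (R k) (fun ω => Wk S a k ω (F (ζ, p.2))) _
      rw [Finset.sum_congr rfl e5]
      rfl
    · rw [indicator_of_notMem hp, indicator_of_notMem hp]
  rw [heq]
  refine Measurable.indicator ?_ (hΩ.measurableSet.prod hΩ.measurableSet)
  have m1 : Measurable (fun p : ℂ × ℂ => Ft p.1) := hFtm.comp measurable_fst
  have m2 : Measurable (fun p : ℂ × ℂ => Ft p.2) := hFtm.comp measurable_snd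
  have m3 : Measurable (fun p : ℂ × ℂ => zt p.1) := hztm.comp measurable_fst
  have m4 : Measurable (fun p : ℂ × ℂ => zt p.2) := hztm.comp measurable_snd
  have m10 : Measurable (fun p : ℂ × ℂ => (rt p.1 : ℂ)) :=
    Complex.measurable_ofReal.comp (hrtm.comp measurable_fst)
  have m11 : Measurable (fun p : ℂ × ℂ => at' p.1) := hatm.comp measurable_fst
  have m12 : Measurable (fun p : ℂ × ℂ => bt p.1) := hbtm.comp measurable_fst
  have mc : Measurable (starRingEnd ℂ : ℂ → ℂ) := Complex.continuous_conj.measurable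
  have m5 : Measurable (fun p : ℂ × ℂ => ∑ k ∈ S, (R k).indicator μ (Ft p.1) *
          T.indicator (fun p : ℂ × ℂ => Wk S a k p.1 p.2) (Ft p.1, Ft p.2)) := by
    refine Finset.measurable_fun_sum _ (fun k hk => ?_)
    exact ((hD.hμ.indicator (hfam.hm k hk)).comp m1).mul ((hWm k hk).comp (m1.prodMk m2))
  have m6 : Measurable (fun p : ℂ × ℂ => starRingEnd ℂ (deriv (fun y : ℂ => F (ζ, y)) p.1)) :=
    mc.comp ((measurable_deriv _).comp measurable_fst)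
  have m7 : Measurable (fun p : ℂ × ℂ => v (ζ, p.1)) :=
    hv.comp (measurable_const.prodMk measurable_fst)
  have m9 : Measurable (fun p : ℂ × ℂ =>
      (rt p.1 : ℂ) + at' p.1 * (zt p.2 - zt p.1) + bt p.1 * (p.2 - p.1)) :=
    (m10.add (m11.mul (m4.sub m3))).add (m12.mul (measurable_snd.sub measurable_fst))
  exact ((m5.mul m6).mul m7).mul ((m10.div m9).pow_const 2)

theorem D6_EE_diff_D6 {κ L Cp : ℝ} {ι : Type} {g : GD} {F : ℂ × ℂ → ℂ}
    {S : Finset ι} {a : ι → ℂ} {R : ι → Set ℂ} {μ : ℂ → ℂ} {v : ℂ × ℂ → ℂ}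
    (h : GM κ L g) (hF : SF κ L g F) (hfam : Fam S a R Cp)
    {ζ : ℂ} (hζ : ‖ζ‖ < κ) {η : ℂ} (hη : η ∈ SS g κ ζ) :
    DifferentiableOn ℂ (fun y => D6_EE_D6 g F S a R μ v ζ η y) (SS g κ ζ) := by
  have hΩ : IsOpen (SS g κ ζ) := D6_SS_open_D6 h hζ
  intro y hy
  have hyb := D6_SS_sub_D6 h hy
  have hFy : DifferentiableAt ℂ (fun y => F (ζ, y)) y :=
    (D6_slice_diffC_D6 hF.diff hζ).differentiableAt (isOpen_ball.mem_nhds hyb)
  have hzy : DifferentiableAt ℂ (fun y => g.z (ζ, y)) y :=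
    (D6_slice_diffC_D6 h.diff hζ).differentiableAt (isOpen_ball.mem_nhds hyb)
  apply DifferentiableAt.differentiableWithinAt
  unfold D6_EE_D6
  refine DifferentiableAt.fun_mul (DifferentiableAt.fun_mul (DifferentiableAt.fun_mul ?_
    (differentiableAt_const _)) (differentiableAt_const _)) ?_
  · refine DifferentiableAt.fun_sum (fun k hk => ?_)
    have e5 : (fun y => (R k).indicator (fun ω => μ ω * Wk S a k ω (F (ζ, y))) (F (ζ, η))) =
        fun y => (R k).indicator μ (F (ζ, η)) * Wk S a k (F (ζ, η)) (F (ζ, y)) := by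
      funext y
      exact D6_ind_mul_D6 (R k) (fun ω => Wk S a k ω (F (ζ, y))) _
    rw [e5]
    refine DifferentiableAt.const_mul ?_ _
    exact DifferentiableAt.comp (f := fun y => F (ζ, y)) y
      (Wk_diff hfam hk (F (ζ, η)) (D6_F_im_D6 h hF hζ hy)) hFy
  · have hPd : DifferentiableAt ℂ (fun y : ℂ => Ph g (ζ, η) (ζ, y)) y := by
      have e : (fun y : ℂ => Ph g (ζ, η) (ζ, y)) = fun y : ℂ =>
          (g.r (ζ, η) : ℂ) + g.a (ζ, η) * (g.z (ζ, y) - g.z (ζ, η)) + g.b (ζ, η) * (y - η) := rfl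
      rw [e]
      exact ((differentiableAt_const _).fun_add ((hzy.fun_sub (differentiableAt_const _)).const_mul _)).fun_add
        ((differentiableAt_id.fun_sub (differentiableAt_const _)).const_mul _)
    exact DifferentiableAt.fun_pow (DifferentiableAt.fun_div (differentiableAt_const _) hPd
      (D6_Ph_ne_D6 h hζ hη hy)) 2

theorem D6_EE_bd_D6 {κ L Cp K M : ℝ} {ι : Type} {g : GD} {F : ℂ × ℂ → ℂ}
    {S : Finset ι} {a : ι → ℂ} {R : ι → Set ℂ} {μ : ℂ → ℂ} {v : ℂ × ℂ → ℂ}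
    (h : GM κ L g) (hF : SF κ L g F) (hfam : Fam S a R Cp) (hD : Den univ S a R μ K)
    (hM : ∀ s, ‖v s‖ ≤ M) {ζ : ℂ} (hζ : ‖ζ‖ < κ) {η y : ℂ} (hη : η ∈ SS g κ ζ)
    (hy : y ∈ SS g κ ζ) :
    ‖D6_EE_D6 g F S a R μ v ζ η y‖ ≤ (∑ k ∈ S, K / |(a k).im| * (6 * Real.exp Cp)) * L * M * 4 := by
  have hK0 := hD.hK0
  have hM0 : 0 ≤ M := (norm_nonneg _).trans (hM (0, 0))
  have hL0 : 0 ≤ L := by linarith [h.L1]
  unfold D6_EE_D6
  rw [norm_mul, norm_mul, norm_mul, norm_pow, RCLike.norm_conj]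
  have b1 : ‖∑ k ∈ S, (R k).indicator (fun ω => μ ω * Wk S a k ω (F (ζ, y))) (F (ζ, η))‖ ≤
      ∑ k ∈ S, K / |(a k).im| * (6 * Real.exp Cp) := by
    refine norm_sum_le_of_le _ (fun k hk => ?_)
    have hak := hfam.ha k hk
    by_cases hm : F (ζ, η) ∈ R k
    · rw [indicator_of_mem hm, norm_mul, abs_of_pos hak]
      have c1 := hD.hK k hk _ hm
      have c2 := Wk_le' hfam hk hm (D6_F_im_D6 h hF hζ hy)
      gcongr
    · rw [indicator_of_notMem hm, norm_zero]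
      positivity
  have b2 : ‖dz F (ζ, η)‖ ≤ L := by
    have hηb := D6_SS_sub_D6 h hη
    rw [mem_ball_zero_iff] at hηb
    exact hF.dbd (ζ, η) hζ hηb
  have b3 : ‖v (ζ, η)‖ ≤ M := hM _
  have b4 : ‖(rho g (ζ, η) : ℂ) / Ph g (ζ, η) (ζ, y)‖ ≤ 2 := by
    have c1 := D6_Ph_ge_D6 h hζ hη hy
    have c2 := hη.2
    rw [norm_div, Complex.norm_real, Real.norm_of_nonneg c2.le, div_le_iff₀ (by linarith)]
    linarith
  have b5 : ‖(rho g (ζ, η) : ℂ) / Ph g (ζ, η) (ζ, y)‖ ^ 2 ≤ 4 := by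
    have := pow_le_pow_left₀ (norm_nonneg _) b4 2
    norm_num at this ⊢
    exact this
  have hs0 : 0 ≤ ∑ k ∈ S, K / |(a k).im| * (6 * Real.exp Cp) :=
    Finset.sum_nonneg fun k _ => by positivity
  gcongr

theorem D6_EE_self_D6 {κ L Cp K : ℝ} {ι : Type} {g : GD} {F : ℂ × ℂ → ℂ}
    {S : Finset ι} {a : ι → ℂ} {R : ι → Set ℂ} {μ : ℂ → ℂ} {v : ℂ × ℂ → ℂ}
    (h : GM κ L g) (hF : SF κ L g F) (hfam : Fam S a R Cp) (hD : Den univ S a R μ K)
    {ζ : ℂ} (hζ : ‖ζ‖ < κ) {y : ℂ} (hy : y ∈ SS g κ ζ) :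
    D6_EE_D6 g F S a R μ v ζ y y = μ (F (ζ, y)) * starRingEnd ℂ (dz F (ζ, y)) * v (ζ, y) := by
  unfold D6_EE_D6
  have hr : (rho g (ζ, y) : ℂ) ≠ 0 := by
    have := hy.2
    exact_mod_cast this.ne'
  rw [D6_Ph_self_D6, div_self hr, one_pow, mul_one]
  congr 2
  have him := D6_F_im_D6 h hF hζ hy
  have e5 : ∀ k ∈ S, (R k).indicator (fun ω => μ ω * Wk S a k ω (F (ζ, y))) (F (ζ, y)) =
      (R k).indicator μ (F (ζ, y)) := by
    intro k hk
    rw [D6_ind_mul_D6 (R k) (fun ω => Wk S a k ω (F (ζ, y))) _, Wk_self hfam hk him, mul_one]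
  rw [Finset.sum_congr rfl e5]
  by_cases hm : ∀ k ∈ S, F (ζ, y) ∉ R k
  · rw [hD.h0 _ hm]
    exact Finset.sum_eq_zero (fun k hk => indicator_of_notMem (hm k hk) _)
  · push Not at hm
    obtain ⟨k, hk, hmem⟩ := hm
    rw [Finset.sum_eq_single_of_mem k hk, indicator_of_mem hmem]
    intro j hj hjk
    rw [indicator_of_notMem]
    intro hj'
    exact (Set.disjoint_left.1 (hfam.hd j hj k hk hjk)) hj' hmem

/-- **TARGET** -/
theorem VV_weak {κ L Cp K M : ℝ} {ι : Type} {g : GD} {F : ℂ × ℂ → ℂ} (h : GM κ L g) (hF : SF κ L g F)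
    {S : Finset ι} {a : ι → ℂ} {R : ι → Set ℂ} {μ : ℂ → ℂ} {v : ℂ × ℂ → ℂ}
    (hfam : Fam S a R Cp) (hD : Den univ S a R μ K) (hv : Measurable v) (hM : ∀ s, ‖v s‖ ≤ M)
    {ζ : ℂ} (hζ : ‖ζ‖ < κ / 2) :
    WD (SS g κ ζ) (fun y => VV g κ F S a R μ v ζ (ζ, y))
      (fun y => μ (F (ζ, y)) * starRingEnd ℂ (dz F (ζ, y)) * v (ζ, y)) := by
  have hκ0 := h.κ0
  have hκ1 := h.κ1
  have hζ' : ‖ζ‖ < κ := by linarith
  set Ω := SS g κ ζ with hΩd
  have hΩ : IsOpen Ω := D6_SS_open_D6 h hζ'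
  set B : ℂ → ℂ → ℂ := fun η y => (Ω ×ˢ Ω).indicator
      (fun p : ℂ × ℂ => D6_EE_D6 g F S a R μ v ζ p.1 p.2) (η, y) with hB
  have hBm : Measurable (fun p : ℂ × ℂ => B p.1 p.2) := D6_EE_meas_D6 h hF hfam hD hv hζ'
  have hBin : ∀ η ∈ Ω, ∀ y ∈ Ω, B η y = D6_EE_D6 g F S a R μ v ζ η y := by
    intro η hη y hy
    have hp : ((η, y) : ℂ × ℂ) ∈ Ω ×ˢ Ω := ⟨hη, hy⟩
    simp only [hB, indicator_of_mem hp]
  have hBout : ∀ η, η ∉ Ω → ∀ y, B η y = 0 := by
    intro η hη y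
    have hp : ((η, y) : ℂ × ℂ) ∉ Ω ×ˢ Ω := fun hp => hη hp.1
    simp only [hB, indicator_of_notMem hp]
  have hBd : ∀ η, DifferentiableOn ℂ (B η) Ω := by
    intro η
    by_cases hη : η ∈ Ω
    · exact (D6_EE_diff_D6 h hF hfam hζ' hη).congr (fun y hy => hBin η hη y hy)
    · have : B η = fun _ => 0 := by
        funext y; exact hBout η hη y
      rw [this]
      exact differentiableOn_const _
  have hM0 : 0 ≤ M := (norm_nonneg _).trans (hM (0, 0))
  have hL0 : 0 ≤ L := by linarith [h.L1]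
  have hK0 := hD.hK0
  set M' : ℝ := (∑ k ∈ S, K / |(a k).im| * (6 * Real.exp Cp)) * L * M * 4 with hM'
  have hs0 : 0 ≤ ∑ k ∈ S, K / |(a k).im| * (6 * Real.exp Cp) :=
    Finset.sum_nonneg fun k _ => by positivity
  have hM'0 : 0 ≤ M' := by rw [hM']; positivity
  have hBb : ∀ η y, ‖B η y‖ ≤ (ball (0 : ℂ) 1).indicator (fun _ => M') η := by
    intro η y
    by_cases hη : η ∈ Ω
    · have hηb : η ∈ ball (0 : ℂ) 1 := by
        have h1 := hη.1
        rw [mem_ball_zero_iff]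
        linarith
      rw [indicator_of_mem hηb]
      by_cases hy : y ∈ Ω
      · rw [hBin η hη y hy]
        exact D6_EE_bd_D6 h hF hfam hD hM hζ' hη hy
      · have hp : ((η, y) : ℂ × ℂ) ∉ Ω ×ˢ Ω := fun hp => hy hp.2
        simp only [hB, indicator_of_notMem hp, norm_zero]
        exact hM'0
    · rw [hBout η hη y, norm_zero]
      exact indicator_nonneg (fun _ _ => hM'0) _
  have hweak := CT_weak hΩ zero_le_one hM'0 hBm hBd hBb
  refine hweak.congr hΩ ?_ ?_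
  · intro y hy
    have hyb := D6_SS_sub_D6 h hy
    unfold CT VV
    congr 1
    have e1 : ∫ η, B η y / (y - η) = ∫ η in Ω, D6_EE_D6 g F S a R μ v ζ η y / (y - η) := by
      rw [← integral_indicator hΩ.measurableSet]
      congr 1
      funext η
      by_cases hη : η ∈ Ω
      · rw [indicator_of_mem hη, hBin η hη y hy]
      · rw [indicator_of_notMem hη, hBout η hη y, zero_div]
    rw [e1]
    refine setIntegral_congr_ae hΩ.measurableSet ?_
    have hne : ∀ᵐ η : ℂ, η ≠ y := by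
      have : (volume : Measure ℂ) {y} = 0 := measure_singleton y
      rw [ae_iff]
      simpa using this
    have han : AnalyticOnNhd ℂ (fun η => F (ζ, η) - F (ζ, y)) (ball (0 : ℂ) κ) :=
      ((D6_slice_diffC_D6 hF.diff hζ').sub_const _).analyticOnNhd isOpen_ball
    rcases han.eqOn_zero_or_eventually_ne_zero_of_preconnected
      (convex_ball (0 : ℂ) κ).isPreconnected with hc | hc
    · -- constant slice
      refine Eventually.of_forall (fun η hη => ?_)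
      have hηb := D6_SS_sub_D6 h hη
      have hd : dz F (ζ, η) = 0 := by
        unfold dz
        have : (fun y : ℂ => F ((ζ, η).1, y)) =ᶠ[𝓝 (ζ, η).2] fun _ => F (ζ, y) := by
          filter_upwards [isOpen_ball.mem_nhds hηb] with w hw
          have := hc hw
          simp only [Pi.zero_apply] at this
          exact sub_eq_zero.1 this
        rw [this.deriv_eq, deriv_const]
      have hE : D6_EE_D6 g F S a R μ v ζ η y = 0 := by
        unfold D6_EE_D6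
        rw [hd, map_zero, mul_zero, zero_mul, zero_mul]
      show D6_EE_D6 g F S a R μ v ζ η y * _ = D6_EE_D6 g F S a R μ v ζ η y / _
      rw [hE, zero_mul, zero_div]
    · have hc2 : ∀ᵐ η ∂(volume.restrict (ball (0 : ℂ) κ)), F (ζ, η) - F (ζ, y) ≠ 0 :=
        ae_restrict_le_codiscreteWithin measurableSet_ball hc
      rw [ae_restrict_iff' measurableSet_ball] at hc2
      filter_upwards [hne, hc2] with η h1 h2 hη
      have h3 := h2 (D6_SS_sub_D6 h hη)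
      show D6_EE_D6 g F S a R μ v ζ η y * (qq F (ζ, η) y / (F (ζ, y) - F (ζ, η))) = _
      have h4 : F (ζ, y) - F (ζ, η) ≠ 0 := by
        intro h5
        apply h3
        rw [← neg_sub, h5, neg_zero]
      have h5 : y - η ≠ 0 := sub_ne_zero.2 (Ne.symm h1)
      have h6 : qq F (ζ, η) y = (F (ζ, y) - F (ζ, η)) / (y - η) := by
        unfold qq
        rw [dslope_of_ne _ (Ne.symm h1), slope_def_field]
      rw [h6]
      field_simp
  · intro y hy
    rw [hBin y hy y hy]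
    exact (D6_EE_self_D6 h hF hfam hD hζ' hy).symm

end Pool.Agent.P157D
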