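import Mathlib
import Pool.Agent.P157C.ExtA
import Pool.Agent.P157D.ExtB
import Pool.Agent.P157D.VVb
import Pool.Agent.P157D.VVw
import Pool.Agent.P157D.VVd

set_option autoImplicit false

open MeasureTheory Metric Set Filter Topology Complex

namespace Pool.Agent.P157D

open Pool.Agent.P157C (dz qq dbar Cut ExtP)

open Pool.Agent.H720R2 Pool.Agent.H720R2.HP

open Pool.Agent.Y263.SC (Den)

open Pool.Agent.P157C (es_mono_U2b es_db_comp_U2b es_Q_open_U2b es_pick_U2b es_mul_C1_U2b)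

theorem D8_DD_open_D8 {κ L : ℝ} {g : GD} (h : GM κ L g) {κ' θ : ℝ} (hκ' : κ' ≤ κ) :
    IsOpen (DD g κ' θ) := by
  rw [isOpen_iff_mem_nhds]
  rintro p ⟨h1, h2, h3⟩
  have hr : ContinuousAt (rho g) p := by
    have hQ := (es_Q_open_U2b κ).mem_nhds (show p ∈ {p : ℂ × ℂ | ‖p.1‖ < κ ∧ ‖p.2‖ < κ} from
      ⟨h1.trans_le hκ', h2.trans_le hκ'⟩)
    rw [ContinuousAt, tendsto_iff_norm_sub_tendsto_zero]
    have hlim : Tendsto (fun q : ℂ × ℂ => L * (‖q.1 - p.1‖ + ‖q.2 - p.2‖)) (𝓝 p) (𝓝 0) := by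
      have hc : Continuous (fun q : ℂ × ℂ => L * (‖q.1 - p.1‖ + ‖q.2 - p.2‖)) := by fun_prop
      have := hc.tendsto p
      simpa using this
    refine squeeze_zero' (Eventually.of_forall fun q => norm_nonneg _) ?_ hlim
    filter_upwards [hQ] with q hq
    have := h.rlip q p hq.1 hq.2 (h1.trans_le hκ') (h2.trans_le hκ')
    rw [Real.norm_eq_abs]
    exact this
  filter_upwards [(es_Q_open_U2b κ').mem_nhds ⟨h1, h2⟩, hr.eventually (lt_mem_nhds h3)] with q hq hq2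
  exact ⟨hq.1, hq.2, hq2⟩

theorem D8_im_D8 {κ L : ℝ} {g : GD} {F : ℂ × ℂ → ℂ} (hL : 1 ≤ L) (hF : SF κ L g F) {p : ℂ × ℂ}
    (h1 : ‖p.1‖ < κ) (h2 : ‖p.2‖ < κ) (h3 : 0 < rho g p) : 0 < (F p).im := by
  have h4 := hF.pos p h1 h2 h3
  by_contra h5
  push Not at h5
  nlinarith

theorem D8_fF_D8 {κ L η : ℝ} {g : GD} {F : ℂ × ℂ → ℂ} {f : ℂ → ℂ} (hL : 1 ≤ L) (hF : SF κ L g F)
    (hη : 0 < η) (hf : DifferentiableOn ℂ f {w : ℂ | -η < w.im}) {p : ℂ × ℂ}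
    (h1 : ‖p.1‖ < κ) (h2 : ‖p.2‖ < κ) (h3 : 0 < rho g p) :
    DifferentiableAt ℂ (fun p => f (F p)) p := by
  have h4 := D8_im_D8 hL hF h1 h2 h3
  have h5 : DifferentiableAt ℂ F p := hF.diff.differentiableAt ((es_Q_open_U2b κ).mem_nhds ⟨h1, h2⟩)
  have h6 : DifferentiableAt ℂ f (F p) := hf.differentiableAt
    ((isOpen_lt continuous_const Complex.continuous_im).mem_nhds
      (show -η < (F p).im by linarith))
  exact DifferentiableAt.comp (g := f) p h6 h5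

theorem D8_Dm_open_D8 {κ L η : ℝ} {K : ℕ} {g : GD} {F : Fin K → ℂ × ℂ → ℂ}
    {f : Fin K → ℂ → ℂ} (hL : 1 ≤ L) (h : GM κ L g) (hF : ∀ k, SF κ L g (F k)) (hη : 0 < η)
    (hf : ∀ k, DifferentiableOn ℂ (f k) {w : ℂ | -η < w.im}) {κ' θ : ℝ} (hκ' : κ' ≤ κ)
    (hθ : 0 ≤ θ) (I : Finset (Fin K)) (ε : ℝ) : IsOpen (Dm g κ' θ F f I ε) := by
  rw [isOpen_iff_mem_nhds]
  rintro p ⟨hp, hI⟩
  have h1 : ∀ k ∈ I, ∀ᶠ q in 𝓝 p, ‖f k (F k q)‖ < ε := fun k hk =>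
    ((D8_fF_D8 hL (hF k) hη (hf k) (hp.1.trans_le hκ') (hp.2.1.trans_le hκ')
      (hθ.trans_lt hp.2.2)).continuousAt.norm).eventually (gt_mem_nhds (hI k hk))
  filter_upwards [(D8_DD_open_D8 h hκ').mem_nhds hp, (Filter.eventually_all_finset I).2 h1] with q
    hq1 hq2
  exact ⟨hq1, hq2⟩

/-- the corrected function is holomorphic on the slices -/
theorem D8_holo_D8 {κ L η ε ε₀ Cc K M : ℝ} {g : GD} {F : ℂ × ℂ → ℂ} {f : ℂ → ℂ} (hL : 1 ≤ L)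
    (h : GM κ L g) (hF : SF κ L g F) (hη : 0 < η) (hf : DifferentiableOn ℂ f {w : ℂ | -η < w.im})
    {S : Finset (ℕ × ℤ)} {a : ℕ × ℤ → ℂ} {R : ℕ × ℤ → Set ℂ} {χ : Option (Fin 1) → ℂ → ℂ}
    (hε : 0 < ε) (hε₀ : 0 < ε₀)
    (hcut : CutP (fun _ : Fin 1 => f) (ε / 2) ε₀ Cc S a R χ)
    (hD : Den univ S a R (mu1 (fun _ : Fin 1 => f) S R χ 0) K) {v : ℂ × ℂ → ℂ}
    (hv : Measurable v) (hM : ∀ s, ‖v s‖ ≤ M) {ζ : ℂ} (hζ : ‖ζ‖ < κ / 2) (hκ : 0 < κ)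
    {Ω : Set ℂ} (hΩ : IsOpen Ω) (hΩS : Ω ⊆ SS g κ ζ)
    (hvd : DifferentiableOn ℂ (fun y => v (ζ, y)) {y | y ∈ Ω ∧ ‖f (F (ζ, y))‖ < ε}) :
    DifferentiableOn ℂ (fun y => χ none (F (ζ, y)) * v (ζ, y) -
      f (F (ζ, y)) * VV g κ F S a R (mu1 (fun _ : Fin 1 => f) S R χ 0) v ζ (ζ, y)) Ω := by
  have hfUH : ∀ i : Fin 1, DifferentiableOn ℂ ((fun _ : Fin 1 => f) i) UH := fun i =>
    hf.mono (fun w hw => by
      change -η < w.im
      have : (0 : ℝ) < w.im := hw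
      linarith)
  have hΩκ : ∀ y ∈ Ω, ‖y‖ < κ ∧ 0 < rho g (ζ, y) := fun y hy =>
    ⟨by linarith [(hΩS hy).1], (hΩS hy).2⟩
  have hζκ : ‖ζ‖ < κ := by linarith
  have hFat : ∀ y ∈ Ω, DifferentiableAt ℂ (fun y => F (ζ, y)) y := by
    intro y hy
    have h1 : DifferentiableAt ℂ F (ζ, y) :=
      hF.diff.differentiableAt ((es_Q_open_U2b κ).mem_nhds ⟨hζκ, (hΩκ y hy).1⟩)
    exact DifferentiableAt.comp (g := F) y h1
      ((differentiableAt_const ζ).prodMk differentiableAt_id)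
  have hFd : DifferentiableOn ℂ (fun y => F (ζ, y)) Ω := fun y hy =>
    (hFat y hy).differentiableWithinAt
  have hFU : ∀ y ∈ Ω, F (ζ, y) ∈ UH := fun y hy =>
    D8_im_D8 hL hF (p := (ζ, y)) hζκ (hΩκ y hy).1 (hΩκ y hy).2
  have hffat : ∀ y ∈ Ω, DifferentiableAt ℂ (fun y => f (F (ζ, y))) y := by
    intro y hy
    have h1 := D8_fF_D8 hL hF hη hf (p := (ζ, y)) hζκ (hΩκ y hy).1 (hΩκ y hy).2
    exact DifferentiableAt.comp (g := fun p => f (F p)) y h1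
      ((differentiableAt_const ζ).prodMk differentiableAt_id)
  have hφc : ∀ y ∈ Ω, ContDiffAt ℝ 1 (fun y => χ none (F (ζ, y))) y := by
    intro y hy
    have h1 : ContDiffAt ℝ 1 (χ none) (F (ζ, y)) :=
      (hcut.smooth none).contDiffAt (isOpen_UH.mem_nhds (hFU y hy))
    have h2 : ContDiffAt ℂ 1 (fun y => F (ζ, y)) y :=
      ((hFd.analyticAt (hΩ.mem_nhds hy)).contDiffAt (n := ⊤)).of_le le_top
    exact h1.comp y (h2.restrict_scalars ℝ)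
  set O : Set ℂ := {y | y ∈ Ω ∧ ‖f (F (ζ, y))‖ < ε} with hO
  have hOo : IsOpen O := by
    rw [isOpen_iff_mem_nhds]
    rintro y ⟨hy, hy2⟩
    filter_upwards [hΩ.mem_nhds hy,
      ((hffat y hy).continuousAt.norm).eventually (gt_mem_nhds hy2)] with x hx1 hx2
    exact ⟨hx1, hx2⟩
  obtain ⟨hc1, hc2⟩ := es_mul_C1_U2b (g := fun y => v (ζ, y)) hΩ hOo
    (hvd.mono inter_subset_right) hφc (by
      intro y hy hyO
      have h1 : F (ζ, y) ∉ {w | w ∈ UH ∧ ∀ i : Fin 1, ‖(fun _ : Fin 1 => f) i w‖ < ε} := by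
        rintro ⟨-, h2⟩
        exact hyO ⟨hy, h2 0⟩
      have h2 := Pool.Agent.Y263.LF.cut_zero hcut hfUH (by linarith : ε / 2 < ε) (hFU y hy) h1
      exact (hFat y hy).continuousAt.eventually h2)
  have hw1 := WD.of_C1 hΩ hc1
  have hw2 := (es_mono_U2b (VV_weak h hF hcut.fam hD hv hM hζ) hΩS).mul_holo hΩ
    (c := fun y => -f (F (ζ, y))) (fun y hy => (hffat y hy).neg.differentiableWithinAt)
  have hw3 := (hw1.add hΩ hw2).holo hΩ (by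
    intro y hy
    have h1 : db (fun y => χ none (F (ζ, y))) y =
        db (χ none) (F (ζ, y)) * starRingEnd ℂ (deriv (fun y => F (ζ, y)) y) :=
      es_db_comp_U2b (hcut.diffAt (hFU y hy) none) (hFat y hy)
    have h2 : f (F (ζ, y)) * mu1 (fun _ : Fin 1 => f) S R χ 0 (F (ζ, y)) =
        db (χ none) (F (ζ, y)) := by
      have h3 := sum_mu1 hcut hε₀ hfUH (hFU y hy)
      rw [mu1_eq hcut (hFU y hy)]
      simpa using h3
    rw [hc2 y hy, h1, ← h2]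
    change _ + -f (F (ζ, y)) * (_ * starRingEnd ℂ (deriv (fun y => F (ζ, y)) y) * _) = 0
    ring)
  refine hw3.congr (fun y _ => ?_)
  ring

/-- **TARGET** -/
theorem extP_step {κ L ε ε₁ C₁ : ℝ} (hκ : 0 < κ) (hκ1 : κ ≤ 1) (hL : 1 ≤ L) (hε : 0 < ε)
    (hε1 : ε ≤ 1) (hε₁ : 0 < ε₁) (hε₁' : ε₁ ≤ ε) (hC₁ : 0 ≤ C₁) :
    ∃ ε' C : ℝ, 0 < ε' ∧ ε' ≤ ε₁ ∧ 0 ≤ C ∧ ∀ (K : ℕ) (g : GD) (F : Fin K → ℂ × ℂ → ℂ)
      (f : Fin K → ℂ → ℂ) (η : ℝ), GM κ L g → (∀ k, SF κ L g (F k)) → 0 < η →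
      (∀ k, DifferentiableOn ℂ (f k) {w : ℂ | -η < w.im}) →
      (∀ k, ∀ w : ℂ, 0 ≤ w.im → ‖f k w‖ ≤ 1) →
      (∀ k, ∃ c : ℂ, Tendsto (f k) (Bornology.cobounded ℂ ⊓ 𝓟 {w : ℂ | 0 ≤ w.im}) (𝓝 c)) →
      ∀ θ : ℝ, 0 < θ → ∀ A : Set ℂ, (∀ ζ ∈ A, ‖ζ‖ < κ / 8) →
      ∀ (I : Finset (Fin K)) (k : Fin K), k ∉ I →
        ExtP A (Dm g (κ / 2) 0 F f I ε) (Dm g (κ / 8) θ F f I ε₁) C₁ →
        ExtP A (Dm g (κ / 2) 0 F f (insert k I) ε) (Dm g (κ / 8) θ F f (insert k I) ε') C := by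
  classical
  obtain ⟨ε₀, Cc, hε₀, hCc, hcutN⟩ := cutN 1 (ε := ε / 2) (by positivity) (by linarith)
  obtain ⟨CV, hCV0, hCV⟩ := VV_bd (c₀ := min 1 (ε₀ / 4)) hκ hκ1 hL
    (lt_min one_pos (by positivity)) (min_le_left _ _) Cc
  set KK : ℝ := Cc / ε₀ with hKK
  have hKK0 : 0 ≤ KK := by positivity
  refine ⟨min ε₁ (ε₀ / 2), C₁ * (1 + CV * KK) + CV * KK, lt_min hε₁ (by positivity),
    min_le_left _ _, by positivity, ?_⟩
  intro K g F f η h hF hη hf hfb hlim θ hθ A hA I k _ hext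
  obtain ⟨S, a, R, χ, hcut⟩ := hcutN (fun _ : Fin 1 => f k) η
    (fun _ => ⟨hη, hf k, hfb k⟩) (fun _ => hlim k)
  have hfUH : ∀ i : Fin 1, DifferentiableOn ℂ ((fun _ : Fin 1 => f k) i) UH := fun i =>
    (hf k).mono (fun w hw => by
      change -η < w.im
      have : (0 : ℝ) < w.im := hw
      linarith)
  set μ : ℂ → ℂ := mu1 (fun _ : Fin 1 => f k) S R χ 0 with hμ
  have hden' := Pool.Agent.Y263.SC.den1' hcut hε₀ hCc.le hfUH 0
  have hden : Den univ S a R μ KK := ⟨hden'.hμ, hden'.hK0, hden'.hK, hden'.h0, fun _ _ => trivial⟩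
  have hμne : ∀ ω, μ ω ≠ 0 → 0 < ω.im ∧ ε₀ ≤ ‖f k ω‖ := by
    intro ω hω
    have h1 := hden'.hA ω hω
    refine ⟨h1.1, ?_⟩
    by_contra h2
    push Not at h2
    exact hω (Pool.Agent.Y263.LF.cut_mu1 hcut hfUH ⟨h1.1, fun _ => h2⟩ 0)
  intro v M hv hM hvd hvb
  -- the domains
  have hκ2 : κ / 2 ≤ κ := by linarith
  have hκ8 : κ / 8 ≤ κ := by linarith
  set D₁ : Set (ℂ × ℂ) := Dm g (κ / 2) 0 F f (insert k I) ε with hD₁
  have hD₁o : IsOpen D₁ := D8_Dm_open_D8 hL h hF hη hf hκ2 le_rfl _ _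
  set D₂ : Set (ℂ × ℂ) := Dm g (κ / 8) θ F f (insert k I) (min ε₁ (ε₀ / 2)) with hD₂
  have hD₂o : IsOpen D₂ := D8_Dm_open_D8 hL h hF hη hf hκ8 hθ.le _ _
  have hDD : DD g (κ / 8) θ ⊆ DD g (κ / 2) 0 := fun p hp =>
    ⟨by linarith [hp.1], by linarith [hp.2.1], hθ.trans hp.2.2⟩
  have hD₂D₁ : D₂ ⊆ D₁ := by
    rintro p ⟨h1, h2⟩
    refine ⟨hDD h1, fun i hi => (h2 i hi).trans_le ((min_le_left _ _).trans hε₁')⟩
  have hD₂D : D₂ ⊆ Dm g (κ / 8) θ F f I ε₁ := by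
    rintro p ⟨h1, h2⟩
    exact ⟨h1, fun i hi => (h2 i (Finset.mem_insert_of_mem hi)).trans_le (min_le_left _ _)⟩
  have hDo : IsOpen (DD g (κ / 2) 0) := D8_DD_open_D8 h hκ2
  -- the truncated function
  set v₁ : ℂ × ℂ → ℂ := fun s => if s ∈ D₁ ∧ ‖v s‖ ≤ M then v s else 0 with hv₁
  have hv₁m : Measurable v₁ := by
    refine Measurable.ite ?_ hv measurable_const
    exact hD₁o.measurableSet.inter (measurableSet_le hv.norm measurable_const)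
  have hv₁b : ∀ s, ‖v₁ s‖ ≤ M := by
    intro s
    simp only [hv₁]
    split_ifs with h1
    · exact h1.2
    · rw [norm_zero]; exact hM
  have hv₁v : ∀ ζ ∈ A, ∀ y : ℂ, (ζ, y) ∈ D₁ → v₁ (ζ, y) = v (ζ, y) := by
    intro ζ hζ y hy
    simp only [hv₁]
    rw [if_pos ⟨hy, hvb ζ hζ y hy⟩]
  -- the operator
  set W : ℂ × (ℂ × ℂ) → ℂ := ({q : ℂ × (ℂ × ℂ) | ‖q.1‖ < κ / 2 ∧ q.2 ∈ DD g (κ / 2) 0}).indicator
      (fun q => VV g κ (F k) S a R μ v₁ q.1 q.2) with hW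
  have hWm : Measurable W := VV_meas h (hF k) hcut.fam hden hv₁m hv₁b
  have hWV : ∀ ζ : ℂ, ‖ζ‖ < κ / 2 → ∀ p ∈ DD g (κ / 2) 0,
      W (ζ, p) = VV g κ (F k) S a R μ v₁ ζ p := by
    intro ζ hζ p hp
    simp only [hW]
    rw [indicator_of_mem]
    exact ⟨hζ, hp⟩
  set g₁ : ℂ × ℂ → ℂ := (DD g (κ / 2) 0).indicator (fun s => χ none (F k s)) with hg₁
  set g₂ : ℂ × ℂ → ℂ := (DD g (κ / 2) 0).indicator (fun s => f k (F k s)) with hg₂
  have hFU : ∀ p ∈ DD g (κ / 2) 0, F k p ∈ UH := fun p hp =>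
    D8_im_D8 hL (hF k) (hp.1.trans_le hκ2) (hp.2.1.trans_le hκ2) hp.2.2
  have hFc : ContinuousOn (F k) (DD g (κ / 2) 0) :=
    (hF k).diff.continuousOn.mono fun p hp => ⟨hp.1.trans_le hκ2, hp.2.1.trans_le hκ2⟩
  have hg₁m : Measurable g₁ := by
    rw [hg₁, ← Set.piecewise_eq_indicator]
    exact ContinuousOn.measurable_piecewise ((hcut.smooth none).continuousOn.comp hFc hFU)
      continuousOn_const hDo.measurableSet
  have hg₂m : Measurable g₂ := by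
    rw [hg₂, ← Set.piecewise_eq_indicator]
    exact ContinuousOn.measurable_piecewise ((hfUH 0).continuousOn.comp hFc hFU)
      continuousOn_const hDo.measurableSet
  have hfk1 : ∀ p ∈ DD g (κ / 2) 0, ‖f k (F k p)‖ ≤ 1 := fun p hp =>
    hfb k _ (le_of_lt (hFU p hp))
  -- the corrected function
  set hh : ℂ × ℂ → ℂ := fun s => g₁ s * v₁ s - g₂ s * W (s.1, s) with hhh
  have hhm : Measurable hh :=
    (hg₁m.mul hv₁m).sub (hg₂m.mul (hWm.comp (measurable_fst.prodMk measurable_id)))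
  have hhe : ∀ ζ : ℂ, ‖ζ‖ < κ / 2 → ∀ y : ℂ, (ζ, y) ∈ DD g (κ / 2) 0 →
      hh (ζ, y) = χ none (F k (ζ, y)) * v₁ (ζ, y) -
        f k (F k (ζ, y)) * VV g κ (F k) S a R μ v₁ ζ (ζ, y) := by
    intro ζ hζ y hy
    simp only [hhh, hg₁, hg₂]
    rw [indicator_of_mem hy, indicator_of_mem hy, hWV ζ hζ _ hy]
  have hζ2 : ∀ ζ ∈ A, ‖ζ‖ < κ / 2 := fun ζ hζ => by linarith [hA ζ hζ]
  obtain ⟨e, he1, he2, he3, he4, M', he5⟩ := hext hh (M * (1 + CV * KK)) hhm (by positivity)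
    (by
      intro ζ hζ
      have hΩo : IsOpen {y : ℂ | (ζ, y) ∈ Dm g (κ / 2) 0 F f I ε} :=
        (D8_Dm_open_D8 hL h hF hη hf hκ2 le_rfl I ε).preimage (by fun_prop)
      have h1 := D8_holo_D8 hL h (hF k) hη (hf k) hε hε₀ hcut hden hv₁m hv₁b (hζ2 ζ hζ) hκ hΩo
        (fun y hy => ⟨hy.1.2.1, hy.1.2.2⟩) (by
          refine ((hvd ζ hζ).mono ?_).congr ?_
          · rintro y ⟨hy1, hy2⟩
            refine ⟨hy1.1, fun i hi => ?_⟩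
            rcases Finset.mem_insert.1 hi with h3 | h3
            · rw [h3]; exact hy2
            · exact hy1.2 i h3
          · rintro y ⟨hy1, hy2⟩
            refine hv₁v ζ hζ y ⟨hy1.1, fun i hi => ?_⟩
            rcases Finset.mem_insert.1 hi with h3 | h3
            · rw [h3]; exact hy2
            · exact hy1.2 i h3)
      exact h1.congr fun y hy => hhe ζ (hζ2 ζ hζ) y hy.1)
    (by
      intro ζ hζ y hy
      rw [hhe ζ (hζ2 ζ hζ) y hy.1]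
      have h1 : ‖χ none (F k (ζ, y)) * v₁ (ζ, y)‖ ≤ M := by
        rw [norm_mul]
        have h2 := hcut.bd none _ (hFU _ hy.1)
        calc _ ≤ 1 * M := by
              gcongr
              exact hv₁b _
          _ = M := one_mul M
      have h2 : ‖f k (F k (ζ, y)) * VV g κ (F k) S a R μ v₁ ζ (ζ, y)‖ ≤ CV * KK * M := by
        rw [norm_mul]
        have h3 := hCV (ℕ × ℤ) g (F k) h (hF k) S a R μ KK M v₁ hcut.fam hden hM hv₁m hv₁b ζ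
          (ζ, y) (hζ2 ζ hζ) (hζ2 ζ hζ) hy.1.2.1 hy.1.2.2 (Or.inl rfl)
        calc _ ≤ 1 * (CV * KK * M) := by
              gcongr
              exact hfk1 _ hy.1
          _ = CV * KK * M := one_mul _
      refine (norm_sub_le _ _).trans ?_
      linarith)
  -- separation
  have hsep : ∀ ζ : ℂ, ∀ p ∈ D₂, ∀ y ∈ SS g κ ζ, μ (F k (ζ, y)) ≠ 0 →
      min 1 (ε₀ / 4) * ‖F k p - starRingEnd ℂ (F k (ζ, y))‖ ≤ ‖F k p - F k (ζ, y)‖ := by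
    intro ζ p hp y _ hy
    obtain ⟨h1, h2⟩ := hμne _ hy
    have h3 : 0 < (F k p).im := hFU p (hDD hp.1)
    have h4 : ‖f k (F k p)‖ < ε₀ / 2 :=
      (hp.2 k (Finset.mem_insert_self k I)).trans_le (min_le_right _ _)
    have h5 := es_pick_U2b (hfUH 0) (fun w hw => hfb k w (le_of_lt hw)) h3 h1
    have h6 : ε₀ / 2 ≤ ‖f k (F k p) - f k (F k (ζ, y))‖ := by
      have h7 := norm_sub_norm_le (f k (F k (ζ, y))) (f k (F k p))
      rw [norm_sub_rev] at h7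
      linarith
    have h8 := norm_nonneg (F k p - starRingEnd ℂ (F k (ζ, y)))
    have h9 : min 1 (ε₀ / 4) * ‖F k p - starRingEnd ℂ (F k (ζ, y))‖ ≤
        ε₀ / 4 * ‖F k p - starRingEnd ℂ (F k (ζ, y))‖ := by
      gcongr
      exact min_le_right _ _
    have h10 : ε₀ / 2 * ‖F k p - starRingEnd ℂ (F k (ζ, y))‖ ≤
        ‖f k (F k p) - f k (F k (ζ, y))‖ * ‖F k p - starRingEnd ℂ (F k (ζ, y))‖ := by
      gcongr
    linarith
  have hVb : ∀ ζ ∈ A, ∀ p ∈ D₂, ‖g₂ p * W (ζ, p)‖ ≤ CV * KK * M := by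
    intro ζ hζ p hp
    have hp2 := hDD hp.1
    rw [hWV ζ (hζ2 ζ hζ) p hp2, norm_mul]
    have h1 : ‖g₂ p‖ ≤ 1 := by
      simp only [hg₂]
      rw [indicator_of_mem hp2]
      exact hfk1 p hp2
    have h3 := hCV (ℕ × ℤ) g (F k) h (hF k) S a R μ KK M v₁ hcut.fam hden hM hv₁m hv₁b ζ
      p (hζ2 ζ hζ) hp2.1 hp2.2.1 hp2.2.2 (Or.inr (hsep ζ p hp))
    calc _ ≤ 1 * (CV * KK * M) := by gcongr
      _ = CV * KK * M := one_mul _
  refine ⟨fun ζ p => e ζ p + g₂ p * W (ζ, p), ?_, ?_, ?_, ?_, M' + CV * KK * M, ?_⟩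
  · exact he1.add ((hg₂m.comp measurable_snd).mul hWm)
  · intro ζ hζ y hy
    have hy2 := hDD hy.1
    beta_reduce
    rw [he2 ζ hζ y (hD₂D hy), hhe ζ (hζ2 ζ hζ) y hy2, hv₁v ζ hζ y (hD₂D₁ hy),
      hWV ζ (hζ2 ζ hζ) _ hy2]
    have h1 : χ none (F k (ζ, y)) = 1 := by
      refine Pool.Agent.Y263.LF.cut_one hcut (hFU _ hy2) (fun _ => ?_)
      have h2 := (hy.2 k (Finset.mem_insert_self k I)).trans_le (min_le_right _ _)
      linarith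
    have h3 : g₂ (ζ, y) = f k (F k (ζ, y)) := by
      simp only [hg₂]
      rw [indicator_of_mem hy2]
    rw [h1, h3]
    ring
  · intro ζ hζ
    refine ((he3 ζ hζ).mono hD₂D).fun_add ?_
    have h1 : DifferentiableOn ℂ (VV g κ (F k) S a R μ v₁ ζ) D₂ :=
      VV_diff h (hF k) hcut.fam hden hv₁m hv₁b hθ (lt_min one_pos (by positivity : 0 < ε₀ / 4))
        (hζ2 ζ hζ) hD₂o (fun p hp => ⟨by linarith [hp.1.1], by linarith [hp.1.2.1], hp.1.2.2⟩)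
        (hsep ζ)
    have h2 : DifferentiableOn ℂ (fun p => f k (F k p)) D₂ := fun p hp =>
      (D8_fF_D8 hL (hF k) hη (hf k) (by linarith [hp.1.1]) (by linarith [hp.1.2.1])
        (hθ.trans hp.1.2.2)).differentiableWithinAt
    refine (h2.fun_mul h1).congr (fun p hp => ?_)
    rw [hWV ζ (hζ2 ζ hζ) p (hDD hp.1)]
    congr 1
    simp only [hg₂]
    rw [indicator_of_mem (hDD hp.1)]
  · intro ζ hζ p hp
    have h1 := he4 ζ hζ p (hD₂D hp)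
    have h2 := hVb ζ hζ p hp
    have h3 : 0 ≤ √(ζ.im / ‖p.1 - ζ‖) := Real.sqrt_nonneg _
    refine (norm_add_le _ _).trans ((add_le_add h1 h2).trans ?_)
    have h4 : CV * KK * M ≤ CV * KK * M * (1 + √(ζ.im / ‖p.1 - ζ‖)) := by
      have h5 : 0 ≤ CV * KK * M := by positivity
      nlinarith
    refine (add_le_add le_rfl h4).trans (le_of_eq ?_)
    ring
  · intro ζ hζ p hp
    exact (norm_add_le _ _).trans (add_le_add (he5 ζ hζ p (hD₂D hp)) (hVb ζ hζ p hp))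

/-- **TARGET** -/
theorem extP_all (n : ℕ) {κ L ε : ℝ} (hκ : 0 < κ) (hκ1 : κ ≤ 1) (hL : 1 ≤ L) (hε : 0 < ε)
    (hε1 : ε ≤ 1) :
    ∃ ε' C : ℝ, 0 < ε' ∧ ε' ≤ ε ∧ 0 ≤ C ∧ ∀ (K : ℕ) (g : GD) (F : Fin K → ℂ × ℂ → ℂ)
      (f : Fin K → ℂ → ℂ) (η : ℝ), GM κ L g → (∀ k, SF κ L g (F k)) → 0 < η →
      (∀ k, DifferentiableOn ℂ (f k) {w : ℂ | -η < w.im}) →
      (∀ k, ∀ w : ℂ, 0 ≤ w.im → ‖f k w‖ ≤ 1) →
      (∀ k, ∃ c : ℂ, Tendsto (f k) (Bornology.cobounded ℂ ⊓ 𝓟 {w : ℂ | 0 ≤ w.im}) (𝓝 c)) →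
      ∀ θ : ℝ, 0 < θ → ∀ A : Set ℂ, (∀ ζ ∈ A, ‖ζ‖ < κ / 8) →
      ∀ I : Finset (Fin K), I.card = n →
        ExtP A (Dm g (κ / 2) 0 F f I ε) (Dm g (κ / 8) θ F f I ε') C := by
  induction n with
  | zero =>
    obtain ⟨C, hC, h⟩ := extP_base hκ hκ1 hL
    refine ⟨ε, C, hε, le_rfl, hC, ?_⟩
    intro K g F f η hz _ _ _ _ _ θ hθ A hA I hI
    have hI' : I = ∅ := Finset.card_eq_zero.mp hI
    subst hI'
    have h1 : Dm g (κ / 2) 0 F f ∅ ε = DD g (κ / 2) 0 := by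
      ext p; simp [Dm]
    have h2 : Dm g (κ / 8) θ F f ∅ ε = DD g (κ / 8) θ := by
      ext p; simp [Dm]
    rw [h1, h2]
    exact h g hz θ hθ A hA
  | succ n ih =>
    obtain ⟨ε₁, C₁, hε₁, hε₁', hC₁, h₁⟩ := ih
    obtain ⟨ε', C, hε', hε'', hC, h⟩ := extP_step hκ hκ1 hL hε hε1 hε₁ hε₁' hC₁
    refine ⟨ε', C, hε', hε''.trans hε₁', hC, ?_⟩
    intro K g F f η hz hF hη hf hfb hfl θ hθ A hA I hI
    obtain ⟨k, hk⟩ : I.Nonempty := by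
      rw [← Finset.card_pos, hI]; exact Nat.succ_pos n
    have hcard : (I.erase k).card = n := by
      rw [Finset.card_erase_of_mem hk, hI]; rfl
    have hstep := h K g F f η hz hF hη hf hfb hfl θ hθ A hA (I.erase k) k (Finset.notMem_erase k I)
      (h₁ K g F f η hz hF hη hf hfb hfl θ hθ A hA (I.erase k) hcard)
    rwa [Finset.insert_erase hk] at hstep

end Pool.Agent.P157D
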