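import Mathlib
import Pool.Agent.P157C.LCx
import Pool.Agent.P157D.Defs

set_option autoImplicit false

open MeasureTheory Metric Set Filter Topology Complex

namespace Pool.Agent.P157D

open Pool.Agent.P157C (dz qq dbar Cut ExtP)

theorem D13_lin_D13 (D : ℂ × ℂ →L[ℝ] ℝ) (u v : ℂ) :
    D (u, v) = 2 * ((((D (1, 0) : ℝ) : ℂ) - Complex.I * ((D (Complex.I, 0) : ℝ) : ℂ)) / 2 * u +
      (((D (0, 1) : ℝ) : ℂ) - Complex.I * ((D (0, Complex.I) : ℝ) : ℂ)) / 2 * v).re := by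
  have h : ((u, v) : ℂ × ℂ) = (u.re • ((1 : ℂ), (0 : ℂ)) + u.im • (Complex.I, (0 : ℂ))) +
      (v.re • ((0 : ℂ), (1 : ℂ)) + v.im • ((0 : ℂ), Complex.I)) := by
    ext <;> simp
  conv_lhs => rw [h]
  rw [map_add, map_add, map_add, map_smul, map_smul, map_smul, map_smul]
  simp only [smul_eq_mul, Complex.add_re, Complex.mul_re, Complex.sub_re, Complex.sub_im,
    Complex.mul_im, Complex.I_re, Complex.I_im, Complex.ofReal_re, Complex.ofReal_im,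
    Complex.div_ofNat_re, Complex.div_ofNat_im]
  ring

theorem D13_fd_D13 (R : ℂ × ℂ → ℝ) (x u : ℂ × ℂ) :
    fderiv ℝ R x u = 2 * (d1 R x * u.1 + d2 R x * u.2).re := by
  have h := D13_lin_D13 (fderiv ℝ R x) u.1 u.2
  exact h

theorem D13_dbar_D13 {A : ℂ × ℂ → ℂ} {p : ℂ × ℂ} (h : DifferentiableAt ℝ A p) :
    dbar (fun η : ℂ => A (p.1, η)) p.2 =
      (fderiv ℝ A p (0, 1) + Complex.I * fderiv ℝ A p (0, Complex.I)) / 2 := by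
  have h1 : HasFDerivAt (fun η : ℂ => ((p.1, η) : ℂ × ℂ)) (ContinuousLinearMap.inr ℝ ℂ ℂ) p.2 :=
    hasFDerivAt_prodMk_right p.1 p.2
  have h2 : HasFDerivAt A (fderiv ℝ A p) ((fun η : ℂ => ((p.1, η) : ℂ × ℂ)) p.2) :=
    h.hasFDerivAt
  have h3 := h2.comp p.2 h1
  have h4 : fderiv ℝ (fun η : ℂ => A (p.1, η)) p.2 =
      (fderiv ℝ A p).comp (ContinuousLinearMap.inr ℝ ℂ ℂ) := h3.fderiv
  unfold dbar
  rw [h4]
  simp

theorem D13_bd_D13 (D : ℂ × ℂ →L[ℝ] ℂ) : ‖(D (0, 1) + Complex.I * D (0, Complex.I)) / 2‖ ≤ ‖D‖ := by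
  have h1 : ‖D (0, 1)‖ ≤ ‖D‖ := by
    have := D.le_opNorm (0, 1)
    simpa [Prod.norm_def] using this
  have h2 : ‖D (0, Complex.I)‖ ≤ ‖D‖ := by
    have := D.le_opNorm (0, Complex.I)
    simpa [Prod.norm_def] using this
  have h3 : ‖D (0, 1) + Complex.I * D (0, Complex.I)‖ ≤ ‖D‖ + ‖D‖ := by
    refine (norm_add_le _ _).trans (add_le_add h1 ?_)
    rw [norm_mul, Complex.norm_I, one_mul]
    exact h2
  rw [norm_div, Complex.norm_ofNat]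
  linarith

theorem D13_bd1_D13 (D : ℂ × ℂ →L[ℝ] ℝ) (a b : ℂ × ℂ) (ha : ‖a‖ ≤ 1) (hb : ‖b‖ ≤ 1) :
    ‖(((D a : ℝ) : ℂ) - Complex.I * ((D b : ℝ) : ℂ)) / 2‖ ≤ ‖D‖ := by
  have h0 := norm_nonneg D
  have h1 : ‖D a‖ ≤ ‖D‖ := (D.le_opNorm a).trans (mul_le_of_le_one_right h0 ha)
  have h2 : ‖D b‖ ≤ ‖D‖ := (D.le_opNorm b).trans (mul_le_of_le_one_right h0 hb)
  have h3 : ‖((D a : ℝ) : ℂ) - Complex.I * ((D b : ℝ) : ℂ)‖ ≤ ‖D‖ + ‖D‖ := by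
    refine (norm_sub_le _ _).trans (add_le_add ?_ ?_)
    · rw [Complex.norm_real]
      exact h1
    · rw [norm_mul, Complex.norm_I, one_mul, Complex.norm_real]
      exact h2
  rw [norm_div, Complex.norm_ofNat]
  linarith

theorem D13_n1_D13 : ‖((1 : ℂ), (0 : ℂ))‖ ≤ 1 := by simp [Prod.norm_def]

theorem D13_n2_D13 : ‖((Complex.I : ℂ), (0 : ℂ))‖ ≤ 1 := by simp [Prod.norm_def]

theorem D13_n3_D13 : ‖((0 : ℂ), (1 : ℂ))‖ ≤ 1 := by simp [Prod.norm_def]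

theorem D13_n4_D13 : ‖((0 : ℂ), (Complex.I : ℂ))‖ ≤ 1 := by simp [Prod.norm_def]

theorem D13_d1s_D13 (R : ℂ × ℂ → ℝ) (x y : ℂ × ℂ) :
    ‖d1 R x - d1 R y‖ ≤ ‖fderiv ℝ R x - fderiv ℝ R y‖ := by
  have h : d1 R x - d1 R y = ((((fderiv ℝ R x - fderiv ℝ R y) (1, 0) : ℝ) : ℂ) -
      Complex.I * (((fderiv ℝ R x - fderiv ℝ R y) (Complex.I, 0) : ℝ) : ℂ)) / 2 := by
    unfold d1
    simp only [sub_apply]
    push_cast
    ring
  rw [h]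
  exact D13_bd1_D13 _ _ _ D13_n1_D13 D13_n2_D13

theorem D13_d2s_D13 (R : ℂ × ℂ → ℝ) (x y : ℂ × ℂ) :
    ‖d2 R x - d2 R y‖ ≤ ‖fderiv ℝ R x - fderiv ℝ R y‖ := by
  have h : d2 R x - d2 R y = ((((fderiv ℝ R x - fderiv ℝ R y) (0, 1) : ℝ) : ℂ) -
      Complex.I * (((fderiv ℝ R x - fderiv ℝ R y) (0, Complex.I) : ℝ) : ℂ)) / 2 := by
    unfold d2
    simp only [sub_apply]
    push_cast
    ring
  rw [h]
  exact D13_bd1_D13 _ _ _ D13_n3_D13 D13_n4_D13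

theorem D13_open_D13 (r : ℝ) : IsOpen (Bo r) := by
  have h : Bo r = (fun x : ℂ × ℂ => ‖x.1‖) ⁻¹' Set.Iio r ∩ (fun x : ℂ × ℂ => ‖x.2‖) ⁻¹' Set.Iio r :=
    rfl
  rw [h]
  exact (isOpen_Iio.preimage (by fun_prop)).inter (isOpen_Iio.preimage (by fun_prop))

theorem D13_convex_D13 (r : ℝ) : Convex ℝ (Bo r) := by
  have h : Bo r = (ball (0 : ℂ) r) ×ˢ (ball (0 : ℂ) r) := by
    ext x
    simp [Bo]
  rw [h]
  exact (convex_ball _ _).prod (convex_ball _ _)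

theorem D13_d1C_D13 {R : ℂ × ℂ → ℝ} {r : ℝ} (h : ContDiffOn ℝ 2 R (Bo r)) :
    ContDiffOn ℝ 1 (d1 R) (Bo r) := by
  have h1 : ContDiffOn ℝ 1 (fderiv ℝ R) (Bo r) :=
    h.fderiv_of_isOpen (D13_open_D13 r) (by norm_num)
  have h2 : ∀ a : ℂ × ℂ, ContDiffOn ℝ 1 (fun x => ((fderiv ℝ R x a : ℝ) : ℂ)) (Bo r) :=
    fun a => Complex.ofRealCLM.contDiff.comp_contDiffOn (h1.clm_apply contDiffOn_const)
  exact ((h2 (1, 0)).sub (contDiffOn_const.mul (h2 (Complex.I, 0)))).div_const 2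

theorem D13_d2C_D13 {R : ℂ × ℂ → ℝ} {r : ℝ} (h : ContDiffOn ℝ 2 R (Bo r)) :
    ContDiffOn ℝ 1 (d2 R) (Bo r) := by
  have h1 : ContDiffOn ℝ 1 (fderiv ℝ R) (Bo r) :=
    h.fderiv_of_isOpen (D13_open_D13 r) (by norm_num)
  have h2 : ∀ a : ℂ × ℂ, ContDiffOn ℝ 1 (fun x => ((fderiv ℝ R x a : ℝ) : ℂ)) (Bo r) :=
    fun a => Complex.ofRealCLM.contDiff.comp_contDiffOn (h1.clm_apply contDiffOn_const)
  exact ((h2 (0, 1)).sub (contDiffOn_const.mul (h2 (0, Complex.I)))).div_const 2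

theorem D13_lin_apply_D13 (D : ℂ × ℂ →L[ℂ] ℂ) (u v : ℂ) :
    D (u, v) = u * D (1, 0) + v * D (0, 1) := by
  have h : ((u, v) : ℂ × ℂ) = u • ((1 : ℂ), (0 : ℂ)) + v • ((0 : ℂ), (1 : ℂ)) := by
    ext <;> simp
  rw [h, map_add, map_smul, map_smul, smul_eq_mul, smul_eq_mul]

/-- the derivative of `(a, b) ↦ (W (a, b), b)` as an equivalence -/
noncomputable def D13_equiv_D13 (D : ℂ × ℂ →L[ℂ] ℂ) (h : D (1, 0) ≠ 0) : (ℂ × ℂ) ≃L[ℂ] (ℂ × ℂ) :=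
  ContinuousLinearEquiv.equivOfInverse (D.prod (ContinuousLinearMap.snd ℂ ℂ ℂ))
    (((D (1, 0))⁻¹ • (ContinuousLinearMap.fst ℂ ℂ ℂ - (D (0, 1)) • ContinuousLinearMap.snd ℂ ℂ ℂ)).prod
      (ContinuousLinearMap.snd ℂ ℂ ℂ))
    (by
      rintro ⟨u, v⟩
      ext
      · simp [D13_lin_apply_D13 D u v]
        field_simp
        ring
      · simp)
    (by
      rintro ⟨u, v⟩
      ext
      · simp only [ContinuousLinearMap.prod_apply, smul_apply, sub_apply,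
          ContinuousLinearMap.coe_fst', ContinuousLinearMap.coe_snd', smul_eq_mul]
        rw [D13_lin_apply_D13]
        field_simp
        ring
      · simp)

theorem D13_dz_D13 {z : ℂ × ℂ → ℂ} {p : ℂ × ℂ} (h : DifferentiableAt ℂ z p) :
    dz z p = fderiv ℂ z p (0, 1) := by
  have h1 : HasDerivAt (fun y : ℂ => ((p.1, y) : ℂ × ℂ)) ((0 : ℂ), (1 : ℂ)) p.2 :=
    (hasDerivAt_const p.2 p.1).prodMk (hasDerivAt_id p.2)
  have h2 : HasFDerivAt z (fderiv ℂ z p) ((fun y : ℂ => ((p.1, y) : ℂ × ℂ)) p.2) := h.hasFDerivAt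
  exact (h2.comp_hasDerivAt p.2 h1).deriv

open scoped ContDiff in
theorem D13_inv_D13 {W : ℂ × ℂ → ℂ} (hW : AnalyticAt ℂ W ((0 : ℂ), (0 : ℂ))) (h0 : W (0, 0) = 0)
    (hd : deriv (fun a : ℂ => W (a, 0)) 0 ≠ 0) :
    ∃ z : ℂ × ℂ → ℂ, z (0, 0) = 0 ∧ AnalyticAt ℂ z ((0 : ℂ), (0 : ℂ)) ∧
      (∀ᶠ p in 𝓝 ((0 : ℂ), (0 : ℂ)), W (z p, p.2) = p.1) ∧
      ∀ᶠ x in 𝓝 ((0 : ℂ), (0 : ℂ)), z (W x, x.2) = x.1 := by
  set D : ℂ × ℂ →L[ℂ] ℂ := fderiv ℂ W (0, 0) with hDdef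
  have hWd : HasFDerivAt W D (0, 0) := hW.differentiableAt.hasFDerivAt
  have hD10 : D (1, 0) ≠ 0 := by
    have h2 : HasDerivAt (fun a : ℂ => ((a, 0) : ℂ × ℂ)) ((1 : ℂ), (0 : ℂ)) 0 :=
      (hasDerivAt_id (0 : ℂ)).prodMk (hasDerivAt_const 0 0)
    have hWd' : HasFDerivAt W D ((fun a : ℂ => ((a, 0) : ℂ × ℂ)) 0) := hWd
    have h3 : HasDerivAt (fun a : ℂ => W (a, 0)) (D (1, 0)) 0 := 
      HasFDerivAt.comp_hasDerivAt (f := fun a : ℂ => ((a, 0) : ℂ × ℂ)) (0 : ℂ) hWd' h2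
    rw [h3.deriv] at hd
    exact hd
  let Φ : ℂ × ℂ → ℂ × ℂ := fun q => (W q, q.2)
  have hω : (ω : WithTop ℕ∞) ≠ 0 := by decide
  have hΦ : ContDiffAt ℂ ω Φ (0, 0) := (hW.contDiffAt).prodMk contDiffAt_snd
  have hΦd : HasFDerivAt Φ ((D13_equiv_D13 D hD10 : (ℂ × ℂ) ≃L[ℂ] (ℂ × ℂ)) : ℂ × ℂ →L[ℂ] ℂ × ℂ)
      (0, 0) := hWd.prodMk hasFDerivAt_snd
  have hΦ0 : Φ (0, 0) = (0, 0) := by simp [Φ, h0]
  let e := hΦ.toOpenPartialHomeomorph Φ hΦd hω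
  have hesrc : ((0 : ℂ), (0 : ℂ)) ∈ e.source := hΦ.mem_toOpenPartialHomeomorph_source hΦd hω
  have hecoe : ∀ q, e q = Φ q := fun q => rfl
  have hetgt : ((0 : ℂ), (0 : ℂ)) ∈ e.target := by
    have := e.map_source hesrc
    rw [hecoe, hΦ0] at this
    exact this
  have hes0 : e.symm (0, 0) = (0, 0) := by
    have := e.left_inv hesrc
    rw [hecoe, hΦ0] at this
    exact this
  have hΨ : ContDiffAt ℂ ω e.symm (0, 0) := by
    have := hΦ.to_localInverse hΦd hω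
    rw [hΦ0] at this
    exact this
  let z : ℂ × ℂ → ℂ := fun p => (e.symm p).1
  have hz0 : z (0, 0) = 0 := by simp [z, hes0]
  have hzω : ContDiffAt ℂ ω z (0, 0) := contDiffAt_fst.comp _ hΨ
  have hval : ∀ p ∈ e.target, e.symm p = (z p, p.2) ∧ W (z p, p.2) = p.1 := by
    intro p hp
    have h4 : Φ (e.symm p) = p := by rw [← hecoe]; exact e.right_inv hp
    have h5 : (e.symm p).2 = p.2 := by
      have := congrArg Prod.snd h4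
      exact this
    have h6 : W (e.symm p) = p.1 := by
      have := congrArg Prod.fst h4
      exact this
    have h7 : e.symm p = (z p, p.2) := by
      rw [← h5]
    exact ⟨h7, by rw [← h7]; exact h6⟩
  refine ⟨z, hz0, hzω.analyticAt, ?_, ?_⟩
  · filter_upwards [e.open_target.mem_nhds hetgt] with p hp
    exact (hval p hp).2
  · filter_upwards [e.open_source.mem_nhds hesrc] with q hq
    have h4 := e.left_inv hq
    rw [hecoe] at h4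
    show (e.symm (Φ q)).1 = q.1
    rw [h4]

theorem D13_rd_D13 {R : ℂ × ℂ → ℝ} {z : ℂ × ℂ → ℂ} {p : ℂ × ℂ} (hz : DifferentiableAt ℂ z p)
    (hR : DifferentiableAt ℝ R (z p, p.2)) :
    dbar (fun η : ℂ => ((R (z (p.1, η), η) : ℝ) : ℂ)) p.2 =
      starRingEnd ℂ (d1 R (z p, p.2) * dz z p + d2 R (z p, p.2)) := by
  have hzR : HasFDerivAt z ((fderiv ℂ z p).restrictScalars ℝ) p := hz.hasFDerivAt.restrictScalars ℝ
  have hZ : HasFDerivAt (fun q : ℂ × ℂ => ((z q, q.2) : ℂ × ℂ))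
      (((fderiv ℂ z p).restrictScalars ℝ).prod (ContinuousLinearMap.snd ℝ ℂ ℂ)) p :=
    hzR.prodMk hasFDerivAt_snd
  have hS : HasFDerivAt (fun q : ℂ × ℂ => ((R (z q, q.2) : ℝ) : ℂ))
      (Complex.ofRealCLM.comp ((fderiv ℝ R (z p, p.2)).comp
        (((fderiv ℂ z p).restrictScalars ℝ).prod (ContinuousLinearMap.snd ℝ ℂ ℂ)))) p := by
    have h1 : HasFDerivAt R (fderiv ℝ R (z p, p.2)) ((fun q : ℂ × ℂ => ((z q, q.2) : ℂ × ℂ)) p) :=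
      hR.hasFDerivAt
    have h2 := h1.comp p hZ
    exact Complex.ofRealCLM.hasFDerivAt.comp p h2
  have h3 := D13_dbar_D13 (A := fun q : ℂ × ℂ => ((R (z q, q.2) : ℝ) : ℂ)) hS.differentiableAt
  have h4 : dbar (fun η : ℂ => ((R (z (p.1, η), η) : ℝ) : ℂ)) p.2 =
      (fderiv ℝ (fun q : ℂ × ℂ => ((R (z q, q.2) : ℝ) : ℂ)) p (0, 1) + Complex.I *
        fderiv ℝ (fun q : ℂ × ℂ => ((R (z q, q.2) : ℝ) : ℂ)) p (0, Complex.I)) / 2 := h3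
  rw [h4, hS.fderiv]
  have h5 : ∀ v : ℂ, (Complex.ofRealCLM.comp ((fderiv ℝ R (z p, p.2)).comp
        (((fderiv ℂ z p).restrictScalars ℝ).prod (ContinuousLinearMap.snd ℝ ℂ ℂ)))) (0, v) =
      ((2 * ((d1 R (z p, p.2) * dz z p + d2 R (z p, p.2)) * v).re : ℝ) : ℂ) := by
    intro v
    have h6 : (Complex.ofRealCLM.comp ((fderiv ℝ R (z p, p.2)).comp
        (((fderiv ℂ z p).restrictScalars ℝ).prod (ContinuousLinearMap.snd ℝ ℂ ℂ)))) (0, v) =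
        ((fderiv ℝ R (z p, p.2) (fderiv ℂ z p (0, v), v) : ℝ) : ℂ) := rfl
    rw [h6, D13_fd_D13, D13_lin_apply_D13 (fderiv ℂ z p) 0 v, D13_dz_D13 hz]
    congr 3
    simp only
    ring
  rw [h5, h5]
  generalize (d1 R (z p, p.2) * dz z p + d2 R (z p, p.2)) = c
  apply Complex.ext
  · simp
  · simp
    ring

/-- **TARGET** -/
theorem gm_exists {R : ℂ × ℂ → ℝ} {r L : ℝ} (hR : CR r L R) {W : ℂ × ℂ → ℂ}
    (hW : AnalyticAt ℂ W ((0 : ℂ), (0 : ℂ))) (h0 : W (0, 0) = 0)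
    (hd : deriv (fun a : ℂ => W (a, 0)) 0 ≠ 0)
    (hpos : ∀ᶠ x in 𝓝 ((0 : ℂ), (0 : ℂ)), 0 < R x → 0 < (W x).im) :
    ∃ (κ L' : ℝ) (z : ℂ × ℂ → ℂ), GM κ L' (gd R z) ∧ z (0, 0) = 0 ∧
      AnalyticAt ℂ z ((0 : ℂ), (0 : ℂ)) ∧
      (∀ p : ℂ × ℂ, ‖p.1‖ < κ → ‖p.2‖ < κ → (z p, p.2) ∈ Bo r ∧ W (z p, p.2) = p.1) ∧
      ∀ᶠ x in 𝓝 ((0 : ℂ), (0 : ℂ)), z (W x, x.2) = x.1 := by
  obtain ⟨z, hz0, hza, hzW, hzl⟩ := D13_inv_D13 hW h0 hd
  have hr := hR.r0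
  have hL1 := hR.L1
  have hL0 : 0 ≤ L := by linarith
  -- the map `p ↦ (z p, p.2)`
  have hZa : AnalyticAt ℂ (fun p : ℂ × ℂ => ((z p, p.2) : ℂ × ℂ)) ((0 : ℂ), (0 : ℂ)) :=
    hza.prod analyticAt_snd
  have hZ0 : ((z (0, 0), (((0 : ℂ), (0 : ℂ)) : ℂ × ℂ).2) : ℂ × ℂ) = ((0 : ℂ), (0 : ℂ)) := by
    rw [hz0]
  have hT : Tendsto (fun p : ℂ × ℂ => ((z p, p.2) : ℂ × ℂ)) (𝓝 ((0 : ℂ), (0 : ℂ)))
      (𝓝 ((0 : ℂ), (0 : ℂ))) := by
    have h9 := hZa.continuousAt.tendsto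
    rwa [hZ0] at h9
  have h00 : ((0 : ℂ), (0 : ℂ)) ∈ Bo r := by simp [Bo, hr]
  have hBo : Bo r ∈ 𝓝 ((0 : ℂ), (0 : ℂ)) := (D13_open_D13 r).mem_nhds h00
  -- smoothness
  have hd1C := D13_d1C_D13 hR.smooth
  have hd2C := D13_d2C_D13 hR.smooth
  have hZC : ∀ p : ℂ × ℂ, AnalyticAt ℂ z p →
      ContDiffAt ℝ 1 (fun p : ℂ × ℂ => ((z p, p.2) : ℂ × ℂ)) p := by
    intro p hp
    exact ((hp.contDiffAt (n := 1)).restrict_scalars ℝ).prodMk contDiffAt_snd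
  have hAC : ∀ p : ℂ × ℂ, AnalyticAt ℂ z p → (z p, p.2) ∈ Bo r →
      ContDiffAt ℝ 1 (fun p : ℂ × ℂ => d1 R (z p, p.2)) p := by
    intro p hp hp2
    exact ContDiffAt.comp (g := d1 R) p (hd1C.contDiffAt ((D13_open_D13 r).mem_nhds hp2)) (hZC p hp)
  have hBC : ∀ p : ℂ × ℂ, AnalyticAt ℂ z p → (z p, p.2) ∈ Bo r →
      ContDiffAt ℝ 1 (fun p : ℂ × ℂ => d2 R (z p, p.2)) p := by
    intro p hp hp2
    exact ContDiffAt.comp (g := d2 R) p (hd2C.contDiffAt ((D13_open_D13 r).mem_nhds hp2)) (hZC p hp)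
  have hRC : ∀ p : ℂ × ℂ, AnalyticAt ℂ z p → (z p, p.2) ∈ Bo r →
      ContDiffAt ℝ 1 (fun p : ℂ × ℂ => R (z p, p.2)) p := by
    intro p hp hp2
    exact ContDiffAt.comp (g := R) p ((hR.smooth.contDiffAt ((D13_open_D13 r).mem_nhds hp2)).of_le
      (by norm_num)) (hZC p hp)
  -- the estimates near the origin
  have hz2 : ContDiffAt ℂ 2 z (0, 0) := hza.contDiffAt
  obtain ⟨K1, t1, ht1, hl1⟩ :=
    (hz2.of_le (by norm_num : (1 : WithTop ℕ∞) ≤ 2)).exists_lipschitzOnWith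
  have hfz : ContDiffAt ℂ 1 (fderiv ℂ z) (0, 0) := hz2.fderiv_right (by norm_num)
  obtain ⟨K2, t2, ht2, hl2⟩ := hfz.exists_lipschitzOnWith
  obtain ⟨K3, t3, ht3, hl3⟩ := (hW.contDiffAt (n := 1)).exists_lipschitzOnWith
  have hfb : ∀ᶠ p in 𝓝 ((0 : ℂ), (0 : ℂ)), ‖fderiv ℂ z p‖ < ‖fderiv ℂ z (0, 0)‖ + 1 := by
    have hc : ContinuousAt (fun p => ‖fderiv ℂ z p‖) (0, 0) := hfz.continuousAt.norm
    have hm : Set.Iio (‖fderiv ℂ z (0, 0)‖ + 1) ∈ 𝓝 ‖fderiv ℂ z (0, 0)‖ :=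
      Iio_mem_nhds (by linarith)
    exact hc hm
  have hZ00 : (z (0, 0), (((0 : ℂ), (0 : ℂ)) : ℂ × ℂ).2) ∈ Bo r := by
    rw [hZ0]
    exact h00
  have hfA : ∀ᶠ p in 𝓝 ((0 : ℂ), (0 : ℂ)), ‖fderiv ℝ (fun p : ℂ × ℂ => d1 R (z p, p.2)) p‖ <
      ‖fderiv ℝ (fun p : ℂ × ℂ => d1 R (z p, p.2)) (0, 0)‖ + 1 := by
    have h1 := hAC (0, 0) hza hZ00
    have hc : ContinuousAt (fun p => ‖fderiv ℝ (fun p : ℂ × ℂ => d1 R (z p, p.2)) p‖) (0, 0) :=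
      (h1.fderiv_right (m := 0) (by norm_num)).continuousAt.norm
    exact hc (Iio_mem_nhds (by linarith))
  have hfB : ∀ᶠ p in 𝓝 ((0 : ℂ), (0 : ℂ)), ‖fderiv ℝ (fun p : ℂ × ℂ => d2 R (z p, p.2)) p‖ <
      ‖fderiv ℝ (fun p : ℂ × ℂ => d2 R (z p, p.2)) (0, 0)‖ + 1 := by
    have h1 := hBC (0, 0) hza hZ00
    have hc : ContinuousAt (fun p => ‖fderiv ℝ (fun p : ℂ × ℂ => d2 R (z p, p.2)) p‖) (0, 0) :=
      (h1.fderiv_right (m := 0) (by norm_num)).continuousAt.norm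
    exact hc (Iio_mem_nhds (by linarith))
  have hall : ∀ᶠ p in 𝓝 ((0 : ℂ), (0 : ℂ)), W (z p, p.2) = p.1 ∧ AnalyticAt ℂ z p ∧ p ∈ t1 ∧
      p ∈ t2 ∧ (z p, p.2) ∈ t3 ∧ (z p, p.2) ∈ Bo r ∧
      (0 < R (z p, p.2) → 0 < (W (z p, p.2)).im) ∧
      ‖fderiv ℂ z p‖ < ‖fderiv ℂ z (0, 0)‖ + 1 ∧
      ‖fderiv ℝ (fun p : ℂ × ℂ => d1 R (z p, p.2)) p‖ <
        ‖fderiv ℝ (fun p : ℂ × ℂ => d1 R (z p, p.2)) (0, 0)‖ + 1 ∧
      ‖fderiv ℝ (fun p : ℂ × ℂ => d2 R (z p, p.2)) p‖ <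
        ‖fderiv ℝ (fun p : ℂ × ℂ => d2 R (z p, p.2)) (0, 0)‖ + 1 := by
    filter_upwards [hzW, hza.eventually_analyticAt, ht1, ht2, hT.eventually ht3,
      hT.eventually hBo, hT.eventually hpos, hfb, hfA, hfB] with p a1 a2 a3 a4 a5 a6 a7 a8 a9 a10
    exact ⟨a1, a2, a3, a4, a5, a6, a7, a8, a9, a10⟩
  obtain ⟨κ0, hκ0, hball⟩ := Metric.eventually_nhds_iff_ball.1 hall
  set κ : ℝ := min κ0 1 with hκdef
  have hκpos : 0 < κ := lt_min hκ0 one_pos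
  have hB : ∀ p : ℂ × ℂ, ‖p.1‖ < κ → ‖p.2‖ < κ → W (z p, p.2) = p.1 ∧ AnalyticAt ℂ z p ∧ p ∈ t1 ∧
      p ∈ t2 ∧ (z p, p.2) ∈ t3 ∧ (z p, p.2) ∈ Bo r ∧
      (0 < R (z p, p.2) → 0 < (W (z p, p.2)).im) ∧
      ‖fderiv ℂ z p‖ < ‖fderiv ℂ z (0, 0)‖ + 1 ∧
      ‖fderiv ℝ (fun p : ℂ × ℂ => d1 R (z p, p.2)) p‖ <
        ‖fderiv ℝ (fun p : ℂ × ℂ => d1 R (z p, p.2)) (0, 0)‖ + 1 ∧
      ‖fderiv ℝ (fun p : ℂ × ℂ => d2 R (z p, p.2)) p‖ <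
        ‖fderiv ℝ (fun p : ℂ × ℂ => d2 R (z p, p.2)) (0, 0)‖ + 1 := by
    intro p h4 h5
    apply hball
    rw [mem_ball, show (((0 : ℂ), (0 : ℂ)) : ℂ × ℂ) = 0 from rfl, dist_zero_right, Prod.norm_def]
    exact max_lt (lt_of_lt_of_le h4 (min_le_left _ _)) (lt_of_lt_of_le h5 (min_le_left _ _))
  clear hall hball
  obtain ⟨L', hL'1, hLL', hLK1, hLK2, hLK3, hLf, hLA, hLB, hLK⟩ : ∃ L' : ℝ, 1 ≤ L' ∧ L ≤ L' ∧
      (K1 : ℝ) ≤ L' ∧ (K2 : ℝ) ≤ L' ∧ (K3 : ℝ) ≤ L' ∧ ‖fderiv ℂ z (0, 0)‖ + 1 ≤ L' ∧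
      ‖fderiv ℝ (fun p : ℂ × ℂ => d1 R (z p, p.2)) (0, 0)‖ + 1 ≤ L' ∧
      ‖fderiv ℝ (fun p : ℂ × ℂ => d2 R (z p, p.2)) (0, 0)‖ + 1 ≤ L' ∧
      L * ((K1 : ℝ) + 1) ≤ L' := by
    have k1 : (0 : ℝ) ≤ K1 := K1.2
    have k2 : (0 : ℝ) ≤ K2 := K2.2
    have k3 : (0 : ℝ) ≤ K3 := K3.2
    have k4 := norm_nonneg (fderiv ℂ z (0, 0))
    have k5 := norm_nonneg (fderiv ℝ (fun p : ℂ × ℂ => d1 R (z p, p.2)) (0, 0))
    have k6 := norm_nonneg (fderiv ℝ (fun p : ℂ × ℂ => d2 R (z p, p.2)) (0, 0))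
    have k7 : 0 ≤ L * ((K1 : ℝ) + 1) := by positivity
    refine ⟨L + K1 + K2 + K3 + (‖fderiv ℂ z (0, 0)‖ + 1) +
      (‖fderiv ℝ (fun p : ℂ × ℂ => d1 R (z p, p.2)) (0, 0)‖ + 1) +
      (‖fderiv ℝ (fun p : ℂ × ℂ => d2 R (z p, p.2)) (0, 0)‖ + 1) + L * ((K1 : ℝ) + 1),
      ?_, ?_, ?_, ?_, ?_, ?_, ?_, ?_, ?_⟩ <;> linarith
  have hL'0 : 0 ≤ L' := by linarith
  have hpq : ∀ p q : ℂ × ℂ, dist p q ≤ ‖p.1 - q.1‖ + ‖p.2 - q.2‖ := by
    intro p q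
    rw [dist_eq_norm, Prod.norm_def]
    exact max_le (le_add_of_nonneg_right (norm_nonneg _)) (le_add_of_nonneg_left (norm_nonneg _))
  have hlipz : ∀ p q : ℂ × ℂ, ‖p.1‖ < κ → ‖p.2‖ < κ → ‖q.1‖ < κ → ‖q.2‖ < κ →
      ‖z p - z q‖ ≤ (K1 : ℝ) * (‖p.1 - q.1‖ + ‖p.2 - q.2‖) := by
    intro p q h4 h5 h6 h7
    have h8 := hl1.dist_le_mul p (hB p h4 h5).2.2.1 q (hB q h6 h7).2.2.1
    rw [dist_eq_norm] at h8
    exact h8.trans (mul_le_mul_of_nonneg_left (hpq p q) K1.2)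
  have hlipZ : ∀ p q : ℂ × ℂ, ‖p.1‖ < κ → ‖p.2‖ < κ → ‖q.1‖ < κ → ‖q.2‖ < κ →
      ‖((z p, p.2) : ℂ × ℂ) - (z q, q.2)‖ ≤ ((K1 : ℝ) + 1) * (‖p.1 - q.1‖ + ‖p.2 - q.2‖) := by
    intro p q h4 h5 h6 h7
    have h8 := hlipz p q h4 h5 h6 h7
    have k1 : (0 : ℝ) ≤ K1 := K1.2
    have h9 := norm_nonneg (p.1 - q.1)
    have h10 := norm_nonneg (p.2 - q.2)
    have h11 : 0 ≤ (K1 : ℝ) * (‖p.1 - q.1‖ + ‖p.2 - q.2‖) := by positivity
    rw [Prod.norm_def]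
    refine max_le ?_ ?_
    · show ‖z p - z q‖ ≤ _
      linarith
    · show ‖p.2 - q.2‖ ≤ _
      linarith
  have hLmul : ∀ p q : ℂ × ℂ, ‖p.1‖ < κ → ‖p.2‖ < κ → ‖q.1‖ < κ → ‖q.2‖ < κ →
      L * ‖((z p, p.2) : ℂ × ℂ) - (z q, q.2)‖ ≤ L' * (‖p.1 - q.1‖ + ‖p.2 - q.2‖) := by
    intro p q h4 h5 h6 h7
    have h8 := mul_le_mul_of_nonneg_left (hlipZ p q h4 h5 h6 h7) hL0
    have h9 : 0 ≤ ‖p.1 - q.1‖ + ‖p.2 - q.2‖ := by positivity
    have h10 := mul_le_mul_of_nonneg_right hLK h9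
    linarith
  have hopen : IsOpen {p : ℂ × ℂ | ‖p.1‖ < κ ∧ ‖p.2‖ < κ} := D13_open_D13 κ
  have hcomp : ∀ (F : Type) [NormedAddCommGroup F] [NormedSpace ℝ F] (A : ℂ × ℂ → F),
      (∀ p : ℂ × ℂ, ‖p.1‖ < κ → ‖p.2‖ < κ → ContDiffAt ℝ 1 A p) → ∀ ζ : ℂ, ‖ζ‖ < κ →
      ContDiffOn ℝ 1 (fun η : ℂ => A (ζ, η)) (ball 0 κ) := by
    intro F _ _ A hA ζ hζ η hη
    rw [mem_ball, dist_zero_right] at hη
    have h1 : ContDiffAt ℝ 1 (fun η : ℂ => ((ζ, η) : ℂ × ℂ)) η :=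
      contDiffAt_const.prodMk contDiffAt_id
    exact (ContDiffAt.comp (g := A) η (hA (ζ, η) hζ hη) h1).contDiffWithinAt
  have hbc : ∀ (A : ℂ × ℂ → ℂ),
      (∀ p : ℂ × ℂ, ‖p.1‖ < κ → ‖p.2‖ < κ → ContDiffAt ℝ 1 A p) →
      ContinuousOn (fun p : ℂ × ℂ => dbar (fun η : ℂ => A (p.1, η)) p.2)
        {p : ℂ × ℂ | ‖p.1‖ < κ ∧ ‖p.2‖ < κ} := by
    intro A hA
    have h1 : ContinuousOn (fderiv ℝ A) {p : ℂ × ℂ | ‖p.1‖ < κ ∧ ‖p.2‖ < κ} := by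
      intro p hp
      exact ((hA p hp.1 hp.2).fderiv_right (m := 0) (by norm_num)).continuousAt.continuousWithinAt
    have h2 : ContinuousOn (fun p : ℂ × ℂ => (fderiv ℝ A p (0, 1) + Complex.I *
        fderiv ℝ A p (0, Complex.I)) / 2) {p : ℂ × ℂ | ‖p.1‖ < κ ∧ ‖p.2‖ < κ} :=
      ((h1.clm_apply continuousOn_const).add
        (continuousOn_const.mul (h1.clm_apply continuousOn_const))).div_const 2
    refine h2.congr fun p hp => ?_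
    exact D13_dbar_D13 ((hA p hp.1 hp.2).differentiableAt one_ne_zero)
  refine ⟨κ, L', z, ?_, hz0, hza, ?_, hzl⟩
  · exact {
      κ0 := hκpos
      κ1 := min_le_right _ _
      L1 := hL'1
      diff := by
        rintro p ⟨h4, h5⟩
        exact (hB p h4 h5).2.1.differentiableAt.differentiableWithinAt
      hi := by
        intro p h4 h5
        have h6 := (hB p h4 h5).2.2.2.2.2.1.1
        have h7 : ‖z p‖ < r := h6
        have h8 := hR.r1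
        show ‖z p‖ ≤ L'
        linarith
      lip := by
        intro p q h4 h5 h6 h7
        have h8 := hlipz p q h4 h5 h6 h7
        exact h8.trans (mul_le_mul_of_nonneg_right hLK1 (by positivity))
      inj := by
        intro w w' y h4 h5 h6
        have a1 := hB (w, y) h4 h6
        have a2 := hB (w', y) h5 h6
        have h8 := hl3.dist_le_mul _ a1.2.2.2.2.1 _ a2.2.2.2.2.1
        rw [a1.1, a2.1, dist_eq_norm] at h8
        have h9 : dist ((z (w, y), ((w, y) : ℂ × ℂ).2) : ℂ × ℂ)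
            (z (w', y), ((w', y) : ℂ × ℂ).2) = ‖z (w, y) - z (w', y)‖ := by
          rw [Prod.dist_eq, dist_self, dist_eq_norm]
          exact max_eq_left (norm_nonneg _)
        rw [h9] at h8
        exact le_trans h8 (mul_le_mul_of_nonneg_right hLK3 (norm_nonneg _))
      dbd := by
        intro p h4 h5
        have a := hB p h4 h5
        show ‖dz z p‖ ≤ L'
        rw [D13_dz_D13 a.2.1.differentiableAt]
        have h1 : ‖fderiv ℂ z p (0, 1)‖ ≤ ‖fderiv ℂ z p‖ * ‖((0 : ℂ), (1 : ℂ))‖ :=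
          ContinuousLinearMap.le_opNorm _ _
        have h2 : ‖fderiv ℂ z p‖ * ‖((0 : ℂ), (1 : ℂ))‖ = ‖fderiv ℂ z p‖ := by
          simp [Prod.norm_def]
        have h3 := a.2.2.2.2.2.2.2.1
        linarith
      lip2 := by
        intro p q h4 h5 h6 h7
        have a := hB p h4 h5
        have b := hB q h6 h7
        show ‖dz z p - dz z q‖ ≤ _
        rw [D13_dz_D13 a.2.1.differentiableAt, D13_dz_D13 b.2.1.differentiableAt]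
        have h8 := hl2.dist_le_mul p a.2.2.2.1 q b.2.2.2.1
        rw [dist_eq_norm] at h8
        have h9 := hpq p q
        calc ‖fderiv ℂ z p (0, 1) - fderiv ℂ z q (0, 1)‖ =
              ‖(fderiv ℂ z p - fderiv ℂ z q) (0, 1)‖ := by
              rw [sub_apply]
          _ ≤ ‖fderiv ℂ z p - fderiv ℂ z q‖ * ‖((0 : ℂ), (1 : ℂ))‖ :=
              ContinuousLinearMap.le_opNorm _ _
          _ = ‖fderiv ℂ z p - fderiv ℂ z q‖ := by simp [Prod.norm_def]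
          _ ≤ (K2 : ℝ) * dist p q := h8
          _ ≤ L' * dist p q := mul_le_mul_of_nonneg_right hLK2 dist_nonneg
          _ ≤ L' * (‖p.1 - q.1‖ + ‖p.2 - q.2‖) := mul_le_mul_of_nonneg_left h9 hL'0
      alo := by
        intro p h4 h5
        have a := hR.dlo _ (hB p h4 h5).2.2.2.2.2.1
        exact a.trans (mul_le_mul_of_nonneg_right hLL' (norm_nonneg _))
      ahi := by
        intro p h4 h5
        have a := hR.dhi _ (hB p h4 h5).2.2.2.2.2.1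
        exact (D13_bd1_D13 _ _ _ D13_n1_D13 D13_n2_D13).trans (a.trans hLL')
      bhi := by
        intro p h4 h5
        have a := hR.dhi _ (hB p h4 h5).2.2.2.2.2.1
        exact (D13_bd1_D13 _ _ _ D13_n3_D13 D13_n4_D13).trans (a.trans hLL')
      alip := by
        intro p q h4 h5 h6 h7
        have a := hR.dlip _ (hB p h4 h5).2.2.2.2.2.1 _ (hB q h6 h7).2.2.2.2.2.1
        exact (D13_d1s_D13 R _ _).trans (a.trans (hLmul p q h4 h5 h6 h7))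
      blip := by
        intro p q h4 h5 h6 h7
        have a := hR.dlip _ (hB p h4 h5).2.2.2.2.2.1 _ (hB q h6 h7).2.2.2.2.2.1
        exact (D13_d2s_D13 R _ _).trans (a.trans (hLmul p q h4 h5 h6 h7))
      rlip := by
        intro p q h4 h5 h6 h7
        have h8 := Convex.norm_image_sub_le_of_norm_fderiv_le (𝕜 := ℝ) (f := R) (C := L)
          (s := Bo r) (fun x hx => (hR.smooth.contDiffAt ((D13_open_D13 r).mem_nhds hx)).differentiableAt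
            two_ne_zero) (fun x hx => hR.dhi x hx) (D13_convex_D13 r)
          (hB q h6 h7).2.2.2.2.2.1 (hB p h4 h5).2.2.2.2.2.1
        rw [Real.norm_eq_abs] at h8
        exact h8.trans (hLmul p q h4 h5 h6 h7)
      a'hi := by
        intro p h4 h5
        have a := hB p h4 h5
        have h1 := D13_dbar_D13 ((hAC p a.2.1 a.2.2.2.2.2.1).differentiableAt one_ne_zero)
        have h2 : ‖dbar (fun η : ℂ => d1 R (z (p.1, η), η)) p.2‖ ≤ L' := by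
          have h3 : dbar (fun η : ℂ => d1 R (z (p.1, η), η)) p.2 = _ := h1
          rw [h3]
          exact (D13_bd_D13 _).trans (a.2.2.2.2.2.2.2.2.1.le.trans hLA)
        exact h2
      b'hi := by
        intro p h4 h5
        have a := hB p h4 h5
        have h1 := D13_dbar_D13 ((hBC p a.2.1 a.2.2.2.2.2.1).differentiableAt one_ne_zero)
        have h2 : ‖dbar (fun η : ℂ => d2 R (z (p.1, η), η)) p.2‖ ≤ L' := by
          have h3 : dbar (fun η : ℂ => d2 R (z (p.1, η), η)) p.2 = _ := h1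
          rw [h3]
          exact (D13_bd_D13 _).trans (a.2.2.2.2.2.2.2.2.2.le.trans hLB)
        exact h2
      a'c := hbc (fun p : ℂ × ℂ => d1 R (z p, p.2))
        (fun p h4 h5 => hAC p (hB p h4 h5).2.1 (hB p h4 h5).2.2.2.2.2.1)
      b'c := hbc (fun p : ℂ × ℂ => d2 R (z p, p.2))
        (fun p h4 h5 => hBC p (hB p h4 h5).2.1 (hB p h4 h5).2.2.2.2.2.1)
      rC := hcomp ℝ (fun p : ℂ × ℂ => R (z p, p.2))
        (fun p h4 h5 => hRC p (hB p h4 h5).2.1 (hB p h4 h5).2.2.2.2.2.1)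
      aC := hcomp ℂ (fun p : ℂ × ℂ => d1 R (z p, p.2))
        (fun p h4 h5 => hAC p (hB p h4 h5).2.1 (hB p h4 h5).2.2.2.2.2.1)
      bC := hcomp ℂ (fun p : ℂ × ℂ => d2 R (z p, p.2))
        (fun p h4 h5 => hBC p (hB p h4 h5).2.1 (hB p h4 h5).2.2.2.2.2.1)
      rd := by
        intro p h4 h5
        have a := hB p h4 h5
        exact D13_rd_D13 a.2.1.differentiableAt
          ((hR.smooth.contDiffAt ((D13_open_D13 r).mem_nhds a.2.2.2.2.2.1)).differentiableAt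
            two_ne_zero)
      ad := fun p _ _ => rfl
      bd := fun p _ _ => rfl
      cvx := by
        intro s p h4 h5 h6 h7
        have a := hR.conc _ (hB s h4 h5).2.2.2.2.2.1 _ (hB p h6 h7).2.2.2.2.2.1
        rw [D13_fd_D13] at a
        have h1 : (Ph (gd R z) s p).re = R (z s, s.2) +
            (d1 R (z s, s.2) * (z p - z s) + d2 R (z s, s.2) * (p.2 - s.2)).re := by
          have h2 : Ph (gd R z) s p = ((R (z s, s.2) : ℝ) : ℂ) + d1 R (z s, s.2) * (z p - z s) +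
            d2 R (z s, s.2) * (p.2 - s.2) := rfl
          rw [h2, add_assoc, Complex.add_re, Complex.ofReal_re]
        rw [h1]
        have h3 : (((z p, p.2) : ℂ × ℂ) - (z s, s.2)).1 = z p - z s := rfl
        have h4 : (((z p, p.2) : ℂ × ℂ) - (z s, s.2)).2 = p.2 - s.2 := rfl
        rw [h3, h4] at a
        show R (z s, s.2) + R (z p, p.2) + ‖z p - z s‖ ^ 2 + ‖p.2 - s.2‖ ^ 2 ≤ _
        have a' : R (z p, p.2) ≤ R (z s, s.2) + 2 * (d1 R (z s, s.2) * (z p - z s) +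
            d2 R (z s, s.2) * (p.2 - s.2)).re - (‖z p - z s‖ ^ 2 + ‖p.2 - s.2‖ ^ 2) := a
        linarith
      im := by
        intro p h4 h5 h6
        have a := hB p h4 h5
        have h7 := a.2.2.2.2.2.2.1 h6
        rw [a.1] at h7
        exact h7 }
  · intro p h4 h5
    have a := hB p h4 h5
    exact ⟨a.2.2.2.2.2.1, a.1⟩

end Pool.Agent.P157D
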