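import Mathlib
import Pool.Agent.P157C.SFx
import Pool.Agent.P157D.Defs

set_option autoImplicit false

open MeasureTheory Metric Set Filter Topology Complex

namespace Pool.Agent.P157D

open Pool.Agent.P157C (dz qq dbar Cut ExtP)

theorem D12_gm_D12 {κ L κ' L' : ℝ} {g : GD} (h : GM κ L g) (h0 : 0 < κ') (h1 : κ' ≤ κ)
    (h2 : L ≤ L') : GM κ' L' g where
  κ0 := h0
  κ1 := h1.trans h.κ1
  L1 := h.L1.trans h2
  diff := h.diff.mono (fun _ hp => ⟨lt_of_lt_of_le hp.1 h1, lt_of_lt_of_le hp.2 h1⟩)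
  hi := fun p hp1 hp2 => (h.hi p (lt_of_lt_of_le hp1 h1) (lt_of_lt_of_le hp2 h1)).trans h2
  lip := fun p q hp1 hp2 hq1 hq2 =>
    (h.lip p q (lt_of_lt_of_le hp1 h1) (lt_of_lt_of_le hp2 h1) (lt_of_lt_of_le hq1 h1)
      (lt_of_lt_of_le hq2 h1)).trans (mul_le_mul_of_nonneg_right h2 (by positivity))
  inj := fun w w' y hw hw' hy =>
    (h.inj w w' y (lt_of_lt_of_le hw h1) (lt_of_lt_of_le hw' h1)
      (lt_of_lt_of_le hy h1)).trans (mul_le_mul_of_nonneg_right h2 (by positivity))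
  dbd := fun p hp1 hp2 => (h.dbd p (lt_of_lt_of_le hp1 h1) (lt_of_lt_of_le hp2 h1)).trans h2
  lip2 := fun p q hp1 hp2 hq1 hq2 =>
    (h.lip2 p q (lt_of_lt_of_le hp1 h1) (lt_of_lt_of_le hp2 h1) (lt_of_lt_of_le hq1 h1)
      (lt_of_lt_of_le hq2 h1)).trans (mul_le_mul_of_nonneg_right h2 (by positivity))
  alo := fun p hp1 hp2 =>
    (h.alo p (lt_of_lt_of_le hp1 h1) (lt_of_lt_of_le hp2 h1)).trans
      (mul_le_mul_of_nonneg_right h2 (norm_nonneg _))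
  ahi := fun p hp1 hp2 => (h.ahi p (lt_of_lt_of_le hp1 h1) (lt_of_lt_of_le hp2 h1)).trans h2
  bhi := fun p hp1 hp2 => (h.bhi p (lt_of_lt_of_le hp1 h1) (lt_of_lt_of_le hp2 h1)).trans h2
  alip := fun p q hp1 hp2 hq1 hq2 =>
    (h.alip p q (lt_of_lt_of_le hp1 h1) (lt_of_lt_of_le hp2 h1) (lt_of_lt_of_le hq1 h1)
      (lt_of_lt_of_le hq2 h1)).trans (mul_le_mul_of_nonneg_right h2 (by positivity))
  blip := fun p q hp1 hp2 hq1 hq2 =>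
    (h.blip p q (lt_of_lt_of_le hp1 h1) (lt_of_lt_of_le hp2 h1) (lt_of_lt_of_le hq1 h1)
      (lt_of_lt_of_le hq2 h1)).trans (mul_le_mul_of_nonneg_right h2 (by positivity))
  rlip := fun p q hp1 hp2 hq1 hq2 =>
    (h.rlip p q (lt_of_lt_of_le hp1 h1) (lt_of_lt_of_le hp2 h1) (lt_of_lt_of_le hq1 h1)
      (lt_of_lt_of_le hq2 h1)).trans (mul_le_mul_of_nonneg_right h2 (by positivity))
  a'hi := fun p hp1 hp2 => (h.a'hi p (lt_of_lt_of_le hp1 h1) (lt_of_lt_of_le hp2 h1)).trans h2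
  b'hi := fun p hp1 hp2 => (h.b'hi p (lt_of_lt_of_le hp1 h1) (lt_of_lt_of_le hp2 h1)).trans h2
  a'c := h.a'c.mono (fun _ hp => ⟨lt_of_lt_of_le hp.1 h1, lt_of_lt_of_le hp.2 h1⟩)
  b'c := h.b'c.mono (fun _ hp => ⟨lt_of_lt_of_le hp.1 h1, lt_of_lt_of_le hp.2 h1⟩)
  rC := fun ζ hζ => (h.rC ζ (lt_of_lt_of_le hζ h1)).mono (ball_subset_ball h1)
  aC := fun ζ hζ => (h.aC ζ (lt_of_lt_of_le hζ h1)).mono (ball_subset_ball h1)
  bC := fun ζ hζ => (h.bC ζ (lt_of_lt_of_le hζ h1)).mono (ball_subset_ball h1)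
  rd := fun p hp1 hp2 => h.rd p (lt_of_lt_of_le hp1 h1) (lt_of_lt_of_le hp2 h1)
  ad := fun p hp1 hp2 => h.ad p (lt_of_lt_of_le hp1 h1) (lt_of_lt_of_le hp2 h1)
  bd := fun p hp1 hp2 => h.bd p (lt_of_lt_of_le hp1 h1) (lt_of_lt_of_le hp2 h1)
  cvx := fun s p hs1 hs2 hp1 hp2 => h.cvx s p (lt_of_lt_of_le hs1 h1) (lt_of_lt_of_le hs2 h1)
    (lt_of_lt_of_le hp1 h1) (lt_of_lt_of_le hp2 h1)
  im := fun p hp1 hp2 => h.im p (lt_of_lt_of_le hp1 h1) (lt_of_lt_of_le hp2 h1)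

/-- **TARGET** -/
theorem sf_exists {κ L c : ℝ} {g : GD} {F : ℂ × ℂ → ℂ} (h : GM κ L g)
    (hF : AnalyticAt ℂ F ((0 : ℂ), (0 : ℂ))) (hc : 0 < c)
    (hpos : ∀ᶠ p in 𝓝 ((0 : ℂ), (0 : ℂ)), 0 < rho g p → rho g p ≤ c * (F p).im) :
    ∃ κ₀ L₀ : ℝ, 0 < κ₀ ∧ κ₀ ≤ κ ∧ L ≤ L₀ ∧ ∀ κ' L' : ℝ, 0 < κ' → κ' ≤ κ₀ → L₀ ≤ L' →
      GM κ' L' g ∧ SF κ' L' g F := by
  have hG : AnalyticAt ℂ (fun p : ℂ × ℂ => fderiv ℂ F p ((0 : ℂ), (1 : ℂ))) ((0 : ℂ), (0 : ℂ)) :=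
    ((ContinuousLinearMap.apply ℂ ℂ ((0 : ℂ), (1 : ℂ))).analyticAt _).comp
      (AnalyticAt.fderiv hF)
  set G : ℂ × ℂ → ℂ := fun p : ℂ × ℂ => fderiv ℂ F p ((0 : ℂ), (1 : ℂ)) with hGd
  obtain ⟨K1, t1, ht1, hl1⟩ := (hF.contDiffAt (n := 1)).exists_lipschitzOnWith
  obtain ⟨K2, t2, ht2, hl2⟩ := (hG.contDiffAt (n := 1)).exists_lipschitzOnWith
  obtain ⟨κa, La, hκa, hLa, harea⟩ := Pool.Agent.P157C.area_le hF
  have hbF : ∀ᶠ p in 𝓝 ((0 : ℂ), (0 : ℂ)), ‖F p‖ < ‖F ((0 : ℂ), (0 : ℂ))‖ + 1 :=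
    hF.continuousAt.norm.eventually (Iio_mem_nhds (by linarith))
  have hbG : ∀ᶠ p in 𝓝 ((0 : ℂ), (0 : ℂ)), ‖G p‖ < ‖G ((0 : ℂ), (0 : ℂ))‖ + 1 :=
    hG.continuousAt.norm.eventually (Iio_mem_nhds (by linarith))
  have hev := (hF.eventually_analyticAt.and (hbF.and (hbG.and
    ((show ∀ᶠ p in 𝓝 ((0 : ℂ), (0 : ℂ)), p ∈ t1 from ht1).and
      ((show ∀ᶠ p in 𝓝 ((0 : ℂ), (0 : ℂ)), p ∈ t2 from ht2).and hpos)))))
  obtain ⟨r, hr, hball⟩ := Metric.eventually_nhds_iff.mp hev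
  have hκ0 := h.κ0
  have hL1 := h.L1
  set MF := ‖F ((0 : ℂ), (0 : ℂ))‖ with hMF
  set MG := ‖G ((0 : ℂ), (0 : ℂ))‖ with hMG
  have hMF0 : 0 ≤ MF := norm_nonneg _
  have hMG0 : 0 ≤ MG := norm_nonneg _
  have hK1 : (0 : ℝ) ≤ K1 := K1.2
  have hK2 : (0 : ℝ) ≤ K2 := K2.2
  refine ⟨min κ (min r κa), L + c + K1 + K2 + (MF + 1) + (MG + 1) + La,
    lt_min hκ0 (lt_min hr hκa), min_le_left _ _, by linarith, ?_⟩
  intro κ' L' hκ' hκ'0 hL'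
  have hκ'1 : κ' ≤ κ := hκ'0.trans (min_le_left _ _)
  have hκ'2 : κ' ≤ r := hκ'0.trans ((min_le_right _ _).trans (min_le_left _ _))
  have hκ'3 : κ' ≤ κa := hκ'0.trans ((min_le_right _ _).trans (min_le_right _ _))
  have hb : ∀ p : ℂ × ℂ, ‖p.1‖ < κ' → ‖p.2‖ < κ' → dist p ((0 : ℂ), (0 : ℂ)) < r := by
    intro p h1 h2
    rw [Prod.dist_eq, dist_zero_right, dist_zero_right]
    exact lt_of_lt_of_le (max_lt h1 h2) hκ'2
  have hdz : ∀ p : ℂ × ℂ, ‖p.1‖ < κ' → ‖p.2‖ < κ' → dz F p = G p := by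
    intro p h1 h2
    exact Pool.Agent.P157C.u7c_dz_U7c (hball (hb p h1 h2)).1.differentiableAt
  refine ⟨D12_gm_D12 h hκ' hκ'1 (by linarith), ?_⟩
  constructor
  · intro p hp
    exact (hball (hb p hp.1 hp.2)).1.differentiableAt.differentiableWithinAt
  · intro p h1 h2
    have := (hball (hb p h1 h2)).2.1
    linarith
  · intro p q h1 h2 h3 h4
    refine (Pool.Agent.P157C.u7c_lip_U7c hl1 (hball (hb p h1 h2)).2.2.2.1 (hball (hb q h3 h4)).2.2.2.1).trans ?_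
    exact mul_le_mul_of_nonneg_right (by linarith) (by positivity)
  · intro p h1 h2
    rw [hdz p h1 h2]
    have := (hball (hb p h1 h2)).2.2.1
    linarith
  · intro p q h1 h2 h3 h4
    rw [hdz p h1 h2, hdz q h3 h4]
    refine (Pool.Agent.P157C.u7c_lip_U7c hl2 (hball (hb p h1 h2)).2.2.2.2.1 (hball (hb q h3 h4)).2.2.2.2.1).trans ?_
    exact mul_le_mul_of_nonneg_right (by linarith) (by positivity)
  · intro p h1 h2 h3
    have h4 := (hball (hb p h1 h2)).2.2.2.2.2 h3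
    have h5 : 0 < (F p).im := by
      by_contra hcon
      push Not at hcon
      have : c * (F p).im ≤ 0 := mul_nonpos_of_nonneg_of_nonpos hc.le hcon
      linarith
    exact h4.trans (mul_le_mul_of_nonneg_right (by linarith) h5.le)
  · intro ζ b hh hζ hhh
    refine le_trans (lintegral_mono_set ?_) ((harea ζ b hh (lt_of_lt_of_le hζ hκ'3) hhh).trans ?_)
    · intro η hη
      exact ⟨by have := hη.1; linarith, hη.2⟩
    · apply ENNReal.ofReal_le_ofReal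
      exact mul_le_mul_of_nonneg_right (by linarith) (by positivity)

end Pool.Agent.P157D
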