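import Mathlib
import Pool.Agent.P157C.LCx
import Pool.Agent.P157D.GMx
import Pool.Agent.P157D.SFx

set_option autoImplicit false

open MeasureTheory Metric Set Filter Topology Complex

namespace Pool.Agent.P157D

open Pool.Agent.P157C (dz qq dbar Cut ExtP)

theorem D13b_fd_D13b (D : ℂ × ℂ →L[ℝ] ℝ) (v : ℂ) :
    D (v, 0) = v.re * D (1, 0) + v.im * D (Complex.I, 0) := by
  have h : ((v, 0) : ℂ × ℂ) = v.re • ((1 : ℂ), (0 : ℂ)) + v.im • ((Complex.I : ℂ), (0 : ℂ)) := by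
    refine Prod.ext ?_ ?_
    · simp only [Prod.fst_add, Prod.smul_fst, real_smul, mul_one]
      exact (Complex.re_add_im v).symm
    · simp
  rw [h, map_add, map_smul, map_smul, smul_eq_mul, smul_eq_mul]

theorem D13b_neg_D13b {f : ℝ → ℝ} {f' : ℝ} (hf : HasDerivAt f f' 0) (h0 : f 0 = 0) (hf' : f' < 0) :
    ∀ᶠ t in 𝓝[>] (0 : ℝ), f t < 0 := by
  have h1 := (hasDerivAt_iff_tendsto_slope_zero.1 hf).mono_left
    (nhdsWithin_mono (0 : ℝ) (fun x (hx : x ∈ Set.Ioi (0 : ℝ)) => (ne_of_gt hx : x ≠ 0)))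
  have h2 := h1.eventually (Iio_mem_nhds hf')
  filter_upwards [h2, self_mem_nhdsWithin] with t ht ht0
  have ht0' : (0 : ℝ) < t := ht0
  have ht1 : t⁻¹ • (f (0 + t) - f 0) < 0 := ht
  rw [h0, zero_add, sub_zero, smul_eq_mul] at ht1
  have h3 : f t = t * (t⁻¹ * f t) := by
    field_simp
  rw [h3]
  exact mul_neg_of_pos_of_neg ht0' ht1

/-- **TARGET** -/
theorem hopfR {R : ℂ × ℂ → ℝ} (hR : ContDiffAt ℝ 1 R ((0 : ℂ), (0 : ℂ))) (hR0 : R (0, 0) = 0)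
    (hd : d1 R (0, 0) ≠ 0) {c : ℝ} (hc : 0 < c) {W : ℂ × ℂ → ℂ}
    (hW : AnalyticAt ℂ W ((0 : ℂ), (0 : ℂ))) (h0 : W (0, 0) = 0)
    (hpos : ∀ᶠ x in 𝓝 ((0 : ℂ), (0 : ℂ)), 0 < R x → R x ≤ c * (W x).im) :
    deriv (fun a : ℂ => W (a, 0)) 0 ≠ 0 := by
  intro hd0
  obtain ⟨A, hA⟩ : ∃ A : ℝ, A = fderiv ℝ R (0, 0) (1, 0) := ⟨_, rfl⟩
  obtain ⟨B, hB⟩ : ∃ B : ℝ, B = fderiv ℝ R (0, 0) (Complex.I, 0) := ⟨_, rfl⟩
  have hd1 : d1 R (0, 0) = ((A : ℂ) - Complex.I * (B : ℂ)) / 2 := by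
    rw [hA, hB]
    rfl
  obtain ⟨v, hv⟩ : ∃ v : ℂ, v = ⟨A, B⟩ := ⟨_, rfl⟩
  have hAB : 0 < A * A + B * B := by
    rcases eq_or_ne A 0 with h | h
    · rcases eq_or_ne B 0 with h' | h'
      · exfalso
        apply hd
        rw [hd1, h, h']
        simp
      · have := mul_self_pos.2 h'
        have := mul_self_nonneg A
        linarith
    · have := mul_self_pos.2 h
      have := mul_self_nonneg B
      linarith
  have hline : HasDerivAt (fun t : ℝ => (((t : ℂ) * v, 0) : ℂ × ℂ)) ((v, 0) : ℂ × ℂ) 0 := by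
    have h1 : HasDerivAt (fun t : ℝ => (t : ℂ) * v) (1 * v) 0 :=
      (Complex.ofRealCLM.hasDerivAt (x := (0 : ℝ))).mul_const v
    rw [one_mul] at h1
    exact h1.prodMk (hasDerivAt_const (0 : ℝ) (0 : ℂ))
  have hl0 : (fun t : ℝ => (((t : ℂ) * v, 0) : ℂ × ℂ)) 0 = (0, 0) := by simp
  have hRd : HasFDerivAt R (fderiv ℝ R (0, 0)) (0, 0) :=
    (hR.differentiableAt one_ne_zero).hasFDerivAt
  have hφ : HasDerivAt (fun t : ℝ => R ((t : ℂ) * v, 0)) (A * A + B * B) 0 := by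
    have h1 : HasFDerivAt R (fderiv ℝ R (0, 0)) ((fun t : ℝ => (((t : ℂ) * v, 0) : ℂ × ℂ)) 0) := by
      rw [hl0]
      exact hRd
    have h2 := h1.comp_hasDerivAt (0 : ℝ) hline
    have e : fderiv ℝ R (0, 0) (v, 0) = A * A + B * B := by
      rw [D13b_fd_D13b, ← hA, ← hB, hv]
    rw [e] at h2
    exact h2
  have hWl : HasDerivAt (fun t : ℝ => W ((t : ℂ) * v, 0)) 0 0 := by
    have hlin : AnalyticAt ℂ (fun a : ℂ => ((a, 0) : ℂ × ℂ)) 0 := analyticAt_id.prod analyticAt_const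
    have h1 : AnalyticAt ℂ (fun a : ℂ => W (a, 0)) 0 :=
      AnalyticAt.fun_comp (f := fun a : ℂ => ((a, 0) : ℂ × ℂ)) (g := W) (x := 0) hW hlin
    have h2 : HasDerivAt (fun a : ℂ => W (a, 0)) 0 (0 : ℂ) := by
      have := h1.differentiableAt.hasDerivAt
      rwa [hd0] at this
    have h3 : HasDerivAt (fun t : ℝ => (t : ℂ) * v) (1 * v) 0 :=
      (Complex.ofRealCLM.hasDerivAt (x := (0 : ℝ))).mul_const v
    have h4 : HasDerivAt (fun a : ℂ => W (a, 0)) 0 ((fun t : ℝ => (t : ℂ) * v) 0) := by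
      have e : (fun t : ℝ => (t : ℂ) * v) 0 = 0 := by simp
      rw [e]
      exact h2
    have h5 := h4.comp (0 : ℝ) h3
    rw [zero_mul] at h5
    exact h5
  have hψ : HasDerivAt (fun t : ℝ => c * (W ((t : ℂ) * v, 0)).im) 0 0 := by
    have h1 : HasDerivAt (fun t : ℝ => (W ((t : ℂ) * v, 0)).im) 0 0 := by
      have h2 := (Complex.imCLM.hasFDerivAt (x := W (((0 : ℝ) : ℂ) * v, 0))).comp_hasDerivAt (0 : ℝ) hWl
      rw [map_zero] at h2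
      exact h2
    have h2 := h1.const_mul c
    rw [mul_zero] at h2
    exact h2
  have hdiff := hψ.sub hφ
  have e1 : ∀ᶠ t : ℝ in 𝓝[>] (0 : ℝ), c * (W ((t : ℂ) * v, 0)).im - R ((t : ℂ) * v, 0) < 0 := by
    refine D13b_neg_D13b hdiff ?_ (by linarith)
    simp [h0, hR0]
  have e2 : ∀ᶠ t : ℝ in 𝓝[>] (0 : ℝ), -R ((t : ℂ) * v, 0) < 0 := by
    refine D13b_neg_D13b hφ.neg ?_ (by linarith)
    simp [hR0]
  have hct : Tendsto (fun t : ℝ => (((t : ℂ) * v, 0) : ℂ × ℂ)) (𝓝[>] (0 : ℝ)) (𝓝 ((0 : ℂ), (0 : ℂ))) := by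
    have h1 : Tendsto (fun t : ℝ => (((t : ℂ) * v, 0) : ℂ × ℂ)) (𝓝 (0 : ℝ))
        (𝓝 ((fun t : ℝ => (((t : ℂ) * v, 0) : ℂ × ℂ)) 0)) := hline.continuousAt.tendsto
    rw [hl0] at h1
    exact h1.mono_left nhdsWithin_le_nhds
  have e3 := hct.eventually hpos
  obtain ⟨t, h1, h2, h3⟩ := (e1.and (e2.and e3)).exists
  have := h3 (by linarith)
  linarith

theorem D13b_cr_D13b {r₀ L₀ r L : ℝ} {R : ℂ × ℂ → ℝ} (h : CR r₀ L₀ R) (hr : 0 < r) (hr1 : r ≤ r₀)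
    (hL : L₀ ≤ L) : CR r L R := by
  have hs : Bo r ⊆ Bo r₀ := fun x hx => ⟨lt_of_lt_of_le hx.1 hr1, lt_of_lt_of_le hx.2 hr1⟩
  refine ⟨hr, hr1.trans h.r1, h.L1.trans hL, h.smooth.mono hs, ?_, ?_, ?_, ?_⟩
  · intro x hx
    exact (h.dlo x (hs hx)).trans (mul_le_mul_of_nonneg_right hL (norm_nonneg _))
  · intro x hx
    exact (h.dhi x (hs hx)).trans hL
  · intro x hx y hy
    exact (h.dlip x (hs hx) y (hs hy)).trans (mul_le_mul_of_nonneg_right hL (norm_nonneg _))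
  · intro x hx y hy
    exact h.conc x (hs hx) y (hs hy)

theorem D13b_bo_D13b {r : ℝ} (hr : 0 < r) : ∀ᶠ x in 𝓝 ((0 : ℂ), (0 : ℂ)), x ∈ Bo r := by
  rw [Metric.eventually_nhds_iff_ball]
  refine ⟨r, hr, fun x hx => ?_⟩
  rw [mem_ball, Prod.dist_eq, dist_zero_right, dist_zero_right] at hx
  exact ⟨lt_of_le_of_lt (le_max_left _ _) hx, lt_of_le_of_lt (le_max_right _ _) hx⟩

/-- **TARGET** -/
theorem lc_exists {K : ℕ} {R : ℂ × ℂ → ℝ} {r₀ L₀ : ℝ} (hR : CR r₀ L₀ R) (hR0 : R (0, 0) = 0)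
    (W : Fin K → ℂ × ℂ → ℂ) (hW : ∀ k, AnalyticAt ℂ (W k) ((0 : ℂ), (0 : ℂ)))
    (h0 : ∀ k, W k (0, 0) = 0) {c : ℝ} (hc : 0 < c)
    (hpos : ∀ k, ∀ᶠ x in 𝓝 ((0 : ℂ), (0 : ℂ)), 0 < R x → R x ≤ c * (W k x).im)
    {ρ : ℝ} (hρ : 0 < ρ) :
    ∃ (r κ L : ℝ) (z : Fin K → ℂ × ℂ → ℂ), 0 < r ∧ r ≤ ρ ∧ 0 < κ ∧ κ ≤ 1 ∧ 1 ≤ L ∧
      LC r κ L 0 R W z := by
  classical
  have him : ∀ {b t : ℝ}, 0 < b → b ≤ c * t → 0 < t := by
    intro b t h1 h2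
    have h3 : 0 < c * t := lt_of_lt_of_le h1 h2
    exact (pos_iff_pos_of_mul_pos h3).1 hc
  have hmem0 : (((0 : ℂ), (0 : ℂ)) : ℂ × ℂ) ∈ Bo r₀ := by
    refine ⟨?_, ?_⟩
    · show ‖(0 : ℂ)‖ < r₀
      rw [norm_zero]
      exact hR.r0
    · show ‖(0 : ℂ)‖ < r₀
      rw [norm_zero]
      exact hR.r0
  have hRs : ContDiffAt ℝ 1 R ((0 : ℂ), (0 : ℂ)) := by
    have h1 : ContDiffAt ℝ 2 R ((0 : ℂ), (0 : ℂ)) := hR.smooth.contDiffAt (D13b_bo_D13b hR.r0)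
    exact h1.of_le (by norm_num)
  have hRd : d1 R (0, 0) ≠ 0 := by
    intro h
    have h1 := hR.dlo _ hmem0
    rw [h, norm_zero, mul_zero] at h1
    linarith
  have hd : ∀ k, deriv (fun a : ℂ => W k (a, 0)) 0 ≠ 0 := fun k =>
    hopfR hRs hR0 hRd hc (hW k) (h0 k) (hpos k)
  have hpos' : ∀ k, ∀ᶠ x in 𝓝 ((0 : ℂ), (0 : ℂ)), 0 < R x → 0 < (W k x).im := by
    intro k
    filter_upwards [hpos k] with x hx h1
    exact him h1 (hx h1)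
  have hco : ∀ k, ∃ (κ L' : ℝ) (z : ℂ × ℂ → ℂ), GM κ L' (gd R z) ∧ z (0, 0) = 0 ∧
      AnalyticAt ℂ z ((0 : ℂ), (0 : ℂ)) ∧
      (∀ p : ℂ × ℂ, ‖p.1‖ < κ → ‖p.2‖ < κ → (z p, p.2) ∈ Bo r₀ ∧ W k (z p, p.2) = p.1) ∧
      ∀ᶠ x in 𝓝 ((0 : ℂ), (0 : ℂ)), z (W k x, x.2) = x.1 := fun k =>
    gm_exists hR (hW k) (h0 k) (hd k) (hpos' k)
  choose κ1 L1 z hlm hz0 hzan hzO hzl using hco
  have hlipk : ∀ k, ∃ (C : NNReal), ∃ t ∈ 𝓝 ((0 : ℂ), (0 : ℂ)), LipschitzOnWith C (W k) t := by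
    intro k
    exact ((hW k).contDiffAt (n := 1)).exists_lipschitzOnWith
  choose C t ht hlip using hlipk
  have hgood : ∀ᶠ x in 𝓝 ((0 : ℂ), (0 : ℂ)), ∀ k, DifferentiableAt ℂ (W k) x ∧
      (0 < R x → R x ≤ c * (W k x).im) ∧ z k (W k x, x.2) = x.1 ∧ x ∈ t k := by
    refine eventually_all.2 (fun k => ?_)
    filter_upwards [(hW k).eventually_analyticAt, hpos k, hzl k, ht k] with x h1 h2 h3 h4
    exact ⟨h1.differentiableAt, h2, h3, h4⟩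
  obtain ⟨r', hr', hball⟩ := Metric.eventually_nhds_iff_ball.1 hgood
  obtain ⟨r, hrdef⟩ : ∃ r : ℝ, r = min r' (min ρ r₀) := ⟨_, rfl⟩
  have hr : 0 < r := by
    rw [hrdef]
    exact lt_min hr' (lt_min hρ hR.r0)
  have hrr' : r ≤ r' := by
    rw [hrdef]
    exact min_le_left _ _
  have hrρ : r ≤ ρ := by
    rw [hrdef]
    exact (min_le_right _ _).trans (min_le_left _ _)
  have hrr0 : r ≤ r₀ := by
    rw [hrdef]
    exact (min_le_right _ _).trans (min_le_right _ _)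
  have hB : ∀ x ∈ Bo r, ∀ k, DifferentiableAt ℂ (W k) x ∧
      (0 < R x → R x ≤ c * (W k x).im) ∧ z k (W k x, x.2) = x.1 ∧ x ∈ t k := by
    rintro x ⟨hx1, hx2⟩
    apply hball
    rw [mem_ball, Prod.dist_eq, dist_zero_right, dist_zero_right]
    exact max_lt (lt_of_lt_of_le hx1 hrr') (lt_of_lt_of_le hx2 hrr')
  have hZa : ∀ j, AnalyticAt ℂ (fun p : ℂ × ℂ => ((z j p, p.2) : ℂ × ℂ)) ((0 : ℂ), (0 : ℂ)) :=
    fun j => (hzan j).prod analyticAt_snd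
  have hZ0 : ∀ j, ((z j (0, 0), (((0 : ℂ), (0 : ℂ)) : ℂ × ℂ).2) : ℂ × ℂ) = ((0 : ℂ), (0 : ℂ)) := by
    intro j
    rw [hz0 j]
  have hT : ∀ j, Tendsto (fun p : ℂ × ℂ => ((z j p, p.2) : ℂ × ℂ)) (𝓝 ((0 : ℂ), (0 : ℂ)))
      (𝓝 ((0 : ℂ), (0 : ℂ))) := by
    intro j
    have h9 := ((hzan j).continuousAt.prodMk continuousAt_snd).tendsto
    rwa [hZ0 j] at h9
  have hsf : ∀ j k, ∃ κ₀ L₀ : ℝ, 0 < κ₀ ∧ κ₀ ≤ κ1 j ∧ L1 j ≤ L₀ ∧ ∀ κ' L' : ℝ, 0 < κ' →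
      κ' ≤ κ₀ → L₀ ≤ L' →
      GM κ' L' (gd R (z j)) ∧ SF κ' L' (gd R (z j)) (fun p => W k (z j p, p.2)) := by
    intro j k
    refine sf_exists (hlm j) ?_ hc ?_
    · refine AnalyticAt.fun_comp (f := fun p : ℂ × ℂ => ((z j p, p.2) : ℂ × ℂ)) (g := W k)
        (x := ((0 : ℂ), (0 : ℂ))) ?_ (hZa j)
      show AnalyticAt ℂ (W k) (z j (0, 0), (((0 : ℂ), (0 : ℂ)) : ℂ × ℂ).2)
      rw [hZ0 j]
      exact hW k
    · exact (hT j).eventually (hpos k)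
  choose κ0 L0 hκ0 hκ01 hL01 hsf using hsf
  have hκz : ∀ j, ∃ κ2 : ℝ, 0 < κ2 ∧ ∀ p : ℂ × ℂ, ‖p.1‖ < κ2 → ‖p.2‖ < κ2 → (z j p, p.2) ∈ Bo r := by
    intro j
    obtain ⟨κ2, hκ2, hb⟩ := Metric.eventually_nhds_iff_ball.1 ((hT j).eventually (D13b_bo_D13b hr))
    refine ⟨κ2, hκ2, fun p h3 h4 => hb p ?_⟩
    rw [mem_ball, Prod.dist_eq, dist_zero_right, dist_zero_right]
    exact max_lt h3 h4
  choose κ2 hκ2 hκz using hκz
  have hev : ∀ {a : ℝ}, 0 < a → ∀ᶠ s in 𝓝[>] (0 : ℝ), s ≤ a := by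
    intro a ha
    have : Set.Iic a ∈ 𝓝 (0 : ℝ) := Iic_mem_nhds ha
    exact mem_nhdsWithin_of_mem_nhds this
  have hκex : ∀ᶠ s in 𝓝[>] (0 : ℝ), 0 < s ∧ s ≤ 1 ∧ (∀ j, s ≤ κ2 j) ∧ ∀ j k, s ≤ κ0 j k := by
    have e1 : ∀ᶠ s in 𝓝[>] (0 : ℝ), 0 < s := self_mem_nhdsWithin
    have e2 : ∀ᶠ s in 𝓝[>] (0 : ℝ), ∀ j, s ≤ κ2 j := eventually_all.2 (fun j => hev (hκ2 j))
    have e3 : ∀ᶠ s in 𝓝[>] (0 : ℝ), ∀ j k, s ≤ κ0 j k :=
      eventually_all.2 (fun j => eventually_all.2 (fun k => hev (hκ0 j k)))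
    filter_upwards [e1, hev one_pos, e2, e3] with s h1 h2 h3 h4
    exact ⟨h1, h2, h3, h4⟩
  obtain ⟨κ, hκ, hκ1, hκ2', hκ0'⟩ := hκex.exists
  have hLex : ∀ᶠ s in (atTop : Filter ℝ), 1 ≤ s ∧ c ≤ s ∧ L₀ ≤ s ∧ (∀ k, (C k : ℝ) ≤ s) ∧
      ∀ j k, L0 j k ≤ s := by
    have e2 : ∀ᶠ s in (atTop : Filter ℝ), ∀ k, (C k : ℝ) ≤ s :=
      eventually_all.2 (fun j => eventually_ge_atTop _)
    have e3 : ∀ᶠ s in (atTop : Filter ℝ), ∀ j k, L0 j k ≤ s :=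
      eventually_all.2 (fun j => eventually_all.2 (fun k => eventually_ge_atTop _))
    filter_upwards [eventually_ge_atTop 1, eventually_ge_atTop c, eventually_ge_atTop L₀, e2, e3]
      with s h1 h2 h3 h4 h5
    exact ⟨h1, h2, h3, h4, h5⟩
  obtain ⟨L, hL1, hLc, hLL, hLC, hL0⟩ := hLex.exists
  have hpq : ∀ p q : ℂ × ℂ, dist p q ≤ ‖p.1 - q.1‖ + ‖p.2 - q.2‖ := by
    intro p q
    rw [dist_eq_norm, Prod.norm_def]
    exact max_le (le_add_of_nonneg_right (norm_nonneg _)) (le_add_of_nonneg_left (norm_nonneg _))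
  refine ⟨r, κ, L, z, hr, hrρ, hκ, hκ1, hL1, ?_⟩
  refine ⟨hr, hrr0.trans hR.r1, D13b_cr_D13b hR hr hrr0 hLL, ?_, ?_, ?_, ?_, ?_, ?_, ?_, ?_⟩
  · intro k
    exact (hsf k k κ L hκ (hκ0' k k) (hL0 k k)).1
  · intro k x hx
    exact (hB x hx k).1.differentiableWithinAt
  · intro k x hx y hy
    have h8 := (hlip k).dist_le_mul x (hB x hx k).2.2.2 y (hB y hy k).2.2.2
    rw [dist_eq_norm] at h8
    calc ‖W k x - W k y‖ ≤ (C k : ℝ) * dist x y := h8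
      _ ≤ L * dist x y := mul_le_mul_of_nonneg_right (hLC k) dist_nonneg
      _ ≤ L * (‖x.1 - y.1‖ + ‖x.2 - y.2‖) := mul_le_mul_of_nonneg_left (hpq x y) (by linarith)
  · intro k
    rw [h0 k, norm_zero]
  · intro k x hx hrb
    have h1 := (hB x hx k).2.1 hrb
    have h2 := him hrb h1
    exact h1.trans (mul_le_mul_of_nonneg_right hLc h2.le)
  · intro k p h1 h2
    refine ⟨hκz k p (h1.trans_le (hκ2' k)) (h2.trans_le (hκ2' k)), ?_⟩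
    exact (hzO k p (h1.trans_le ((hκ0' k k).trans (hκ01 k k)))
      (h2.trans_le ((hκ0' k k).trans (hκ01 k k)))).2
  · intro k x hx _ _
    exact (hB x hx k).2.2.1
  · intro j k
    exact (hsf j k κ L hκ (hκ0' j k) (hL0 j k)).2

end Pool.Agent.P157D
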