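import Mathlib
import Pool.Agent.P157C.LocV
import Pool.Agent.H788R3.Cor2.Base
import Pool.Agent.P157D.LocU

set_option autoImplicit false

open MeasureTheory Metric Set Filter Topology Complex

namespace Pool.Agent.P157D

open Pool.Agent.P157C (dz qq dbar Cut ExtP)

theorem D11_isOpen_Bo_D11 (r : ℝ) : IsOpen (Bo r) := by
  have h1 : IsOpen {x : ℂ × ℂ | ‖x.1‖ < r} := isOpen_lt (by fun_prop) continuous_const
  have h2 : IsOpen {x : ℂ × ℂ | ‖x.2‖ < r} := isOpen_lt (by fun_prop) continuous_const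
  exact h1.inter h2

theorem D11_norm_le_D11 (x : ℂ × ℂ) : ‖x‖ ≤ ‖x.1‖ + ‖x.2‖ := by
  rw [Prod.norm_def]
  exact max_le (by linarith [norm_nonneg x.2]) (by linarith [norm_nonneg x.1])

/-- the complex numbers `(A (1, 0) - I A (I, 0)) / 2` -/
noncomputable def D11_c_D11 (A : ℂ × ℂ →L[ℝ] ℝ) (u v : ℂ × ℂ) : ℂ :=
  ((A u : ℂ) - Complex.I * (A v : ℂ)) / 2

theorem D11_c_bd_D11 (A : ℂ × ℂ →L[ℝ] ℝ) {u v : ℂ × ℂ} (hu : ‖u‖ ≤ 1) (hv : ‖v‖ ≤ 1) :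
    ‖D11_c_D11 A u v‖ ≤ ‖A‖ := by
  unfold D11_c_D11
  rw [norm_div]
  have h1 : ‖(A u : ℂ)‖ ≤ ‖A‖ := by
    rw [Complex.norm_real]
    refine (A.le_opNorm u).trans ?_
    exact mul_le_of_le_one_right (norm_nonneg _) hu
  have h2 : ‖Complex.I * (A v : ℂ)‖ ≤ ‖A‖ := by
    rw [norm_mul, Complex.norm_I, one_mul, Complex.norm_real]
    refine (A.le_opNorm v).trans ?_
    exact mul_le_of_le_one_right (norm_nonneg _) hv
  have h3 := norm_sub_le (A u : ℂ) (Complex.I * (A v : ℂ))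
  have h4 : ‖(2 : ℂ)‖ = 2 := by simp
  rw [h4, div_le_iff₀ (by norm_num)]
  linarith

theorem D11_c_sub_D11 (A B : ℂ × ℂ →L[ℝ] ℝ) (u v : ℂ × ℂ) :
    D11_c_D11 A u v - D11_c_D11 B u v = D11_c_D11 (A - B) u v := by
  unfold D11_c_D11
  simp only [sub_apply]
  push_cast
  ring

theorem D11_n10_D11 : ‖((1 : ℂ), (0 : ℂ))‖ ≤ 1 := by simp [Prod.norm_def]

theorem D11_nI0_D11 : ‖((Complex.I : ℂ), (0 : ℂ))‖ ≤ 1 := by simp [Prod.norm_def]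

theorem D11_n01_D11 : ‖((0 : ℂ), (1 : ℂ))‖ ≤ 1 := by simp [Prod.norm_def]

theorem D11_n0I_D11 : ‖((0 : ℂ), (Complex.I : ℂ))‖ ≤ 1 := by simp [Prod.norm_def]

theorem D11_d1_D11 (R : ℂ × ℂ → ℝ) (x : ℂ × ℂ) : d1 R x = D11_c_D11 (fderiv ℝ R x) (1, 0) (Complex.I, 0) := rfl

theorem D11_d2_D11 (R : ℂ × ℂ → ℝ) (x : ℂ × ℂ) : d2 R x = D11_c_D11 (fderiv ℝ R x) (0, 1) (0, Complex.I) := rfl

/-- `A u = 2 Re (d1 u₁ + d2 u₂)` -/
theorem D11_re_D11 (R : ℂ × ℂ → ℝ) (x u : ℂ × ℂ) :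
    fderiv ℝ R x u = 2 * (d1 R x * u.1 + d2 R x * u.2).re := by
  obtain ⟨A, hA⟩ : ∃ A, A = fderiv ℝ R x := ⟨_, rfl⟩
  have e : u = u.1.re • ((1 : ℂ), (0 : ℂ)) + u.1.im • ((Complex.I : ℂ), (0 : ℂ)) +
      u.2.re • ((0 : ℂ), (1 : ℂ)) + u.2.im • ((0 : ℂ), (Complex.I : ℂ)) := by
    ext <;> simp
  have h1 : A u = u.1.re * A (1, 0) + u.1.im * A (Complex.I, 0) + u.2.re * A (0, 1) +
      u.2.im * A (0, Complex.I) := by
    conv_lhs => rw [e]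
    simp only [map_add, map_smul, smul_eq_mul]
  rw [← hA, h1]
  unfold d1 d2
  rw [← hA]
  simp only [Complex.add_re, Complex.mul_re, Complex.div_ofNat_re, Complex.div_ofNat_im,
    Complex.sub_re, Complex.sub_im, Complex.ofReal_re, Complex.ofReal_im, Complex.I_re,
    Complex.I_im, Complex.mul_im]
  ring

theorem D11_d1_hi_D11 {r L : ℝ} {R : ℂ × ℂ → ℝ} (h : CR r L R) {x : ℂ × ℂ} (hx : x ∈ Bo r) :
    ‖d1 R x‖ ≤ L := (D11_c_bd_D11 _ D11_n10_D11 D11_nI0_D11).trans (h.dhi x hx)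

theorem D11_d2_hi_D11 {r L : ℝ} {R : ℂ × ℂ → ℝ} (h : CR r L R) {x : ℂ × ℂ} (hx : x ∈ Bo r) :
    ‖d2 R x‖ ≤ L := (D11_c_bd_D11 _ D11_n01_D11 D11_n0I_D11).trans (h.dhi x hx)

theorem D11_d1_lip_D11 {r L : ℝ} {R : ℂ × ℂ → ℝ} (h : CR r L R) {x y : ℂ × ℂ} (hx : x ∈ Bo r)
    (hy : y ∈ Bo r) : ‖d1 R x - d1 R y‖ ≤ L * ‖x - y‖ := by
  rw [D11_d1_D11, D11_d1_D11, D11_c_sub_D11]
  exact (D11_c_bd_D11 _ D11_n10_D11 D11_nI0_D11).trans (h.dlip x hx y hy)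

theorem D11_d2_lip_D11 {r L : ℝ} {R : ℂ × ℂ → ℝ} (h : CR r L R) {x y : ℂ × ℂ} (hx : x ∈ Bo r)
    (hy : y ∈ Bo r) : ‖d2 R x - d2 R y‖ ≤ L * ‖x - y‖ := by
  rw [D11_d2_D11, D11_d2_D11, D11_c_sub_D11]
  exact (D11_c_bd_D11 _ D11_n01_D11 D11_n0I_D11).trans (h.dlip x hx y hy)

theorem D11_R_le_D11 {r L : ℝ} {R : ℂ × ℂ → ℝ} (h : CR r L R) {x y : ℂ × ℂ} (hx : x ∈ Bo r)
    (hy : y ∈ Bo r) : R x - R y ≤ L * ‖x - y‖ := by
  have h1 := h.conc y hy x hx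
  have h2 : fderiv ℝ R y (x - y) ≤ L * ‖x - y‖ :=
    (le_abs_self _).trans (((fderiv ℝ R y).le_opNorm (x - y)).trans
      (mul_le_mul_of_nonneg_right (h.dhi y hy) (norm_nonneg _)))
  have h3 := sq_nonneg ‖x.1 - y.1‖
  have h4 := sq_nonneg ‖x.2 - y.2‖
  linarith

theorem D11_R_lip_D11 {r L : ℝ} {R : ℂ × ℂ → ℝ} (h : CR r L R) {x y : ℂ × ℂ} (hx : x ∈ Bo r)
    (hy : y ∈ Bo r) : |R x - R y| ≤ L * ‖x - y‖ := by
  rw [abs_le]
  have h1 := D11_R_le_D11 h hx hy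
  have h2 := D11_R_le_D11 h hy hx
  rw [norm_sub_rev] at h2
  constructor <;> linarith

theorem D11_d_smooth_D11 {r L : ℝ} {R : ℂ × ℂ → ℝ} (h : CR r L R) (u v : ℂ × ℂ) :
    ContDiffOn ℝ 1 (fun x => D11_c_D11 (fderiv ℝ R x) u v) (Bo r) := by
  have h1 : ContDiffOn ℝ 1 (fderiv ℝ R) (Bo r) :=
    h.smooth.fderiv_of_isOpen (D11_isOpen_Bo_D11 r) (by norm_num)
  have h2 : ∀ w : ℂ × ℂ, ContDiffOn ℝ 1 (fun x => (fderiv ℝ R x w : ℂ)) (Bo r) := fun w =>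
    Complex.ofRealCLM.contDiff.comp_contDiffOn (h1.clm_apply contDiffOn_const)
  unfold D11_c_D11
  exact ((h2 u).sub (contDiffOn_const.mul (h2 v))).div_const 2

theorem D11_d1_smooth_D11 {r L : ℝ} {R : ℂ × ℂ → ℝ} (h : CR r L R) : ContDiffOn ℝ 1 (d1 R) (Bo r) :=
  D11_d_smooth_D11 h _ _

theorem D11_d2_smooth_D11 {r L : ℝ} {R : ℂ × ℂ → ℝ} (h : CR r L R) : ContDiffOn ℝ 1 (d2 R) (Bo r) :=
  D11_d_smooth_D11 h _ _

/-- the assumptions on the coordinate `z` -/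
structure D11_Z_D11 (r κ Λ : ℝ) (R : ℂ × ℂ → ℝ) (z : ℂ × ℂ → ℂ) : Prop where
  κ0 : 0 < κ
  κ1 : κ ≤ 1
  L1 : 1 ≤ Λ
  diff : DifferentiableOn ℂ z {p | ‖p.1‖ < κ ∧ ‖p.2‖ < κ}
  hi : ∀ p : ℂ × ℂ, ‖p.1‖ < κ → ‖p.2‖ < κ → ‖z p‖ ≤ Λ
  lip : ∀ p q : ℂ × ℂ, ‖p.1‖ < κ → ‖p.2‖ < κ → ‖q.1‖ < κ → ‖q.2‖ < κ →
    ‖z p - z q‖ ≤ Λ * (‖p.1 - q.1‖ + ‖p.2 - q.2‖)
  inj : ∀ w w' y : ℂ, ‖w‖ < κ → ‖w'‖ < κ → ‖y‖ < κ → ‖w - w'‖ ≤ Λ * ‖z (w, y) - z (w', y)‖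
  dbd : ∀ p : ℂ × ℂ, ‖p.1‖ < κ → ‖p.2‖ < κ → ‖dz z p‖ ≤ Λ
  lip2 : ∀ p q : ℂ × ℂ, ‖p.1‖ < κ → ‖p.2‖ < κ → ‖q.1‖ < κ → ‖q.2‖ < κ →
    ‖dz z p - dz z q‖ ≤ Λ * (‖p.1 - q.1‖ + ‖p.2 - q.2‖)
  mem : ∀ p : ℂ × ℂ, ‖p.1‖ < κ → ‖p.2‖ < κ → (z p, p.2) ∈ Bo r
  im : ∀ p : ℂ × ℂ, ‖p.1‖ < κ → ‖p.2‖ < κ → 0 < R (z p, p.2) → 0 < p.1.im

theorem D11_hasDeriv_D11 {r κ Λ : ℝ} {R : ℂ × ℂ → ℝ} {z : ℂ × ℂ → ℂ} (h : D11_Z_D11 r κ Λ R z)
    {p : ℂ × ℂ} (h1 : ‖p.1‖ < κ) (h2 : ‖p.2‖ < κ) :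
    HasDerivAt (fun η : ℂ => z (p.1, η)) (dz z p) p.2 := by
  have hopen : IsOpen {p : ℂ × ℂ | ‖p.1‖ < κ ∧ ‖p.2‖ < κ} := D11_isOpen_Bo_D11 κ
  have hd : DifferentiableAt ℂ z (p.1, p.2) :=
    h.diff.differentiableAt (hopen.mem_nhds ⟨h1, h2⟩)
  have hd2 : DifferentiableAt ℂ (fun η : ℂ => z (p.1, η)) p.2 := by
    have : DifferentiableAt ℂ (fun η : ℂ => ((p.1, η) : ℂ × ℂ)) p.2 := by fun_prop
    exact DifferentiableAt.comp p.2 hd this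
  exact hd2.hasDerivAt

/-- the real derivative of the slice -/
theorem D11_slice_D11 {r κ Λ : ℝ} {R : ℂ × ℂ → ℝ} {z : ℂ × ℂ → ℂ} (h : D11_Z_D11 r κ Λ R z)
    {p : ℂ × ℂ} (h1 : ‖p.1‖ < κ) (h2 : ‖p.2‖ < κ) :
    HasFDerivAt (fun η : ℂ => ((z (p.1, η), η) : ℂ × ℂ))
      ((dz z p • (1 : ℂ →L[ℝ] ℂ)).prod (ContinuousLinearMap.id ℝ ℂ)) p.2 :=
  (D11_hasDeriv_D11 h h1 h2).complexToReal_fderiv.prodMk (hasFDerivAt_id p.2)

theorem D11_slice_smooth_D11 {r κ Λ : ℝ} {R : ℂ × ℂ → ℝ} {z : ℂ × ℂ → ℂ} (h : D11_Z_D11 r κ Λ R z)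
    {ζ : ℂ} (h1 : ‖ζ‖ < κ) :
    ContDiffOn ℝ 1 (fun η : ℂ => ((z (ζ, η), η) : ℂ × ℂ)) (ball 0 κ) := by
  have h2 : DifferentiableOn ℂ (fun η : ℂ => z (ζ, η)) (ball 0 κ) := by
    intro η hη
    have hη' : ‖η‖ < κ := by simpa using hη
    exact (D11_hasDeriv_D11 h (p := (ζ, η)) h1 hη').differentiableAt.differentiableWithinAt
  have h3 : ContDiffOn ℂ 1 (fun η : ℂ => z (ζ, η)) (ball 0 κ) := h2.contDiffOn isOpen_ball
  exact (h3.restrict_scalars ℝ).prodMk contDiffOn_id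

/-- chain rule for a complex valued function of the point -/
theorem D11_chain_D11 {r κ Λ : ℝ} {R : ℂ × ℂ → ℝ} {z : ℂ × ℂ → ℂ} (h : D11_Z_D11 r κ Λ R z)
    {H : ℂ × ℂ → ℂ} (hH : ContDiffOn ℝ 1 H (Bo r)) {p : ℂ × ℂ} (h1 : ‖p.1‖ < κ)
    (h2 : ‖p.2‖ < κ) :
    dbar (fun η : ℂ => H (z (p.1, η), η)) p.2 =
      (fderiv ℝ H (z p, p.2) (dz z p, 1) +
        Complex.I * fderiv ℝ H (z p, p.2) (dz z p * Complex.I, Complex.I)) / 2 := by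
  have hm := h.mem p h1 h2
  have h3 : HasFDerivAt H (fderiv ℝ H (z p, p.2)) (z (p.1, p.2), p.2) :=
    ((hH.differentiableOn (by norm_num)).differentiableAt ((D11_isOpen_Bo_D11 r).mem_nhds hm)).hasFDerivAt
  have h4 : HasFDerivAt (fun η : ℂ => H (z (p.1, η), η))
      ((fderiv ℝ H (z p, p.2)).comp
        ((dz z p • (1 : ℂ →L[ℝ] ℂ)).prod (ContinuousLinearMap.id ℝ ℂ))) p.2 :=
    HasFDerivAt.comp (g := H) (f := fun η : ℂ => ((z (p.1, η), η) : ℂ × ℂ)) p.2 h3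
      (D11_slice_D11 h h1 h2)
  unfold Pool.Agent.P157C.dbar
  rw [h4.fderiv]
  simp

theorem D11_fderiv_bd_D11 {r M : ℝ} (hM : 0 ≤ M) {H : ℂ × ℂ → ℂ}
    (hH : ∀ x ∈ Bo r, ∀ y ∈ Bo r, ‖H x - H y‖ ≤ M * ‖x - y‖) {x : ℂ × ℂ} (hx : x ∈ Bo r) :
    ‖fderiv ℝ H x‖ ≤ M := by
  apply norm_fderiv_le_of_lip' ℝ hM
  filter_upwards [(D11_isOpen_Bo_D11 r).mem_nhds hx] with y hy
  exact hH y hy x hx

theorem D11_dbar_bd_D11 {r κ Λ M : ℝ} {R : ℂ × ℂ → ℝ} {z : ℂ × ℂ → ℂ} (h : D11_Z_D11 r κ Λ R z)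
    (hM : 0 ≤ M) {H : ℂ × ℂ → ℂ} (hH : ContDiffOn ℝ 1 H (Bo r))
    (hHl : ∀ x ∈ Bo r, ∀ y ∈ Bo r, ‖H x - H y‖ ≤ M * ‖x - y‖) {p : ℂ × ℂ} (h1 : ‖p.1‖ < κ)
    (h2 : ‖p.2‖ < κ) :
    ‖dbar (fun η : ℂ => H (z (p.1, η), η)) p.2‖ ≤ M * Λ := by
  rw [D11_chain_D11 h hH h1 h2]
  have h3 := D11_fderiv_bd_D11 hM hHl (h.mem p h1 h2)
  have h4 := h.dbd p h1 h2
  have hL := h.L1
  have n1 : ‖((dz z p, (1 : ℂ)) : ℂ × ℂ)‖ ≤ Λ := by
    rw [Prod.norm_def]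
    exact max_le h4 (by simpa using hL)
  have n2 : ‖((dz z p * Complex.I, Complex.I) : ℂ × ℂ)‖ ≤ Λ := by
    rw [Prod.norm_def]
    refine max_le ?_ (by simpa using hL)
    simpa using h4
  have b1 : ‖fderiv ℝ H (z p, p.2) (dz z p, 1)‖ ≤ M * Λ :=
    ((fderiv ℝ H (z p, p.2)).le_opNorm _).trans (mul_le_mul h3 n1 (norm_nonneg _) hM)
  have b2 : ‖Complex.I * fderiv ℝ H (z p, p.2) (dz z p * Complex.I, Complex.I)‖ ≤ M * Λ := by
    rw [norm_mul, Complex.norm_I, one_mul]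
    exact ((fderiv ℝ H (z p, p.2)).le_opNorm _).trans (mul_le_mul h3 n2 (norm_nonneg _) hM)
  rw [norm_div]
  have h5 : ‖(2 : ℂ)‖ = 2 := by simp
  rw [h5, div_le_iff₀ (by norm_num)]
  refine (norm_add_le _ _).trans ?_
  linarith

theorem D11_dz_cont_D11 {r κ Λ : ℝ} {R : ℂ × ℂ → ℝ} {z : ℂ × ℂ → ℂ} (h : D11_Z_D11 r κ Λ R z) :
    ContinuousOn (dz z) {p | ‖p.1‖ < κ ∧ ‖p.2‖ < κ} := by
  have hL := h.L1
  have hl : LipschitzOnWith (Real.toNNReal (2 * Λ)) (dz z) {p | ‖p.1‖ < κ ∧ ‖p.2‖ < κ} := by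
    apply LipschitzOnWith.of_dist_le_mul
    intro p hp q hq
    rw [dist_eq_norm, dist_eq_norm, Real.coe_toNNReal _ (by linarith)]
    refine (h.lip2 p q hp.1 hp.2 hq.1 hq.2).trans ?_
    have h1 : ‖p.1 - q.1‖ ≤ ‖p - q‖ := norm_fst_le (p - q)
    have h2 : ‖p.2 - q.2‖ ≤ ‖p - q‖ := norm_snd_le (p - q)
    nlinarith [norm_nonneg (p - q)]
  exact hl.continuousOn

theorem D11_dbar_cont_D11 {r κ Λ : ℝ} {R : ℂ × ℂ → ℝ} {z : ℂ × ℂ → ℂ} (h : D11_Z_D11 r κ Λ R z)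
    {H : ℂ × ℂ → ℂ} (hH : ContDiffOn ℝ 1 H (Bo r)) :
    ContinuousOn (fun p : ℂ × ℂ => dbar (fun η : ℂ => H (z (p.1, η), η)) p.2)
      {p | ‖p.1‖ < κ ∧ ‖p.2‖ < κ} := by
  have hz : ContinuousOn z {p | ‖p.1‖ < κ ∧ ‖p.2‖ < κ} := h.diff.continuousOn
  have hdz := D11_dz_cont_D11 h
  have hΨ : ContinuousOn (fun p : ℂ × ℂ => ((z p, p.2) : ℂ × ℂ)) {p | ‖p.1‖ < κ ∧ ‖p.2‖ < κ} :=
    hz.prodMk continuousOn_snd
  have hF : ContinuousOn (fderiv ℝ H) (Bo r) :=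
    (hH.fderiv_of_isOpen (m := 0) (D11_isOpen_Bo_D11 r) (by norm_num)).continuousOn
  have hFΨ : ContinuousOn (fun p : ℂ × ℂ => fderiv ℝ H (z p, p.2))
      {p | ‖p.1‖ < κ ∧ ‖p.2‖ < κ} := hF.comp hΨ (fun p hp => h.mem p hp.1 hp.2)
  have h1 : ContinuousOn (fun p : ℂ × ℂ => fderiv ℝ H (z p, p.2) (dz z p, 1))
      {p | ‖p.1‖ < κ ∧ ‖p.2‖ < κ} := hFΨ.clm_apply (hdz.prodMk continuousOn_const)
  have h2 : ContinuousOn (fun p : ℂ × ℂ =>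
      fderiv ℝ H (z p, p.2) (dz z p * Complex.I, Complex.I)) {p | ‖p.1‖ < κ ∧ ‖p.2‖ < κ} :=
    hFΨ.clm_apply ((hdz.mul continuousOn_const).prodMk continuousOn_const)
  have h3 : ContinuousOn (fun p : ℂ × ℂ => (fderiv ℝ H (z p, p.2) (dz z p, 1) +
      Complex.I * fderiv ℝ H (z p, p.2) (dz z p * Complex.I, Complex.I)) / 2)
      {p | ‖p.1‖ < κ ∧ ‖p.2‖ < κ} :=
    (h1.add (continuousOn_const.mul h2)).div_const 2
  exact h3.congr (fun p hp => D11_chain_D11 h hH hp.1 hp.2)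

theorem D11_gm_D11 {r L κ Λ : ℝ} {R : ℂ × ℂ → ℝ} {z : ℂ × ℂ → ℂ} (hR : CR r L R)
    (h : D11_Z_D11 r κ Λ R z) : GM κ (2 * L * Λ) (gd R z) := by
  have hL := hR.L1
  have hΛ := h.L1
  have hr := hR.r0
  have hLΛ : L ≤ 2 * L * Λ := by nlinarith
  have hΛL : Λ ≤ 2 * L * Λ := by nlinarith
  have hC0 : 0 ≤ 2 * L * Λ := by linarith
  have hsum : ∀ p q : ℂ × ℂ, ‖p.1‖ < κ → ‖p.2‖ < κ → ‖q.1‖ < κ → ‖q.2‖ < κ →
      L * ‖((z p, p.2) : ℂ × ℂ) - (z q, q.2)‖ ≤ 2 * L * Λ * (‖p.1 - q.1‖ + ‖p.2 - q.2‖) := by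
    intro p q h1 h2 h3 h4
    have e1 : ‖((z p, p.2) : ℂ × ℂ) - (z q, q.2)‖ ≤ ‖z p - z q‖ + ‖p.2 - q.2‖ :=
      D11_norm_le_D11 _
    have e2 := h.lip p q h1 h2 h3 h4
    have e3 : ‖p.2 - q.2‖ ≤ Λ * (‖p.1 - q.1‖ + ‖p.2 - q.2‖) := by
      have := norm_nonneg (p.1 - q.1)
      have := norm_nonneg (p.2 - q.2)
      nlinarith
    calc L * ‖((z p, p.2) : ℂ × ℂ) - (z q, q.2)‖
        ≤ L * (Λ * (‖p.1 - q.1‖ + ‖p.2 - q.2‖) + Λ * (‖p.1 - q.1‖ + ‖p.2 - q.2‖)) :=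
          mul_le_mul_of_nonneg_left (by linarith) (by linarith)
      _ = 2 * L * Λ * (‖p.1 - q.1‖ + ‖p.2 - q.2‖) := by ring
  exact
    { κ0 := h.κ0
      κ1 := h.κ1
      L1 := hL.trans hLΛ
      diff := h.diff
      hi := fun p h1 h2 => (h.hi p h1 h2).trans hΛL
      lip := fun p q h1 h2 h3 h4 => (h.lip p q h1 h2 h3 h4).trans
        (mul_le_mul_of_nonneg_right hΛL (by positivity))
      inj := fun w w' y h1 h2 h3 => (h.inj w w' y h1 h2 h3).trans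
        (mul_le_mul_of_nonneg_right hΛL (by positivity))
      dbd := fun p h1 h2 => (h.dbd p h1 h2).trans hΛL
      lip2 := fun p q h1 h2 h3 h4 => (h.lip2 p q h1 h2 h3 h4).trans
        (mul_le_mul_of_nonneg_right hΛL (by positivity))
      alo := fun p h1 h2 => (hR.dlo _ (h.mem p h1 h2)).trans
        (mul_le_mul_of_nonneg_right hLΛ (norm_nonneg _))
      ahi := fun p h1 h2 => (D11_d1_hi_D11 hR (h.mem p h1 h2)).trans hLΛ
      bhi := fun p h1 h2 => (D11_d2_hi_D11 hR (h.mem p h1 h2)).trans hLΛ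
      alip := fun p q h1 h2 h3 h4 =>
        (D11_d1_lip_D11 hR (h.mem p h1 h2) (h.mem q h3 h4)).trans (hsum p q h1 h2 h3 h4)
      blip := fun p q h1 h2 h3 h4 =>
        (D11_d2_lip_D11 hR (h.mem p h1 h2) (h.mem q h3 h4)).trans (hsum p q h1 h2 h3 h4)
      rlip := fun p q h1 h2 h3 h4 =>
        (D11_R_lip_D11 hR (h.mem p h1 h2) (h.mem q h3 h4)).trans (hsum p q h1 h2 h3 h4)
      a'hi := fun p h1 h2 => (D11_dbar_bd_D11 h (by linarith) (D11_d1_smooth_D11 hR)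
        (fun x hx y hy => D11_d1_lip_D11 hR hx hy) h1 h2).trans (by nlinarith)
      b'hi := fun p h1 h2 => (D11_dbar_bd_D11 h (by linarith) (D11_d2_smooth_D11 hR)
        (fun x hx y hy => D11_d2_lip_D11 hR hx hy) h1 h2).trans (by nlinarith)
      a'c := D11_dbar_cont_D11 h (D11_d1_smooth_D11 hR)
      b'c := D11_dbar_cont_D11 h (D11_d2_smooth_D11 hR)
      rC := fun ζ h1 => (hR.smooth.of_le (by norm_num)).comp (D11_slice_smooth_D11 h h1)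
        (fun η hη => h.mem (ζ, η) h1 (by simpa using hη))
      aC := fun ζ h1 => (D11_d1_smooth_D11 hR).comp (D11_slice_smooth_D11 h h1)
        (fun η hη => h.mem (ζ, η) h1 (by simpa using hη))
      bC := fun ζ h1 => (D11_d2_smooth_D11 hR).comp (D11_slice_smooth_D11 h h1)
        (fun η hη => h.mem (ζ, η) h1 (by simpa using hη))
      rd := by
        intro p h1 h2
        have hs : ContDiffOn ℝ 1 (fun x => (R x : ℂ)) (Bo r) :=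
          Complex.ofRealCLM.contDiff.comp_contDiffOn (hR.smooth.of_le (by norm_num))
        have e1 := D11_chain_D11 h hs h1 h2
        have hm := h.mem p h1 h2
        have hd : DifferentiableAt ℝ R (z p, p.2) :=
          (hR.smooth.differentiableOn (by norm_num)).differentiableAt
            ((D11_isOpen_Bo_D11 r).mem_nhds hm)
        have e2 : fderiv ℝ (fun x => (R x : ℂ)) (z p, p.2) =
            Complex.ofRealCLM.comp (fderiv ℝ R (z p, p.2)) :=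
          (Complex.ofRealCLM.hasFDerivAt.comp _ hd.hasFDerivAt).fderiv
        show dbar (fun η : ℂ => (R (z (p.1, η), η) : ℂ)) p.2 =
          starRingEnd ℂ (d1 R (z p, p.2) * dz z p + d2 R (z p, p.2))
        rw [e1, e2]
        simp only [ContinuousLinearMap.comp_apply, Complex.ofRealCLM_apply]
        rw [D11_re_D11, D11_re_D11]
        simp only
        obtain ⟨β, hβ⟩ : ∃ β, β = d1 R (z p, p.2) * dz z p + d2 R (z p, p.2) := ⟨_, rfl⟩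
        have g1 : d1 R (z p, p.2) * dz z p + d2 R (z p, p.2) * 1 = β := by rw [hβ]; ring
        have g2 : d1 R (z p, p.2) * (dz z p * Complex.I) + d2 R (z p, p.2) * Complex.I =
            β * Complex.I := by rw [hβ]; ring
        rw [g1, g2, ← hβ]
        apply Complex.ext
        · simp
        · simp
          ring
      ad := fun p _ _ => rfl
      bd := fun p _ _ => rfl
      cvx := by
        intro s p h1 h2 h3 h4
        have hm := h.mem s h1 h2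
        have hm' := h.mem p h3 h4
        have e1 := hR.conc _ hm _ hm'
        rw [D11_re_D11] at e1
        simp only [Prod.fst_sub, Prod.snd_sub] at e1
        have e2 : (Ph (gd R z) s p).re = R (z s, s.2) +
            (d1 R (z s, s.2) * (z p - z s) + d2 R (z s, s.2) * (p.2 - s.2)).re := by
          show ((R (z s, s.2) : ℂ) + d1 R (z s, s.2) * (z p - z s) +
            d2 R (z s, s.2) * (p.2 - s.2)).re = _
          simp only [Complex.add_re, Complex.ofReal_re]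
          ring
        rw [e2]
        show R (z s, s.2) + R (z p, p.2) + ‖z p - z s‖ ^ 2 + ‖p.2 - s.2‖ ^ 2 ≤ _
        linarith
      im := fun p h1 h2 h3 => h.im p h1 h2 h3 }

open Pool.Agent.P157C.V6 (ph den_ne ph_sub ph_lip ph_inj ph_ps ph_dat im_ph ph_tendsto gden_ne
  gph_lip gph_ps gph_bd phd ph_hasDeriv phd_bd phd_lip im_phn)

theorem D11_CR_mono_D11 {r r' L L' : ℝ} {R : ℂ × ℂ → ℝ} (h : CR r L R) (h0 : 0 < r') (hr : r' ≤ r)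
    (hL : L ≤ L') : CR r' L' R := by
  have hsub : Bo r' ⊆ Bo r := fun x hx => ⟨hx.1.trans_le hr, hx.2.trans_le hr⟩
  exact
    { r0 := h0
      r1 := hr.trans h.r1
      L1 := h.L1.trans hL
      smooth := h.smooth.mono hsub
      dlo := fun x hx => (h.dlo x (hsub hx)).trans (mul_le_mul_of_nonneg_right hL (norm_nonneg _))
      dhi := fun x hx => (h.dhi x (hsub hx)).trans hL
      dlip := fun x hx y hy => (h.dlip x (hsub hx) y (hsub hy)).trans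
        (mul_le_mul_of_nonneg_right hL (norm_nonneg _))
      conc := fun x hx y hy => h.conc x (hsub hx) y (hsub hy) }

theorem D11_GM_mono_D11 {κ κ₀ L : ℝ} {g : GD} (h : GM κ L g) (h0 : 0 < κ₀) (hk : κ₀ ≤ κ) :
    GM κ₀ L g := by
  have hb : ball (0 : ℂ) κ₀ ⊆ ball 0 κ := ball_subset_ball hk
  exact
    { κ0 := h0
      κ1 := hk.trans h.κ1
      L1 := h.L1
      diff := h.diff.mono (fun p hp => ⟨hp.1.trans_le hk, hp.2.trans_le hk⟩)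
      hi := fun p h1 h2 => h.hi p (h1.trans_le hk) (h2.trans_le hk)
      lip := fun p q h1 h2 h3 h4 =>
        h.lip p q (h1.trans_le hk) (h2.trans_le hk) (h3.trans_le hk) (h4.trans_le hk)
      inj := fun w w' y h1 h2 h3 =>
        h.inj w w' y (h1.trans_le hk) (h2.trans_le hk) (h3.trans_le hk)
      dbd := fun p h1 h2 => h.dbd p (h1.trans_le hk) (h2.trans_le hk)
      lip2 := fun p q h1 h2 h3 h4 =>
        h.lip2 p q (h1.trans_le hk) (h2.trans_le hk) (h3.trans_le hk) (h4.trans_le hk)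
      alo := fun p h1 h2 => h.alo p (h1.trans_le hk) (h2.trans_le hk)
      ahi := fun p h1 h2 => h.ahi p (h1.trans_le hk) (h2.trans_le hk)
      bhi := fun p h1 h2 => h.bhi p (h1.trans_le hk) (h2.trans_le hk)
      alip := fun p q h1 h2 h3 h4 =>
        h.alip p q (h1.trans_le hk) (h2.trans_le hk) (h3.trans_le hk) (h4.trans_le hk)
      blip := fun p q h1 h2 h3 h4 =>
        h.blip p q (h1.trans_le hk) (h2.trans_le hk) (h3.trans_le hk) (h4.trans_le hk)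
      rlip := fun p q h1 h2 h3 h4 =>
        h.rlip p q (h1.trans_le hk) (h2.trans_le hk) (h3.trans_le hk) (h4.trans_le hk)
      a'hi := fun p h1 h2 => h.a'hi p (h1.trans_le hk) (h2.trans_le hk)
      b'hi := fun p h1 h2 => h.b'hi p (h1.trans_le hk) (h2.trans_le hk)
      a'c := h.a'c.mono (fun p hp => ⟨hp.1.trans_le hk, hp.2.trans_le hk⟩)
      b'c := h.b'c.mono (fun p hp => ⟨hp.1.trans_le hk, hp.2.trans_le hk⟩)
      rC := fun ζ h1 => (h.rC ζ (h1.trans_le hk)).mono hb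
      aC := fun ζ h1 => (h.aC ζ (h1.trans_le hk)).mono hb
      bC := fun ζ h1 => (h.bC ζ (h1.trans_le hk)).mono hb
      rd := fun p h1 h2 => h.rd p (h1.trans_le hk) (h2.trans_le hk)
      ad := fun p h1 h2 => h.ad p (h1.trans_le hk) (h2.trans_le hk)
      bd := fun p h1 h2 => h.bd p (h1.trans_le hk) (h2.trans_le hk)
      cvx := fun p q h1 h2 h3 h4 =>
        h.cvx p q (h1.trans_le hk) (h2.trans_le hk) (h3.trans_le hk) (h4.trans_le hk)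
      im := fun p h1 h2 => h.im p (h1.trans_le hk) (h2.trans_le hk) }

theorem D11_SF_mono_D11 {κ κ₀ L : ℝ} {g : GD} {F : ℂ × ℂ → ℂ} (h : SF κ L g F) (hk : κ₀ ≤ κ) :
    SF κ₀ L g F := by
  refine ⟨?_, ?_, ?_, ?_, ?_, ?_, ?_⟩
  · exact h.diff.mono (fun p hp => ⟨hp.1.trans_le hk, hp.2.trans_le hk⟩)
  · exact fun p h1 h2 => h.bd p (h1.trans_le hk) (h2.trans_le hk)
  · exact fun p q h1 h2 h3 h4 =>
      h.lip p q (h1.trans_le hk) (h2.trans_le hk) (h3.trans_le hk) (h4.trans_le hk)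
  · exact fun p h1 h2 => h.dbd p (h1.trans_le hk) (h2.trans_le hk)
  · exact fun p q h1 h2 h3 h4 =>
      h.dlip p q (h1.trans_le hk) (h2.trans_le hk) (h3.trans_le hk) (h4.trans_le hk)
  · exact fun p h1 h2 => h.pos p (h1.trans_le hk) (h2.trans_le hk)
  · intro ζ b t h1 h2
    refine le_trans (lintegral_mono_set ?_) (h.area ζ b t (h1.trans_le hk) h2)
    rintro η ⟨h3, h4⟩
    exact ⟨by linarith, h4⟩

theorem D11_LC_mono_D11 {K : ℕ} {r κ κ₀ L σ : ℝ} {R : ℂ × ℂ → ℝ} {W z : Fin K → ℂ × ℂ → ℂ}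
    (h : LC r κ L σ R W z) (h0 : 0 < κ₀) (hk : κ₀ ≤ κ) : LC r κ₀ L σ R W z := by
  refine ⟨h.r0, h.r1, h.cr, fun k => D11_GM_mono_D11 (h.gm k) h0 hk, h.diff, h.lip, h.ctr, h.pos,
    ?_, ?_, ?_⟩
  · exact fun k p h1 h2 => h.z1 k p (h1.trans_le hk) (h2.trans_le hk)
  · exact fun k x hx h1 h2 => h.z2 k x hx (h1.trans_le hk) (h2.trans_le hk)
  · exact fun j k => D11_SF_mono_D11 (h.sf j k) hk

/-- the functions `z'` -/
noncomputable def D11_zz_D11 (z : ℂ × ℂ → ℂ) (s : ℝ) (τ : ℂ) (p : ℂ × ℂ) : ℂ :=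
  z (ph s p.1, p.2) - τ

/-- the functions `W'` -/
noncomputable def D11_ww_D11 (W : ℂ × ℂ → ℂ) (s : ℝ) (τ : ℂ) (x : ℂ × ℂ) : ℂ :=
  ph (-s) (W (x.1 + τ, x.2))

/-- the transformed secondary function -/
noncomputable def D11_FF_D11 (F : ℂ × ℂ → ℂ) (s : ℝ) (p : ℂ × ℂ) : ℂ := ph (-s) (F (ph s p.1, p.2))

/-- the constants -/
structure D11_S_D11 (r' κ L σ s c : ℝ) : Prop where
  s0 : 0 < s
  sκ : 16 * s ≤ κ
  s1 : |s| ≤ 1 / 16
  s16 : s ≤ 1 / 16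
  hc : c = 5 * L ^ 4
  s3 : 64 * L * s ≤ 1
  cs : c * s ≤ r' / 16
  sσ : (L * c + 4) * s ≤ σ
  s6 : L * c * s ≤ 1

/-- the translation -/
structure D11_T_D11 (r r' L s c : ℝ) (R : ℂ × ℂ → ℝ) (τ : ℂ) : Prop where
  r'0 : 0 < r'
  r'r : 2 * r' ≤ r
  n : ‖τ‖ ≤ c * s
  up : ∀ x ∈ Bo r', R x + c * s / L ≤ R (x.1 + τ, x.2)

section

variable {r r' κ L σ s c : ℝ} {R : ℂ × ℂ → ℝ} {τ : ℂ}

theorem D11_S_D11.w (S : D11_S_D11 r' κ L σ s c) (hκ1 : κ ≤ 1) {w : ℂ} (hw : ‖w‖ < κ / 2) :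
    ‖w‖ ≤ 1 ∧ ‖ph s w‖ < κ := by
  have hw1 : ‖w‖ ≤ 1 := by linarith [S.s0, S.sκ]
  refine ⟨hw1, ?_⟩
  have h1 := ph_sub S.s1 hw1
  rw [abs_of_pos S.s0] at h1
  have h2 : ‖ph s w‖ ≤ ‖ph s w - w‖ + ‖w‖ := by
    have := norm_add_le (ph s w - w) w
    rwa [sub_add_cancel] at this
  linarith [S.s0, S.sκ]

theorem D11_S_D11.y (S : D11_S_D11 r' κ L σ s c) {y : ℂ} (hy : ‖y‖ < κ / 2) : ‖y‖ < κ := by
  linarith [S.s0, S.sκ]

theorem D11_S_D11.u (S : D11_S_D11 r' κ L σ s c) {u : ℂ} (hu : ‖u‖ ≤ 4 * L) : |s| * ‖u‖ ≤ 1 / 16 := by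
  have h1 := S.s0
  have h2 := S.s3
  rw [abs_of_pos h1]
  have h3 : s * ‖u‖ ≤ s * (4 * L) := mul_le_mul_of_nonneg_left hu h1.le
  linarith

theorem D11_T_D11.mem (T : D11_T_D11 r r' L s c R τ) (S : D11_S_D11 r' κ L σ s c) {x : ℂ × ℂ}
    (hx : x ∈ Bo r') : (x.1 + τ, x.2) ∈ Bo r := by
  have h1 := T.n
  have h2 := S.cs
  have h3 := T.r'0
  have h4 := T.r'r
  have h5 := hx.1
  have h6 := hx.2
  refine ⟨?_, ?_⟩
  · refine lt_of_le_of_lt (norm_add_le _ _) ?_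
    linarith
  · simp only
    linarith

theorem D11_dz_zz_D11 (z : ℂ × ℂ → ℂ) (s : ℝ) (τ : ℂ) (p : ℂ × ℂ) :
    dz (D11_zz_D11 z s τ) p = dz z (ph s p.1, p.2) := by
  unfold Pool.Agent.P157C.dz D11_zz_D11
  simp only
  rw [deriv_sub_const]

theorem D11_Zs_D11 {z : ℂ × ℂ → ℂ} (h : GM κ L (gd R z)) (S : D11_S_D11 r' κ L σ s c) (hr' : r' ≤ 1)
    (mem : ∀ p : ℂ × ℂ, ‖p.1‖ < κ / 2 → ‖p.2‖ < κ / 2 → (D11_zz_D11 z s τ p, p.2) ∈ Bo r')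
    (im : ∀ p : ℂ × ℂ, ‖p.1‖ < κ / 2 → ‖p.2‖ < κ / 2 → 0 < R (D11_zz_D11 z s τ p, p.2) →
      0 < p.1.im) : D11_Z_D11 r' (κ / 2) (512 * L) R (D11_zz_D11 z s τ) := by
  have hκ := h.κ0
  have hκ1 := h.κ1
  have hL := h.L1
  have hsum : ∀ p q : ℂ × ℂ, ‖p.1‖ < κ / 2 → ‖q.1‖ < κ / 2 →
      L * (‖ph s p.1 - ph s q.1‖ + ‖p.2 - q.2‖) ≤ 512 * L * (‖p.1 - q.1‖ + ‖p.2 - q.2‖) := by
    intro p q h1 h3
    have h6 := ph_lip S.s1 (S.w hκ1 h1).1 (S.w hκ1 h3).1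
    have h8 := norm_nonneg (p.2 - q.2)
    have h9 := norm_nonneg (p.1 - q.1)
    calc L * (‖ph s p.1 - ph s q.1‖ + ‖p.2 - q.2‖)
        ≤ L * (512 * (‖p.1 - q.1‖ + ‖p.2 - q.2‖)) :=
          mul_le_mul_of_nonneg_left (by linarith) (by linarith)
      _ = 512 * L * (‖p.1 - q.1‖ + ‖p.2 - q.2‖) := by ring
  refine ⟨by linarith, by linarith, by linarith, ?_, ?_, ?_, ?_, ?_, ?_, mem, im⟩
  · have h1 : MapsTo (fun p : ℂ × ℂ => (ph s p.1, p.2))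
        {p : ℂ × ℂ | ‖p.1‖ < κ / 2 ∧ ‖p.2‖ < κ / 2} {p : ℂ × ℂ | ‖p.1‖ < κ ∧ ‖p.2‖ < κ} := by
      intro p hp
      exact ⟨(S.w hκ1 hp.1).2, S.y hp.2⟩
    have h2 : DifferentiableOn ℂ (fun p : ℂ × ℂ => (ph s p.1, p.2))
        {p : ℂ × ℂ | ‖p.1‖ < κ / 2 ∧ ‖p.2‖ < κ / 2} := by
      intro p hp
      have h3 : DifferentiableAt ℂ (ph s) p.1 := ph_dat (den_ne S.s1 (S.w hκ1 hp.1).1)
      have h4 : DifferentiableAt ℂ (fun p : ℂ × ℂ => ph s p.1) p :=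
        DifferentiableAt.comp p h3 differentiableAt_fst
      exact (h4.prodMk (by fun_prop)).differentiableWithinAt
    have hz : DifferentiableOn ℂ z {p : ℂ × ℂ | ‖p.1‖ < κ ∧ ‖p.2‖ < κ} := h.diff
    have h3 : DifferentiableOn ℂ (fun p : ℂ × ℂ => z (ph s p.1, p.2))
        {p : ℂ × ℂ | ‖p.1‖ < κ / 2 ∧ ‖p.2‖ < κ / 2} := hz.comp h2 h1
    exact h3.sub_const τ
  · intro p h1 h2
    have h3 : ‖D11_zz_D11 z s τ p‖ < r' := (mem p h1 h2).1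
    linarith
  · intro p q h1 h2 h3 h4
    have h5 := h.lip (ph s p.1, p.2) (ph s q.1, q.2)
      (S.w hκ1 h1).2 (S.y h2) (S.w hκ1 h3).2 (S.y h4)
    have e : D11_zz_D11 z s τ p - D11_zz_D11 z s τ q = z (ph s p.1, p.2) - z (ph s q.1, q.2) := by
      unfold D11_zz_D11; ring
    rw [e]
    exact h5.trans (hsum p q h1 h3)
  · intro w w' y h1 h2 h3
    have h4 := ph_inj S.s1 (S.w hκ1 h1).1 (S.w hκ1 h2).1
    have h5 := h.inj (ph s w) (ph s w') y (S.w hκ1 h1).2 (S.w hκ1 h2).2 (S.y h3)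
    have e : D11_zz_D11 z s τ (w, y) - D11_zz_D11 z s τ (w', y) = z (ph s w, y) - z (ph s w', y) := by
      unfold D11_zz_D11; ring
    rw [e]
    have h6 : (gd R z).z (ph s w, y) - (gd R z).z (ph s w', y) =
      z (ph s w, y) - z (ph s w', y) := rfl
    rw [h6] at h5
    have h10 : 0 ≤ L * ‖z (ph s w, y) - z (ph s w', y)‖ := by positivity
    linarith
  · intro p h1 h2
    rw [D11_dz_zz_D11]
    have : ‖dz z (ph s p.1, p.2)‖ ≤ L := h.dbd (ph s p.1, p.2) (S.w hκ1 h1).2 (S.y h2)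
    linarith
  · intro p q h1 h2 h3 h4
    rw [D11_dz_zz_D11, D11_dz_zz_D11]
    have h5 := h.lip2 (ph s p.1, p.2) (ph s q.1, q.2)
      (S.w hκ1 h1).2 (S.y h2) (S.w hκ1 h3).2 (S.y h4)
    exact h5.trans (hsum p q h1 h3)

theorem D11_dz_FF_D11 {g : GD} {F : ℂ × ℂ → ℂ} (hF : SF κ L g F) (hL : 1 ≤ L)
    (hκ1 : κ ≤ 1) (S : D11_S_D11 r' κ L σ s c) {p : ℂ × ℂ} (h1 : ‖p.1‖ < κ / 2)
    (h2 : ‖p.2‖ < κ / 2) :
    dz (D11_FF_D11 F s) p = phd (-s) (F (ph s p.1, p.2)) * dz F (ph s p.1, p.2) := by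
  have hw := S.w hκ1 h1
  have hy := S.y h2
  have hopen : IsOpen {p : ℂ × ℂ | ‖p.1‖ < κ ∧ ‖p.2‖ < κ} := D11_isOpen_Bo_D11 κ
  have hd : DifferentiableAt ℂ F (ph s p.1, p.2) :=
    hF.diff.differentiableAt (hopen.mem_nhds ⟨hw.2, hy⟩)
  have hd2 : DifferentiableAt ℂ (fun y' : ℂ => F (ph s p.1, y')) p.2 := by
    have : DifferentiableAt ℂ (fun y' : ℂ => ((ph s p.1, y') : ℂ × ℂ)) p.2 := by
      fun_prop
    exact DifferentiableAt.comp p.2 hd this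
  have h3 : HasDerivAt (fun y' : ℂ => F (ph s p.1, y')) (dz F (ph s p.1, p.2)) p.2 :=
    hd2.hasDerivAt
  have hb := hF.bd (ph s p.1, p.2) hw.2 hy
  have hne : 1 - Complex.I * ((-s : ℝ) : ℂ) * F (ph s p.1, p.2) ≠ 0 := by
    apply gden_ne
    rw [abs_neg]
    exact S.u (by linarith)
  have h6 := ph_hasDeriv hne
  have h7 : HasDerivAt (fun y : ℂ => ph (-s) (F (ph s p.1, y)))
      (phd (-s) (F (ph s p.1, p.2)) * dz F (ph s p.1, p.2)) p.2 :=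
    HasDerivAt.comp (h₂ := ph (-s)) (h := fun y : ℂ => F (ph s p.1, y)) p.2 h6 h3
  exact h7.deriv

theorem D11_sf_D11 {g g' : GD} {F : ℂ × ℂ → ℂ} (hF : SF κ L g F) (hL : 1 ≤ L)
    (hκ1 : κ ≤ 1) (S : D11_S_D11 r' κ L σ s c)
    (hpos : ∀ p : ℂ × ℂ, ‖p.1‖ < κ / 2 → ‖p.2‖ < κ / 2 → 0 < rho g' p →
      rho g' p ≤ 1024 * L ^ 2 * (D11_FF_D11 F s p).im) :
    SF (κ / 2) (1024 * L ^ 2) g' (D11_FF_D11 F s) := by
  have hs1 := S.s1
  have hs1' : |(-s)| ≤ 1 / 16 := by rwa [abs_neg]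
  have hLL : L ≤ L ^ 2 := by nlinarith
  have hb : ∀ {p : ℂ × ℂ}, ‖p.1‖ < κ / 2 → ‖p.2‖ < κ / 2 →
      |(-s)| * ‖F (ph s p.1, p.2)‖ ≤ 1 / 16 ∧ ‖F (ph s p.1, p.2)‖ ≤ L := by
    intro p h1 h2
    have h3 := hF.bd (ph s p.1, p.2) (S.w hκ1 h1).2 (S.y h2)
    refine ⟨?_, h3⟩
    rw [abs_neg]
    exact S.u (by linarith)
  have hqq : ∀ {p q : ℂ × ℂ}, ‖p.1‖ < κ / 2 → ‖p.2‖ < κ / 2 → ‖q.1‖ < κ / 2 → ‖q.2‖ < κ / 2 →
      L * (‖ph s p.1 - ph s q.1‖ + ‖p.2 - q.2‖) ≤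
        L * (4 * (‖p.1 - q.1‖ + ‖p.2 - q.2‖)) := by
    intro p q h1 h2 h3 h4
    have h6 := ph_lip hs1 (S.w hκ1 h1).1 (S.w hκ1 h3).1
    refine mul_le_mul_of_nonneg_left ?_ (by linarith)
    have := norm_nonneg (p.2 - q.2)
    linarith
  refine ⟨?_, ?_, ?_, ?_, ?_, hpos, ?_⟩
  · -- differentiability
    have h1 : MapsTo (fun p : ℂ × ℂ => (ph s p.1, p.2))
        {p : ℂ × ℂ | ‖p.1‖ < κ / 2 ∧ ‖p.2‖ < κ / 2} {p : ℂ × ℂ | ‖p.1‖ < κ ∧ ‖p.2‖ < κ} := by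
      intro p hp
      exact ⟨(S.w hκ1 hp.1).2, S.y hp.2⟩
    have h2 : DifferentiableOn ℂ (fun p : ℂ × ℂ => (ph s p.1, p.2))
        {p : ℂ × ℂ | ‖p.1‖ < κ / 2 ∧ ‖p.2‖ < κ / 2} := by
      intro p hp
      have h3 : DifferentiableAt ℂ (ph s) p.1 := ph_dat (den_ne hs1 (S.w hκ1 hp.1).1)
      have h4 : DifferentiableAt ℂ (fun p : ℂ × ℂ => ph s p.1) p :=
        DifferentiableAt.comp p h3 differentiableAt_fst
      exact (h4.prodMk (by fun_prop)).differentiableWithinAt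
    have h3 : DifferentiableOn ℂ (fun p : ℂ × ℂ => F (ph s p.1, p.2))
        {p : ℂ × ℂ | ‖p.1‖ < κ / 2 ∧ ‖p.2‖ < κ / 2} := hF.diff.comp h2 h1
    intro p hp
    have h5 : DifferentiableAt ℂ (ph (-s)) (F (ph s p.1, p.2)) :=
      (ph_hasDeriv (gden_ne (hb hp.1 hp.2).1)).differentiableAt
    exact h5.comp_differentiableWithinAt p (h3 p hp)
  · -- bound
    intro p h1 h2
    obtain ⟨h3, h4⟩ := hb h1 h2
    have h5 := gph_bd hs1' h3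
    unfold D11_FF_D11
    nlinarith
  · -- Lipschitz
    intro p q h1 h2 h3 h4
    have h5 := gph_lip hs1' (hb h1 h2).1 (hb h3 h4).1
    have h6 := hF.lip (ph s p.1, p.2) (ph s q.1, q.2)
      (S.w hκ1 h1).2 (S.y h2) (S.w hκ1 h3).2 (S.y h4)
    have h7 := hqq h1 h2 h3 h4
    simp only at h6
    unfold D11_FF_D11
    have h8 : 0 ≤ ‖p.1 - q.1‖ + ‖p.2 - q.2‖ := by positivity
    have h9 : L * (‖p.1 - q.1‖ + ‖p.2 - q.2‖) ≤ L ^ 2 * (‖p.1 - q.1‖ + ‖p.2 - q.2‖) :=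
      mul_le_mul_of_nonneg_right hLL h8
    have h10 : 0 ≤ L ^ 2 * (‖p.1 - q.1‖ + ‖p.2 - q.2‖) := by positivity
    linarith
  · -- derivative bound
    intro p h1 h2
    rw [D11_dz_FF_D11 hF hL hκ1 S h1 h2, norm_mul]
    have h3 := phd_bd hs1' (hb h1 h2).1
    have h4 := hF.dbd (ph s p.1, p.2) (S.w hκ1 h1).2 (S.y h2)
    have h6 : ‖phd (-s) (F (ph s p.1, p.2))‖ * ‖dz F (ph s p.1, p.2)‖ ≤ 2 * L :=
      mul_le_mul h3 h4 (norm_nonneg _) (by norm_num)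
    nlinarith
  · -- second Lipschitz
    intro p q h1 h2 h3 h4
    rw [D11_dz_FF_D11 hF hL hκ1 S h1 h2, D11_dz_FF_D11 hF hL hκ1 S h3 h4]
    obtain ⟨a, ha⟩ : ∃ a, a = phd (-s) (F (ph s p.1, p.2)) := ⟨_, rfl⟩
    obtain ⟨a', ha'⟩ : ∃ a', a' = phd (-s) (F (ph s q.1, q.2)) := ⟨_, rfl⟩
    obtain ⟨b, hb1⟩ : ∃ b, b = dz F (ph s p.1, p.2) := ⟨_, rfl⟩
    obtain ⟨b', hb1'⟩ : ∃ b', b' = dz F (ph s q.1, q.2) := ⟨_, rfl⟩
    rw [← ha, ← ha', ← hb1, ← hb1']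
    have k1 : ‖a - a'‖ ≤ 4 * L * (‖p.1 - q.1‖ + ‖p.2 - q.2‖) := by
      rw [ha, ha']
      have h5 := phd_lip hs1' (hb h1 h2).1 (hb h3 h4).1
      have h6 := hF.lip (ph s p.1, p.2) (ph s q.1, q.2)
        (S.w hκ1 h1).2 (S.y h2) (S.w hκ1 h3).2 (S.y h4)
      have h7 := hqq h1 h2 h3 h4
      simp only at h6
      linarith
    have k2 : ‖b - b'‖ ≤ 4 * L * (‖p.1 - q.1‖ + ‖p.2 - q.2‖) := by
      rw [hb1, hb1']
      have h6 := hF.dlip (ph s p.1, p.2) (ph s q.1, q.2)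
        (S.w hκ1 h1).2 (S.y h2) (S.w hκ1 h3).2 (S.y h4)
      have h7 := hqq h1 h2 h3 h4
      simp only at h6
      linarith
    have k3 : ‖b‖ ≤ L := by
      rw [hb1]; exact hF.dbd _ (S.w hκ1 h1).2 (S.y h2)
    have k4 : ‖a'‖ ≤ 2 := by
      rw [ha']; exact phd_bd hs1' (hb h3 h4).1
    have e : a * b - a' * b' = (a - a') * b + a' * (b - b') := by ring
    rw [e]
    have h8 : 0 ≤ ‖p.1 - q.1‖ + ‖p.2 - q.2‖ := by positivity
    have k5 : ‖(a - a') * b‖ ≤ 4 * L * (‖p.1 - q.1‖ + ‖p.2 - q.2‖) * L := by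
      rw [norm_mul]
      exact mul_le_mul k1 k3 (norm_nonneg _) (by positivity)
    have k6 : ‖a' * (b - b')‖ ≤ 2 * (4 * L * (‖p.1 - q.1‖ + ‖p.2 - q.2‖)) := by
      rw [norm_mul]
      exact mul_le_mul k4 k2 (norm_nonneg _) (by norm_num)
    have k7 := norm_add_le ((a - a') * b) (a' * (b - b'))
    have h9 : L * (‖p.1 - q.1‖ + ‖p.2 - q.2‖) ≤ L ^ 2 * (‖p.1 - q.1‖ + ‖p.2 - q.2‖) :=
      mul_le_mul_of_nonneg_right hLL h8
    have h10 : 0 ≤ L ^ 2 * (‖p.1 - q.1‖ + ‖p.2 - q.2‖) := by positivity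
    nlinarith
  · -- the area
    intro ζ b h hζ hh
    have hζ' := S.w hκ1 hζ
    by_cases hne : ∃ η₀ : ℂ, ‖η₀‖ < κ / 2 / 2 ∧ ‖D11_FF_D11 F s (ζ, η₀) - b‖ < h
    swap
    · have hempty : {η : ℂ | ‖η‖ < κ / 2 / 2 ∧ ‖D11_FF_D11 F s (ζ, η) - b‖ < h} = ∅ := by
        rw [Set.eq_empty_iff_forall_notMem]
        intro η hη
        exact hne ⟨η, hη⟩
      rw [hempty]
      simp
    obtain ⟨η₀, hη₀, hη₀b⟩ := hne
    have hκ0 : 0 < κ := by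
      have := norm_nonneg η₀
      linarith
    have hη₀' : ‖η₀‖ < κ / 2 := by linarith
    obtain ⟨b', hb'⟩ : ∃ b', b' = F (ph s ζ, η₀) := ⟨_, rfl⟩
    obtain ⟨B, hB⟩ : ∃ B : Set ℂ, B = {η : ℂ | ‖η‖ < κ / 2 ∧ ‖F (ph s ζ, η) - b'‖ < 8 * h} := ⟨_, rfl⟩
    have hBo : IsOpen B := by
      have h1 : ContinuousOn (fun η : ℂ => F (ph s ζ, η)) {η : ℂ | ‖η‖ < κ / 2} := by
        refine hF.diff.continuousOn.comp (by fun_prop) ?_
        intro η hη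
        exact ⟨hζ'.2, lt_trans hη (by linarith)⟩
      have h2 : ContinuousOn (fun η : ℂ => ‖F (ph s ζ, η) - b'‖) {η : ℂ | ‖η‖ < κ / 2} :=
        (h1.sub continuousOn_const).norm
      have h3 := h2.isOpen_inter_preimage (isOpen_lt continuous_norm continuous_const)
        (isOpen_Iio (a := 8 * h))
      rw [hB]
      exact h3
    have hsub : {η : ℂ | ‖η‖ < κ / 2 / 2 ∧ ‖D11_FF_D11 F s (ζ, η) - b‖ < h} ⊆ B := by
      rintro η ⟨h1, h2⟩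
      have h1' : ‖η‖ < κ / 2 := by linarith
      have hu := hb (p := (ζ, η)) hζ h1'
      have hu₀ := hb (p := (ζ, η₀)) hζ hη₀'
      simp only at hu hu₀
      rw [hB]
      refine ⟨h1', ?_⟩
      have e1 : F (ph s ζ, η) = ph s (D11_FF_D11 F s (ζ, η)) := by
        unfold D11_FF_D11
        rw [gph_ps hs1 (by have := hu.1; rwa [abs_neg] at this)]
      have e2 : b' = ph s (D11_FF_D11 F s (ζ, η₀)) := by
        rw [hb']
        unfold D11_FF_D11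
        rw [gph_ps hs1 (by have := hu₀.1; rwa [abs_neg] at this)]
      have k1 : ‖D11_FF_D11 F s (ζ, η)‖ ≤ 4 * L := by
        have := gph_bd hs1' hu.1
        unfold D11_FF_D11
        simp only
        linarith [hu.2]
      have k2 : ‖D11_FF_D11 F s (ζ, η₀)‖ ≤ 4 * L := by
        have := gph_bd hs1' hu₀.1
        unfold D11_FF_D11
        simp only
        linarith [hu₀.2]
      have k3 := gph_lip hs1 (S.u k1) (S.u k2)
      have k4 : ‖D11_FF_D11 F s (ζ, η) - D11_FF_D11 F s (ζ, η₀)‖ < 2 * h := by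
        have e3 : D11_FF_D11 F s (ζ, η) - D11_FF_D11 F s (ζ, η₀) =
            (D11_FF_D11 F s (ζ, η) - b) - (D11_FF_D11 F s (ζ, η₀) - b) := by ring
        rw [e3]
        refine lt_of_le_of_lt (norm_sub_le _ _) ?_
        linarith
      show ‖F (ph s ζ, η) - b'‖ < 8 * h
      rw [e1, e2]
      linarith
    have hpt : ∀ η ∈ B, ENNReal.ofReal (‖dz (D11_FF_D11 F s) (ζ, η)‖ ^ 2) ≤
        4 * ENNReal.ofReal (‖dz F (ph s ζ, η)‖ ^ 2) := by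
      intro η hη
      rw [hB] at hη
      have h1 : ‖η‖ < κ / 2 := hη.1
      rw [D11_dz_FF_D11 (p := (ζ, η)) hF hL hκ1 S hζ h1]
      simp only
      have h3 := phd_bd hs1' (hb (p := (ζ, η)) hζ h1).1
      simp only at h3
      have e4 : (4 : ENNReal) = ENNReal.ofReal 4 := by norm_num
      rw [e4, ← ENNReal.ofReal_mul (by norm_num)]
      apply ENNReal.ofReal_le_ofReal
      rw [norm_mul]
      have h5 : ‖phd (-s) (F (ph s ζ, η))‖ * ‖dz F (ph s ζ, η)‖ ≤ 2 * ‖dz F (ph s ζ, η)‖ :=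
        mul_le_mul_of_nonneg_right h3 (norm_nonneg _)
      calc (‖phd (-s) (F (ph s ζ, η))‖ * ‖dz F (ph s ζ, η)‖) ^ 2
          ≤ (2 * ‖dz F (ph s ζ, η)‖) ^ 2 := pow_le_pow_left₀ (by positivity) h5 2
        _ = 4 * ‖dz F (ph s ζ, η)‖ ^ 2 := by ring
    calc ∫⁻ η in {η : ℂ | ‖η‖ < κ / 2 / 2 ∧ ‖D11_FF_D11 F s (ζ, η) - b‖ < h},
          ENNReal.ofReal (‖dz (D11_FF_D11 F s) (ζ, η)‖ ^ 2)
        ≤ ∫⁻ η in B, ENNReal.ofReal (‖dz (D11_FF_D11 F s) (ζ, η)‖ ^ 2) := lintegral_mono_set hsub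
      _ ≤ ∫⁻ η in B, 4 * ENNReal.ofReal (‖dz F (ph s ζ, η)‖ ^ 2) :=
          setLIntegral_mono' hBo.measurableSet hpt
      _ = 4 * ∫⁻ η in B, ENNReal.ofReal (‖dz F (ph s ζ, η)‖ ^ 2) :=
          lintegral_const_mul' _ _ (by norm_num)
      _ ≤ 4 * ENNReal.ofReal (L * (8 * h) ^ 2) := by
          gcongr
          rw [hB]
          exact hF.area (ph s ζ) b' (8 * h) hζ'.2 (by linarith)
      _ = ENNReal.ofReal (4 * (L * (8 * h) ^ 2)) := by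
          rw [ENNReal.ofReal_mul (by norm_num : (0 : ℝ) ≤ 4)]
          congr 1
          norm_num
      _ ≤ ENNReal.ofReal (1024 * L ^ 2 * h ^ 2) := by
          apply ENNReal.ofReal_le_ofReal
          have : L * h ^ 2 ≤ L ^ 2 * h ^ 2 := mul_le_mul_of_nonneg_right hLL (by positivity)
          nlinarith

end

section

variable {K : ℕ} {r r' κ L σ s c : ℝ} {R : ℂ × ℂ → ℝ} {τ : ℂ} {W z : Fin K → ℂ × ℂ → ℂ}

/-- the point `z k (0, 0)` -/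
theorem D11_z_zero_D11 (h : LC r κ L 0 R W z) (k : Fin K) : z k (0, 0) = 0 ∧ W k (0, 0) = 0 := by
  have h1 : W k (0, 0) = 0 := by
    have := h.ctr k
    exact norm_le_zero_iff.mp this
  have h2 : ((0 : ℂ), (0 : ℂ)) ∈ Bo r := by
    refine ⟨?_, ?_⟩
    · simpa using h.r0
    · simpa using h.r0
  have hκ := (h.gm k).κ0
  have h3 := h.z2 k (0, 0) h2 (by rw [h1]; simpa using hκ) (by simpa using hκ)
  rw [h1] at h3
  exact ⟨h3, h1⟩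

theorem D11_near_D11 (h : LC r κ L 0 R W z) (hκ : 16 * L * κ ≤ r') (k : Fin K) {p : ℂ × ℂ}
    (h1 : ‖p.1‖ < κ) (h2 : ‖p.2‖ < κ) : ‖z k p‖ ≤ r' / 8 := by
  have hκ0 := (h.gm k).κ0
  have hL := (h.gm k).L1
  have h3 : ‖z k p - z k (0, 0)‖ ≤ L * (‖p.1 - 0‖ + ‖p.2 - 0‖) :=
    (h.gm k).lip p (0, 0) h1 h2 (by simpa using hκ0) (by simpa using hκ0)
  rw [(D11_z_zero_D11 h k).1] at h3
  simp only [sub_zero] at h3
  have h4 : L * (‖p.1‖ + ‖p.2‖) ≤ L * (κ + κ) :=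
    mul_le_mul_of_nonneg_left (by linarith) (by linarith)
  linarith

/-- bound for `W` -/
theorem D11_W_bd_D11 (h : LC r κ L 0 R W z) (hL : 1 ≤ L) (k : Fin K) {x : ℂ × ℂ} (hx : x ∈ Bo r) :
    ‖W k x‖ ≤ 2 * L := by
  have h2 : ((0 : ℂ), (0 : ℂ)) ∈ Bo r := by
    refine ⟨?_, ?_⟩
    · simpa using h.r0
    · simpa using h.r0
  have h3 := h.lip k x hx (0, 0) h2
  rw [(D11_z_zero_D11 h k).2, sub_zero] at h3
  simp only [sub_zero] at h3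
  have h4 := hx.1
  have h5 := hx.2
  have h6 := h.r1
  have h7 : L * (‖x.1‖ + ‖x.2‖) ≤ L * (1 + 1) :=
    mul_le_mul_of_nonneg_left (by linarith) (by linarith)
  linarith

theorem D11_pos_D11 (h : LC r κ L 0 R W z) (hL : 1 ≤ L) (S : D11_S_D11 r' κ L σ s c)
    (T : D11_T_D11 r r' L s c R τ) (k : Fin K) {x : ℂ × ℂ} (hx : x ∈ Bo r')
    (hp : 0 < R x) : R x ≤ 1024 * L ^ 2 * (D11_ww_D11 (W k) s τ x).im := by
  have hs := S.s0
  have hm := T.mem S hx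
  have hup := T.up x hx
  have hL0 : 0 < L := by linarith
  have hc : L ^ 2 * (1 + 4 * L ^ 2) ≤ c := by
    rw [S.hc]
    have a1 : L ^ 2 ≤ L ^ 4 := by
      have : 1 ≤ L ^ 2 := one_le_pow₀ hL
      nlinarith
    nlinarith
  have hcs : 0 ≤ c * s / L := by
    have : 0 ≤ c := by
      have : (0 : ℝ) ≤ L ^ 2 * (1 + 4 * L ^ 2) := by positivity
      linarith
    positivity
  have h2 : 0 < R (x.1 + τ, x.2) := by linarith
  have h3 := h.pos k _ hm h2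
  obtain ⟨u, hu⟩ : ∃ u, u = W k (x.1 + τ, x.2) := ⟨_, rfl⟩
  have h4 : ‖u‖ ≤ 2 * L := by rw [hu]; exact D11_W_bd_D11 h hL k hm
  rw [← hu] at h3
  have h5 : s * ‖u‖ ≤ 1 / 16 := by
    have := S.u (u := u) (by linarith)
    rwa [abs_of_pos hs] at this
  have h6 : D11_ww_D11 (W k) s τ x = ph (-s) u := by rw [hu]; rfl
  rw [h6]
  have h7 : ‖u‖ ^ 2 ≤ 4 * L ^ 2 := by
    calc ‖u‖ ^ 2 ≤ (2 * L) ^ 2 := pow_le_pow_left₀ (norm_nonneg _) h4 2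
      _ = 4 * L ^ 2 := by ring
  have h8 : R x ≤ L * (u.im - s * (1 + ‖u‖ ^ 2)) := by
    have b1 : L * s * (1 + ‖u‖ ^ 2) ≤ L * s * (1 + 4 * L ^ 2) :=
      mul_le_mul_of_nonneg_left (by linarith) (by positivity)
    have b2 : L * s * (1 + 4 * L ^ 2) ≤ c * s / L := by
      rw [le_div_iff₀ hL0]
      have : L ^ 2 * (1 + 4 * L ^ 2) * s ≤ c * s := mul_le_mul_of_nonneg_right hc hs.le
      nlinarith
    nlinarith
  rcases im_phn hs S.s16 h5 with h10 | h10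
  · have h11 : R x ≤ L * (2 * (ph (-s) u).im) := by
      have : L * (u.im - s * (1 + ‖u‖ ^ 2)) ≤ L * (2 * (ph (-s) u).im) :=
        mul_le_mul_of_nonneg_left (by linarith) (by linarith)
      linarith
    have h13 : 0 < (ph (-s) u).im := by
      by_contra hcon
      push Not at hcon
      nlinarith
    have h14 : L * (ph (-s) u).im ≤ L ^ 2 * (ph (-s) u).im :=
      mul_le_mul_of_nonneg_right (by nlinarith) h13.le
    have h15 : 0 < L ^ 2 * (ph (-s) u).im := by positivity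
    linarith
  · exfalso
    have : L * (u.im - s * (1 + ‖u‖ ^ 2)) ≤ 0 := mul_nonpos_of_nonneg_of_nonpos (by linarith) h10
    linarith

theorem D11_zmem_D11 (h : LC r κ L 0 R W z) (hL : 1 ≤ L) (hκ1 : κ ≤ 1) (hκr : 16 * L * κ ≤ r')
    (S : D11_S_D11 r' κ L σ s c) (T : D11_T_D11 r r' L s c R τ) (k : Fin K)
    {p : ℂ × ℂ} (h1 : ‖p.1‖ < κ / 2) (h2 : ‖p.2‖ < κ / 2) :
    (D11_zz_D11 (z k) s τ p, p.2) ∈ Bo r' := by
  have hr0 := T.r'0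
  have h3 := D11_near_D11 h hκr k (p := (ph s p.1, p.2)) (S.w hκ1 h1).2 (S.y h2)
  have h4 := T.n
  have h5 := S.cs
  have hκ0 := (h.gm k).κ0
  refine ⟨?_, ?_⟩
  · show ‖z k (ph s p.1, p.2) - τ‖ < r'
    refine lt_of_le_of_lt (norm_sub_le _ _) ?_
    linarith
  · show ‖p.2‖ < r'
    nlinarith

theorem D11_lc_D11 (h : LC r κ L 0 R W z) (hL : 1 ≤ L) (hκ : 0 < κ) (hκ1 : κ ≤ 1)
    (hκr : 16 * L * κ ≤ r')
    (S : D11_S_D11 r' κ L σ s c) (T : D11_T_D11 r r' L s c R τ) :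
    LC r' (κ / 2) (1024 * L ^ 2) σ R (fun k => D11_ww_D11 (W k) s τ) (fun k => D11_zz_D11 (z k) s τ) := by
  have hs := S.s0
  have hs1 := S.s1
  have hs1' : |(-s)| ≤ 1 / 16 := by rwa [abs_neg]
  have hr0 := T.r'0
  have hr'r := T.r'r
  have hr1 := h.r1
  have hLL : L ≤ L ^ 2 := by nlinarith
  have hr'1 : r' ≤ 1 := by linarith
  have hWu : ∀ (k : Fin K) {x : ℂ × ℂ}, x ∈ Bo r' →
      |(-s)| * ‖W k (x.1 + τ, x.2)‖ ≤ 1 / 16 := by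
    intro k x hx
    rw [abs_neg]
    have := D11_W_bd_D11 h hL k (T.mem S hx)
    exact S.u (by linarith)
  have hcan : ∀ (j : Fin K) (p : ℂ × ℂ), D11_zz_D11 (z j) s τ p + τ = z j (ph s p.1, p.2) := by
    intro j p
    unfold D11_zz_D11
    ring
  have hz1 : ∀ (k : Fin K) (p : ℂ × ℂ), ‖p.1‖ < κ / 2 → ‖p.2‖ < κ / 2 →
      D11_ww_D11 (W k) s τ (D11_zz_D11 (z k) s τ p, p.2) = p.1 := by
    intro k p h1 h2
    show ph (-s) (W k (D11_zz_D11 (z k) s τ p + τ, p.2)) = p.1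
    rw [hcan]
    have h3 := (h.z1 k (ph s p.1, p.2) (S.w hκ1 h1).2 (S.y h2)).2
    simp only at h3
    rw [h3]
    have h4 := ph_ps hs1' (S.w hκ1 h1).1
    rwa [neg_neg] at h4
  have hCR : CR r' L R := D11_CR_mono_D11 h.cr hr0 (by linarith) le_rfl
  refine ⟨hr0, hr'1, D11_CR_mono_D11 h.cr hr0 (by linarith) (by linarith), ?_, ?_, ?_, ?_, ?_, ?_,
    ?_, ?_⟩
  · intro k
    have hZ : D11_Z_D11 r' (κ / 2) (512 * L) R (D11_zz_D11 (z k) s τ) := by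
      refine D11_Zs_D11 (h.gm k) S hr'1 (fun p h1 h2 => D11_zmem_D11 h hL hκ1 hκr S T k h1 h2) ?_
      intro p h1 h2 h3
      have h4 := D11_pos_D11 h hL S T k (D11_zmem_D11 h hL hκ1 hκr S T k h1 h2) h3
      rw [hz1 k p h1 h2] at h4
      by_contra hcon
      push Not at hcon
      have : 1024 * L ^ 2 * p.1.im ≤ 0 := mul_nonpos_of_nonneg_of_nonpos (by positivity) hcon
      linarith
    have h5 := D11_gm_D11 hCR hZ
    have e : 2 * L * (512 * L) = 1024 * L ^ 2 := by ring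
    rw [e] at h5
    exact h5
  · -- differentiability
    intro k
    have h1 : MapsTo (fun x : ℂ × ℂ => (x.1 + τ, x.2)) (Bo r') (Bo r) :=
      fun x hx => T.mem S hx
    have h2 : DifferentiableOn ℂ (fun x : ℂ × ℂ => (x.1 + τ, x.2)) (Bo r') := by fun_prop
    have h3 : DifferentiableOn ℂ (fun x : ℂ × ℂ => W k (x.1 + τ, x.2)) (Bo r') :=
      (h.diff k).comp h2 h1
    intro x hx
    have h5 : DifferentiableAt ℂ (ph (-s)) (W k (x.1 + τ, x.2)) :=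
      (ph_hasDeriv (gden_ne (hWu k hx))).differentiableAt
    exact h5.comp_differentiableWithinAt x (h3 x hx)
  · -- Lipschitz
    intro k x hx y hy
    have h1 := gph_lip hs1' (hWu k hx) (hWu k hy)
    have h2 := h.lip k _ (T.mem S hx) _ (T.mem S hy)
    have h3 : (x.1 + τ) - (y.1 + τ) = x.1 - y.1 := by ring
    simp only [h3] at h2
    have h6 : L * (‖x.1 - y.1‖ + ‖x.2 - y.2‖) ≤ L ^ 2 * (‖x.1 - y.1‖ + ‖x.2 - y.2‖) :=
      mul_le_mul_of_nonneg_right hLL (by positivity)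
    have h7 : 0 ≤ L ^ 2 * (‖x.1 - y.1‖ + ‖x.2 - y.2‖) := by positivity
    show ‖ph (-s) (W k (x.1 + τ, x.2)) - ph (-s) (W k (y.1 + τ, y.2))‖ ≤ _
    linarith
  · -- centre
    intro k
    have h10 : ((0 : ℂ), (0 : ℂ)) ∈ Bo r' := by
      refine ⟨?_, ?_⟩
      · simpa using hr0
      · simpa using hr0
    have h1r : ((0 : ℂ), (0 : ℂ)) ∈ Bo r := by
      refine ⟨?_, ?_⟩
      · simpa using h.r0
      · simpa using h.r0
    have h1 := h.lip k _ (T.mem S h10) _ h1r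
    rw [(D11_z_zero_D11 h k).2, sub_zero] at h1
    simp only [zero_add, sub_zero, norm_zero, add_zero] at h1
    have h3 : L * ‖τ‖ ≤ L * (c * s) := mul_le_mul_of_nonneg_left T.n (by linarith)
    have h4 := S.s6
    have h5 := S.sσ
    have h6 : ‖W k (τ, 0)‖ ≤ 1 := by linarith
    have h7 := ph_sub hs1' h6
    rw [abs_neg, abs_of_pos hs] at h7
    have h8 : ‖ph (-s) (W k (τ, 0))‖ ≤
        ‖ph (-s) (W k (τ, 0)) - W k (τ, 0)‖ + ‖W k (τ, 0)‖ := by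
      have := norm_add_le (ph (-s) (W k (τ, 0)) - W k (τ, 0)) (W k (τ, 0))
      rwa [sub_add_cancel] at this
    show ‖ph (-s) (W k (0 + τ, 0))‖ ≤ σ
    rw [zero_add]
    linarith
  · intro k x hx hp
    exact D11_pos_D11 h hL S T k hx hp
  · -- z1
    intro k p h1 h2
    exact ⟨D11_zmem_D11 h hL hκ1 hκr S T k h1 h2, hz1 k p h1 h2⟩
  · -- z2
    intro k x hx h1 h2
    have e1 : ph s (D11_ww_D11 (W k) s τ x) = W k (x.1 + τ, x.2) := by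
      unfold D11_ww_D11
      exact gph_ps hs1 (by have := hWu k hx; rwa [abs_neg] at this)
    have h1' : ‖D11_ww_D11 (W k) s τ x‖ < κ / 2 := h1
    have h3 := (S.w hκ1 h1').2
    rw [e1] at h3
    have h4 := h.z2 k _ (T.mem S hx) h3 (S.y h2)
    show z k (ph s (D11_ww_D11 (W k) s τ x), x.2) - τ = x.1
    simp only at h4
    rw [e1, h4]
    ring
  · -- sf
    intro j k
    have e : (fun p : ℂ × ℂ => D11_ww_D11 (W k) s τ (D11_zz_D11 (z j) s τ p, p.2)) =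
        D11_FF_D11 (fun p => W k (z j p, p.2)) s := by
      funext p
      show ph (-s) (W k (D11_zz_D11 (z j) s τ p + τ, p.2)) =
        ph (-s) (W k (z j (ph s p.1, p.2), p.2))
      rw [hcan]
    show SF (κ / 2) (1024 * L ^ 2) (gd R (D11_zz_D11 (z j) s τ))
      (fun p : ℂ × ℂ => D11_ww_D11 (W k) s τ (D11_zz_D11 (z j) s τ p, p.2))
    rw [e]
    refine D11_sf_D11 (h.sf j k) hL hκ1 S ?_
    intro p h1 h2 h3
    have e2 : D11_FF_D11 (fun p : ℂ × ℂ => W k (z j p, p.2)) s p =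
        D11_ww_D11 (W k) s τ (D11_zz_D11 (z j) s τ p, p.2) := (congrFun e p).symm
    have e3 : rho (gd R (D11_zz_D11 (z j) s τ)) p = R (D11_zz_D11 (z j) s τ p, p.2) := rfl
    rw [e3] at h3 ⊢
    rw [e2]
    exact D11_pos_D11 h hL S T k (D11_zmem_D11 h hL hκ1 hκr S T j h1 h2) h3

end

/-- existence of the translation -/
theorem D11_exT_D11 {r r' L s c : ℝ} {R : ℂ × ℂ → ℝ} (h : CR r L R) (hr' : r' = r / (2 * L ^ 2))
    (hs : 0 < s) (hc : 0 < c) (hcs : c * s ≤ r' / 16) : ∃ τ : ℂ, D11_T_D11 r r' L s c R τ := by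
  have hL := h.L1
  have hL0 : 0 < L := by linarith
  have hr := h.r0
  have hr1 := h.r1
  have hr'0 : 0 < r' := by rw [hr']; positivity
  have hL2 : 1 ≤ L ^ 2 := one_le_pow₀ hL
  have e1 : 2 * L ^ 2 * r' = r := by
    rw [hr']
    field_simp
  have hr'r : 2 * r' ≤ r := by nlinarith
  have h0 : ((0 : ℂ), (0 : ℂ)) ∈ Bo r := by
    refine ⟨?_, ?_⟩
    · simpa using hr
    · simpa using hr
  obtain ⟨d, hd⟩ : ∃ d, d = d1 R (0, 0) := ⟨_, rfl⟩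
  have hdlo := h.dlo _ h0
  rw [← hd] at hdlo
  have hd0 : 0 < ‖d‖ := by
    by_contra hcon
    push Not at hcon
    nlinarith
  obtain ⟨v, hv⟩ : ∃ v : ℂ, v = starRingEnd ℂ d / (‖d‖ : ℂ) := ⟨_, rfl⟩
  have hdc : (‖d‖ : ℂ) ≠ 0 := by exact_mod_cast hd0.ne'
  have hvn : ‖v‖ = 1 := by
    rw [hv, norm_div, Complex.norm_conj, Complex.norm_real, Real.norm_of_nonneg hd0.le]
    exact div_self hd0.ne'
  have hdv : (d * v).re = ‖d‖ := by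
    have : d * v = (‖d‖ : ℂ) := by
      rw [hv, mul_div_assoc', Complex.mul_conj, Complex.normSq_eq_norm_sq]
      rw [div_eq_iff hdc]
      push_cast
      ring
    rw [this, Complex.ofReal_re]
  have hcs0 : 0 < c * s := mul_pos hc hs
  refine ⟨((c * s : ℝ) : ℂ) * v, hr'0, hr'r, ?_, ?_⟩
  · rw [norm_mul, hvn, mul_one, Complex.norm_real, Real.norm_of_nonneg hcs0.le]
  intro x hx
  obtain ⟨t, ht⟩ : ∃ t, t = c * s := ⟨_, rfl⟩
  have ht0 : 0 < t := by rw [ht]; exact hcs0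
  rw [← ht] at hcs ⊢
  have hx1 := hx.1
  have hx2 := hx.2
  have hxr : x ∈ Bo r := ⟨by linarith, by linarith⟩
  obtain ⟨y, hy⟩ : ∃ y : ℂ × ℂ, y = (x.1 + (t : ℂ) * v, x.2) := ⟨_, rfl⟩
  have hy1 : ‖y.1‖ ≤ 2 * r' := by
    rw [hy]
    refine (norm_add_le _ _).trans ?_
    rw [norm_mul, hvn, mul_one, Complex.norm_real, Real.norm_of_nonneg ht0.le]
    linarith
  have hy1' : ‖y.1‖ < r := by
    rw [hy]
    refine (norm_add_le _ _).trans_lt ?_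
    rw [norm_mul, hvn, mul_one, Complex.norm_real, Real.norm_of_nonneg ht0.le]
    linarith
  have hy2 : ‖y.2‖ < r' := by rw [hy]; exact hx2
  have hyr : y ∈ Bo r := ⟨hy1', by linarith⟩
  have hyn : ‖y‖ ≤ 2 * r' := by
    rw [Prod.norm_def]
    exact max_le hy1 (by linarith)
  have hconc := h.conc y hyr x hxr
  have exy : x - y = -(t • ((v, (0 : ℂ)) : ℂ × ℂ)) := by
    rw [hy]
    ext <;> simp
  rw [exy, map_neg, map_smul, smul_eq_mul] at hconc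
  have hA : 1 / L ≤ fderiv ℝ R y (v, 0) := by
    have h1 : fderiv ℝ R (0, 0) (v, 0) = 2 * ‖d‖ := by
      rw [D11_re_D11, ← hd]
      simp only [mul_zero, add_zero]
      rw [hdv]
    have h2 := h.dlip y hyr _ h0
    have e2 : y - ((0 : ℂ), (0 : ℂ)) = y := by
      ext <;> simp
    rw [e2] at h2
    have h3 : |(fderiv ℝ R y - fderiv ℝ R (0, 0)) (v, 0)| ≤ L * ‖y‖ := by
      have h4 := (fderiv ℝ R y - fderiv ℝ R (0, 0)).le_opNorm ((v, 0) : ℂ × ℂ)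
      have h5 : ‖((v, 0) : ℂ × ℂ)‖ = 1 := by
        rw [Prod.norm_def]
        simp [hvn]
      rw [h5, mul_one, Real.norm_eq_abs] at h4
      exact h4.trans h2
    simp only [sub_apply] at h3
    have h6 := (abs_le.1 h3).1
    rw [h1] at h6
    have h7 : L * ‖y‖ ≤ 1 / L := by
      rw [le_div_iff₀ hL0]
      have : L * ‖y‖ * L ≤ L * (2 * r') * L := by
        refine mul_le_mul_of_nonneg_right ?_ hL0.le
        exact mul_le_mul_of_nonneg_left hyn hL0.le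
      nlinarith
    have h8 : 1 / L ≤ ‖d‖ := by
      rw [div_le_iff₀ hL0]
      linarith
    linarith
  have h9 : t * (1 / L) ≤ t * fderiv ℝ R y (v, 0) := mul_le_mul_of_nonneg_left hA ht0.le
  have h10 : t * (1 / L) = t / L := by ring
  have h11 := sq_nonneg ‖x.1 - y.1‖
  have h12 := sq_nonneg ‖x.2 - y.2‖
  rw [← hy]
  linarith

theorem D11_key_D11 {K : ℕ} {r r' κ L σ s c δ C r₁ : ℝ} {R : ℂ × ℂ → ℝ} {τ : ℂ}
    {W z : Fin K → ℂ × ℂ → ℂ}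
    (h : LC r κ L 0 R W z)
    (hL : 1 ≤ L) (hκ : 0 < κ) (hκ1 : κ ≤ 1) (hκr : 16 * L * κ ≤ r') (S : D11_S_D11 r' κ L σ s c)
    (T : D11_T_D11 r r' L s c R τ)
    (hr₁ : 0 < r₁) (hr₁' : r₁ ≤ r') (hcs : 8 * (c * s) ≤ r₁)
    (H : ∀ (R : ℂ × ℂ → ℝ) (W z : Fin K → ℂ × ℂ → ℂ), LC r' (κ / 2) (1024 * L ^ 2) σ R W z →
      ∀ (f : Fin K → ℂ → ℂ) (η : ℝ), 0 < η →
      (∀ k, DifferentiableOn ℂ (f k) {w : ℂ | -η < w.im}) →
      (∀ k, ∀ w : ℂ, 0 ≤ w.im → ‖f k w‖ ≤ 1) →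
      (∀ k, ∃ c : ℂ, Tendsto (f k) (Bornology.cobounded ℂ ⊓ 𝓟 {w : ℂ | 0 ≤ w.im}) (𝓝 c)) →
      ∀ G : ℂ × ℂ → ℂ, DifferentiableOn ℂ G {x | x ∈ Bo r' ∧ 0 < R x} →
      (∀ x ∈ Bo r', 0 < R x → ‖G x‖ ≤ 1) →
      (∀ x ∈ Bo r', 0 < R x → (∀ k, ‖f k (W k x)‖ < δ) → δ ≤ ‖G x‖) →
      Bz {x | x ∈ Bo r₁ ∧ 0 < R x} W f G C)
    (f : Fin K → ℂ → ℂ) (hf : ∀ k, DifferentiableOn ℂ (f k) {w : ℂ | 0 < w.im})
    (hfb : ∀ k, ∀ w : ℂ, 0 < w.im → ‖f k w‖ ≤ 1)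
    (G : ℂ × ℂ → ℂ) (hG : DifferentiableOn ℂ G {x | x ∈ Bo r ∧ 0 < R x})
    (hGb : ∀ x ∈ Bo r, 0 < R x → ‖G x‖ ≤ 1)
    (hlow : ∀ x ∈ Bo r, 0 < R x → (∀ k, ‖f k (W k x)‖ < δ) → δ ≤ ‖G x‖) :
    Bz {x | x ∈ Bo (r₁ / 4) ∧ L * c * s < R x} W f G C := by
  have hs := S.s0
  have hs1 := S.s1
  have hs16 := S.s16
  have hr'0 := T.r'0
  have hr'r := T.r'r
  have hL0 : 0 < L := by linarith
  have hc0 : 0 < c := by
    rw [S.hc]
    positivity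
  have hcan : ∀ (k : Fin K) {x : ℂ × ℂ}, x ∈ Bo r' →
      ph s (D11_ww_D11 (W k) s τ x) = W k (x.1 + τ, x.2) := by
    intro k x hx
    unfold D11_ww_D11
    refine gph_ps hs1 ?_
    have := D11_W_bd_D11 h hL k (T.mem S hx)
    exact S.u (by linarith)
  have hrb : ∀ x ∈ Bo r', 0 < R x → 0 < R (x.1 + τ, x.2) := by
    intro x hx hp
    have h1 := T.up x hx
    have h2 : 0 < c * s / L := by positivity
    linarith
  have hmapG : DifferentiableOn ℂ (fun x : ℂ × ℂ => (x.1 + τ, x.2))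
      {x | x ∈ Bo r' ∧ 0 < R x} := by fun_prop
  obtain ⟨g, g₀, hg, hg0, hgb, hg0b, hid⟩ := H R (fun k => D11_ww_D11 (W k) s τ)
    (fun k => D11_zz_D11 (z k) s τ) (D11_lc_D11 h hL hκ hκ1 hκr S T)
    (fun k w => f k (ph s w)) (s / 2) (by linarith)
    (fun k w hw => by
      have h1 := im_ph hs hs16 (w := w) hw
      have h2 : DifferentiableAt ℂ (f k) (ph s w) :=
        (hf k).differentiableAt
          ((isOpen_lt continuous_const Complex.continuous_im).mem_nhds h1.2)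
      exact (DifferentiableAt.comp w h2 (ph_dat h1.1)).differentiableWithinAt)
    (fun k w hw => hfb k _ (im_ph hs hs16 (by linarith)).2)
    (fun k => by
      refine ⟨f k (Complex.I / s), ?_⟩
      have h1 : 0 < (Complex.I / (s : ℂ)).im := by
        rw [Complex.div_ofReal_im, Complex.I_im]
        positivity
      have h2 : DifferentiableAt ℂ (f k) (Complex.I / s) :=
        (hf k).differentiableAt ((isOpen_lt continuous_const Complex.continuous_im).mem_nhds h1)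
      exact (h2.continuousAt.tendsto.comp (ph_tendsto hs)).mono_left inf_le_left)
    (fun x => G (x.1 + τ, x.2))
    (hG.comp hmapG (fun x hx => ⟨T.mem S hx.1, hrb x hx.1 hx.2⟩))
    (fun x hx hp => hGb _ (T.mem S hx) (hrb x hx hp))
    (fun x hx hp hlt => hlow _ (T.mem S hx) (hrb x hx hp) (fun k => by
      have h9 : ‖f k (ph s (D11_ww_D11 (W k) s τ x))‖ < δ := hlt k
      rwa [hcan k hx] at h9))
  have hmap : ∀ x ∈ {x : ℂ × ℂ | x ∈ Bo (r₁ / 4) ∧ L * c * s < R x},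
      (x.1 - τ, x.2) ∈ {x : ℂ × ℂ | x ∈ Bo r₁ ∧ 0 < R x} := by
    rintro x ⟨⟨h1, h2⟩, h3⟩
    have hn := T.n
    have h4 : (x.1 - τ, x.2) ∈ Bo r₁ := by
      refine ⟨?_, ?_⟩
      · show ‖x.1 - τ‖ < r₁
        refine (norm_sub_le _ _).trans_lt ?_
        linarith
      · show ‖x.2‖ < r₁
        linarith
    refine ⟨h4, ?_⟩
    have h5 : (x.1 - τ, x.2) ∈ Bo r := ⟨by linarith [h4.1], by linarith [h4.2]⟩
    have h6 : x ∈ Bo r := ⟨by linarith, by linarith⟩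
    have h7 := D11_R_le_D11 h.cr h6 h5
    have h8 : x - ((x.1 - τ, x.2) : ℂ × ℂ) = (τ, 0) := by
      ext <;> simp
    rw [h8] at h7
    have h9 : ‖((τ, 0) : ℂ × ℂ)‖ ≤ c * s := by
      rw [Prod.norm_def]
      refine max_le hn ?_
      simp only [norm_zero]
      positivity
    have h10 : L * ‖((τ, 0) : ℂ × ℂ)‖ ≤ L * (c * s) := mul_le_mul_of_nonneg_left h9 hL0.le
    show 0 < R (x.1 - τ, x.2)
    linarith
  have hmap2 : DifferentiableOn ℂ (fun x : ℂ × ℂ => (x.1 - τ, x.2))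
      {x : ℂ × ℂ | x ∈ Bo (r₁ / 4) ∧ L * c * s < R x} := by fun_prop
  refine ⟨fun k x => g k (x.1 - τ, x.2),
    fun x => g₀ (x.1 - τ, x.2), fun k => (hg k).comp hmap2 hmap,
    hg0.comp hmap2 hmap, fun k x hx => hgb k _ (hmap x hx), fun x hx => hg0b _ (hmap x hx), ?_⟩
  intro x hx
  have h1 := hmap x hx
  have h2 := hid _ h1
  have h3 : (x.1 - τ, x.2) ∈ Bo r' := ⟨h1.1.1.trans_le hr₁', h1.1.2.trans_le hr₁'⟩
  have h4 : ∀ k, ph s (D11_ww_D11 (W k) s τ (x.1 - τ, x.2)) = W k x := by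
    intro k
    rw [hcan k h3]
    simp only [sub_add_cancel]
  simp only [h4, sub_add_cancel] at h2
  exact h2

theorem D11_isOpen_R_D11 {r ρ L t : ℝ} {R : ℂ × ℂ → ℝ} (h : CR r L R) (hρ : ρ ≤ r) :
    IsOpen {x : ℂ × ℂ | x ∈ Bo ρ ∧ t < R x} := by
  have h1 : ContinuousOn R (Bo ρ) :=
    h.smooth.continuousOn.mono (fun x hx => ⟨hx.1.trans_le hρ, hx.2.trans_le hρ⟩)
  exact h1.isOpen_inter_preimage (D11_isOpen_Bo_D11 ρ) (isOpen_Ioi (a := t))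

/-- **TARGET** -/
theorem locV (K : ℕ) {r κ L δ : ℝ} (hr : 0 < r) (hκ : 0 < κ) (hκ1 : κ ≤ 1)
    (hL : 1 ≤ L) (hδ : 0 < δ) (hδ1 : δ ≤ 1) :
    ∃ C r₁ : ℝ, 0 < r₁ ∧ r₁ ≤ r ∧
    ∀ (R : ℂ × ℂ → ℝ) (W z : Fin K → ℂ × ℂ → ℂ), LC r κ L 0 R W z → ∀ f : Fin K → ℂ → ℂ,
      (∀ k, DifferentiableOn ℂ (f k) {w : ℂ | 0 < w.im}) →
      (∀ k, ∀ w : ℂ, 0 < w.im → ‖f k w‖ ≤ 1) →
      ∀ G : ℂ × ℂ → ℂ, DifferentiableOn ℂ G {x | x ∈ Bo r ∧ 0 < R x} →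
      (∀ x ∈ Bo r, 0 < R x → ‖G x‖ ≤ 1) →
      (∀ x ∈ Bo r, 0 < R x → (∀ k, ‖f k (W k x)‖ < δ) → δ ≤ ‖G x‖) →
      Bz {x | x ∈ Bo r₁ ∧ 0 < R x} W f G C := by
  have hL0 : 0 < L := by linarith
  have hL2 : 1 ≤ L ^ 2 := one_le_pow₀ hL
  obtain ⟨r', hr'def⟩ : ∃ r' : ℝ, r' = r / (2 * L ^ 2) := ⟨_, rfl⟩
  have hr' : 0 < r' := by rw [hr'def]; positivity
  have hr'r : 2 * r' ≤ r := by
    have e1 : 2 * L ^ 2 * r' = r := by
      rw [hr'def]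
      field_simp
    nlinarith
  obtain ⟨κ₀, hκ₀def⟩ : ∃ κ₀ : ℝ, κ₀ = min κ (r' / (16 * L)) := ⟨_, rfl⟩
  have hκ₀ : 0 < κ₀ := by
    rw [hκ₀def]
    exact lt_min hκ (by positivity)
  have hκ₀1 : κ₀ ≤ κ := by rw [hκ₀def]; exact min_le_left _ _
  have hκ₀2 : 16 * L * κ₀ ≤ r' := by
    have h1 : κ₀ ≤ r' / (16 * L) := by rw [hκ₀def]; exact min_le_right _ _
    rw [le_div_iff₀ (by positivity)] at h1
    linarith
  obtain ⟨C, r₁, σ₀, hr₁, hr₁', hσ₀, H⟩ := locU K (r := r') (κ := κ₀ / 2) (L := 1024 * L ^ 2)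
    (δ := δ) hr' (by linarith) (by linarith) (by nlinarith) hδ hδ1
  refine ⟨C, r₁ / 4, by linarith, by linarith, ?_⟩
  intro R W z h0 f hf hfb G hG hGb hlow
  have h : LC r κ₀ L 0 R W z := D11_LC_mono_D11 h0 hκ₀ hκ₀1
  obtain ⟨c, hcdef⟩ : ∃ c : ℝ, c = 5 * L ^ 4 := ⟨_, rfl⟩
  have hc : 0 < c := by rw [hcdef]; positivity
  obtain ⟨T, hT⟩ : ∃ T : ℝ, T = 16 / κ₀ + 2 * c + 64 * L + 16 * c / r' + (L * c + 4) / σ₀ +
    L * c + 8 * c / r₁ := ⟨_, rfl⟩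
  have t1 : 0 < 16 / κ₀ := by positivity
  have t2 : 0 < 64 * L := by positivity
  have t3 : 0 < 16 * c / r' := by positivity
  have t4 : 0 < (L * c + 4) / σ₀ := by positivity
  have t5 : 0 < L * c := by positivity
  have t6 : 0 < 8 * c / r₁ := by positivity
  have hTpos : 0 < T := by rw [hT]; positivity
  obtain ⟨s₀, hs₀def⟩ : ∃ s₀ : ℝ, s₀ = 1 / T := ⟨_, rfl⟩
  have hs₀ : 0 < s₀ := by rw [hs₀def]; positivity
  have hSm : ∀ s : ℝ, 0 < s → s ≤ s₀ → D11_S_D11 r' κ₀ L σ₀ s c ∧ 8 * (c * s) ≤ r₁ := by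
    intro s hs hss
    have hsT : s * T ≤ 1 := by
      rw [hs₀def, le_div_iff₀ hTpos] at hss
      exact hss
    have hle : ∀ a : ℝ, a ≤ T → s * a ≤ 1 := fun a ha =>
      (mul_le_mul_of_nonneg_left ha hs.le).trans hsT
    have u1 := hle (16 / κ₀) (by rw [hT]; linarith)
    have u3 := hle (64 * L) (by rw [hT]; linarith)
    have u4 := hle (16 * c / r') (by rw [hT]; linarith)
    have u5 := hle ((L * c + 4) / σ₀) (by rw [hT]; linarith)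
    have u6 := hle (L * c) (by rw [hT]; linarith)
    have u7 := hle (8 * c / r₁) (by rw [hT]; linarith)
    rw [mul_div_assoc', div_le_iff₀ hκ₀] at u1
    rw [mul_div_assoc', div_le_iff₀ hr'] at u4
    rw [mul_div_assoc', div_le_iff₀ hσ₀] at u5
    rw [mul_div_assoc', div_le_iff₀ hr₁] at u7
    have hs16 : s ≤ 1 / 16 := by linarith
    exact ⟨⟨hs, by linarith, by rwa [abs_of_pos hs], hs16, hcdef, by linarith, by linarith,
      by linarith, by linarith⟩, by linarith⟩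
  have key : ∀ s : ℝ, 0 < s → s ≤ s₀ →
      Bz {x | x ∈ Bo (r₁ / 4) ∧ L * c * s < R x} W f G C := by
    intro s hs hss
    obtain ⟨S, h8⟩ := hSm s hs hss
    obtain ⟨τ, hτ⟩ := D11_exT_D11 h.cr hr'def hs hc S.cs
    exact D11_key_D11 h hL hκ₀ (by linarith) hκ₀2 S hτ hr₁ hr₁' h8 H f hf hfb G hG hGb hlow
  have hsm : ∀ m : ℕ, 0 < s₀ / ((m : ℝ) + 1) := fun m => by positivity
  have hsm1 : ∀ m : ℕ, s₀ / ((m : ℝ) + 1) ≤ s₀ := fun m => by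
    rw [div_le_iff₀ (by positivity)]
    have : (0 : ℝ) ≤ m := Nat.cast_nonneg m
    nlinarith
  have hanti : ∀ m m' : ℕ, m ≤ m' → s₀ / ((m' : ℝ) + 1) ≤ s₀ / ((m : ℝ) + 1) := by
    intro m m' hm
    have : (m : ℝ) ≤ m' := by exact_mod_cast hm
    exact div_le_div_of_nonneg_left hs₀.le (by positivity) (by linarith)
  have hex := Pool.Agent.H788R3.Cor2.exhaust (C := C)
    (fun m : ℕ => {x : ℂ × ℂ | x ∈ Bo (r₁ / 4) ∧ L * c * (s₀ / ((m : ℝ) + 1)) < R x})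
    (fun m => D11_isOpen_R_D11 h.cr (by linarith))
    (fun m m' hm x hx => ⟨hx.1, lt_of_le_of_lt
      (mul_le_mul_of_nonneg_left (hanti m m' hm) t5.le) hx.2⟩)
    (fun k x => f k (W k x)) G (fun m => key _ (hsm m) (hsm1 m))
  have hU : (⋃ m : ℕ, {x : ℂ × ℂ | x ∈ Bo (r₁ / 4) ∧ L * c * (s₀ / ((m : ℝ) + 1)) < R x}) =
      {x : ℂ × ℂ | x ∈ Bo (r₁ / 4) ∧ 0 < R x} := by
    ext x
    simp only [mem_iUnion]
    constructor
    · rintro ⟨m, hx⟩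
      refine ⟨hx.1, lt_trans ?_ hx.2⟩
      have := hsm m
      positivity
    · intro hx
      have h0 : 0 < R x := hx.2
      obtain ⟨m, hm⟩ := exists_nat_gt (L * c * s₀ / R x)
      refine ⟨m, hx.1, ?_⟩
      rw [div_lt_iff₀ h0] at hm
      rw [mul_div_assoc', div_lt_iff₀ (by positivity)]
      nlinarith
  rw [hU] at hex
  exact hex

end Pool.Agent.P157D
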