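import Mathlib
import Pool.Agent.P157C.LocK
import Pool.Agent.P157D.LocV
import Pool.Agent.P157D.LCx

set_option autoImplicit false

open MeasureTheory Metric Set Filter Topology Complex

namespace Pool.Agent.P157D

open Pool.Agent.P157C (dz qq dbar Cut ExtP)

open Pool.Agent.P157C (locK_cay_U8a locK_cayI_U8a locK_cay_im_U8a locK_cayI_cay_U8a
  locK_cayI_norm_U8a locK_cayI_diff_U8a)

/-- **TARGET** -/
theorem locR (K : ℕ) {δ ρ₀ c r₀ L₀ : ℝ} (hδ : 0 < δ) (hδ1 : δ ≤ 1) (hρ₀ : 0 < ρ₀) (hc : 0 < c)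
    {R : ℂ × ℂ → ℝ} (hR : CR r₀ L₀ R) (hR0 : R (0, 0) = 0) {ψ : Fin K → ℂ × ℂ → ℂ}
    (hψ : ∀ k, AnalyticAt ℂ (ψ k) ((0 : ℂ), (0 : ℂ)))
    (hψ1 : ∀ k, ∀ᶠ x in 𝓝 ((0 : ℂ), (0 : ℂ)), 0 < R x → c * R x ≤ 1 - ‖ψ k x‖ ^ 2)
    (hψp : ∀ k, ‖ψ k (0, 0)‖ = 1) :
    ∃ C ρ : ℝ, 0 < ρ ∧ ρ ≤ ρ₀ ∧
      ∀ f : Fin K → ℂ → ℂ, (∀ k, DifferentiableOn ℂ (f k) (ball 0 1)) →
      (∀ k, ∀ w ∈ ball (0 : ℂ) 1, ‖f k w‖ ≤ 1) →
      ∀ G : ℂ × ℂ → ℂ, DifferentiableOn ℂ G {x | x ∈ Bo ρ₀ ∧ 0 < R x} →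
      (∀ x ∈ Bo ρ₀, 0 < R x → ‖G x‖ ≤ 1) →
      (∀ x ∈ Bo ρ₀, 0 < R x → (∀ k, ‖f k (ψ k x)‖ < δ) → δ ≤ ‖G x‖) →
      Bz {x | x ∈ Bo ρ ∧ 0 < R x} ψ f G C := by
  have hψ0 : ∀ k, ψ k (0, 0) ≠ 0 := by
    intro k h
    have := hψp k
    rw [h, norm_zero] at this
    exact zero_ne_one this
  set W : Fin K → ℂ × ℂ → ℂ := fun k t => locK_cay_U8a (ψ k t / ψ k (0, 0)) with hWdef
  have hcay : ∀ u : ℂ, 1 + u ≠ 0 → AnalyticAt ℂ locK_cay_U8a u := by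
    intro u hu
    unfold locK_cay_U8a
    exact (analyticAt_const.mul (analyticAt_const.sub analyticAt_id)).div
      (analyticAt_const.add analyticAt_id) hu
  have hψt : ∀ k, AnalyticAt ℂ (fun t : ℂ × ℂ => ψ k t / ψ k (0, 0)) (0, 0) := by
    intro k
    exact AnalyticAt.div (hψ k) analyticAt_const (hψ0 k)
  have hWa : ∀ k, AnalyticAt ℂ (W k) (0, 0) := by
    intro k
    rw [hWdef]
    apply AnalyticAt.fun_comp _ (hψt k)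
    apply hcay
    simp only [div_self (hψ0 k)]
    norm_num
  have hW0 : ∀ k, W k (0, 0) = 0 := by
    intro k
    rw [hWdef]
    simp only [div_self (hψ0 k)]
    simp [locK_cay_U8a]
  have hcont : ∀ k, ContinuousAt (fun t : ℂ × ℂ => 1 + ψ k t / ψ k (0, 0)) (0, 0) :=
    fun k => continuousAt_const.add (hψt k).continuousAt
  have hne : ∀ k, ∀ᶠ t in 𝓝 ((0 : ℂ), (0 : ℂ)), 1 + ψ k t / ψ k (0, 0) ≠ 0 := by
    intro k
    apply (hcont k).eventually_ne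
    simp only [div_self (hψ0 k)]
    norm_num
  have hle8 : ∀ k, ∀ᶠ t in 𝓝 ((0 : ℂ), (0 : ℂ)), ‖1 + ψ k t / ψ k (0, 0)‖ ^ 2 < 8 := by
    intro k
    have h1 : Tendsto (fun t : ℂ × ℂ => ‖1 + ψ k t / ψ k (0, 0)‖ ^ 2)
        (𝓝 ((0 : ℂ), (0 : ℂ))) (𝓝 4) := by
      have h2 : Tendsto (fun t : ℂ × ℂ => ‖1 + ψ k t / ψ k (0, 0)‖ ^ 2)
          (𝓝 ((0 : ℂ), (0 : ℂ))) (𝓝 (‖1 + ψ k (0, 0) / ψ k (0, 0)‖ ^ 2)) :=
        (hcont k).norm.tendsto.pow 2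
      have e : ‖1 + ψ k (0, 0) / ψ k (0, 0)‖ ^ 2 = 4 := by
        rw [div_self (hψ0 k), show (1 : ℂ) + 1 = ((2 : ℝ) : ℂ) by norm_num,
          Complex.norm_real]
        norm_num
      rw [e] at h2
      exact h2
    exact h1.eventually (gt_mem_nhds (by norm_num))
  have hWpos : ∀ k, ∀ᶠ t in 𝓝 ((0 : ℂ), (0 : ℂ)), 0 < R t → R t ≤ (8 / c) * (W k t).im := by
    intro k
    filter_upwards [hψ1 k, hle8 k, hne k] with t ht ht8 htn ht1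
    have h1 := ht ht1
    have h2 : (W k t).im = (1 - ‖ψ k t‖ ^ 2) / ‖1 + ψ k t / ψ k (0, 0)‖ ^ 2 := by
      rw [hWdef]
      simp only
      rw [locK_cay_im_U8a, norm_div, hψp k, div_one]
    have h3 : 0 < ‖1 + ψ k t / ψ k (0, 0)‖ ^ 2 := by
      have := norm_pos_iff.mpr htn
      positivity
    have h4 : c * R t / 8 ≤ (W k t).im := by
      rw [h2]
      apply div_le_div₀ _ h1 h3 ht8.le
      exact le_trans (by positivity) h1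
    calc R t = (8 / c) * (c * R t / 8) := by field_simp
      _ ≤ (8 / c) * (W k t).im := mul_le_mul_of_nonneg_left h4 (by positivity)
  have hAn : ∀ᶠ t in 𝓝 ((0 : ℂ), (0 : ℂ)), ∀ k, 1 + ψ k t / ψ k (0, 0) ≠ 0 :=
    Filter.eventually_all.mpr hne
  obtain ⟨ρ', hρ', hρ's⟩ := Metric.eventually_nhds_iff_ball.mp hAn
  obtain ⟨r, κ, L, z, hr, hrρ, hκ, hκ1, hL, hLC⟩ :=
    lc_exists hR hR0 W hWa hW0 (c := 8 / c) (by positivity) hWpos (lt_min hρ₀ hρ')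
  obtain ⟨C, r₁, hr₁, hr₁r, hloc⟩ := locV K (r := r) (κ := κ) (L := L) (δ := δ) hr hκ hκ1 hL hδ hδ1
  have hBr : ∀ t ∈ Bo r, ∀ k, 1 + ψ k t / ψ k (0, 0) ≠ 0 := by
    intro t ht
    apply hρ's
    rw [mem_ball, Prod.dist_eq, max_lt_iff, dist_eq_norm, dist_eq_norm]
    simp only [sub_zero]
    exact ⟨lt_of_lt_of_le ht.1 (hrρ.trans (min_le_right _ _)),
      lt_of_lt_of_le ht.2 (hrρ.trans (min_le_right _ _))⟩
  have hmono : ∀ {a b : ℝ}, a ≤ b → ∀ t ∈ Bo a, t ∈ Bo b := by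
    intro a b hab t ht
    exact ⟨lt_of_lt_of_le ht.1 hab, lt_of_lt_of_le ht.2 hab⟩
  have hrρ₀ : r ≤ ρ₀ := hrρ.trans (min_le_left _ _)
  refine ⟨C, r₁, hr₁, hr₁r.trans hrρ₀, ?_⟩
  intro f hf hf1 G hG hG1 hGδ
  have hval : ∀ k, ∀ t ∈ Bo r, ψ k (0, 0) * locK_cayI_U8a (W k t) = ψ k t := by
    intro k t ht
    have h7 : locK_cayI_U8a (W k t) = ψ k t / ψ k (0, 0) := locK_cayI_cay_U8a (hBr t ht k)
    rw [h7, mul_div_cancel₀ _ (hψ0 k)]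
  have hsol : Bz {x | x ∈ Bo r₁ ∧ 0 < R x} W (fun k w => f k (ψ k (0, 0) * locK_cayI_U8a w))
      G C := by
    refine hloc R W z hLC (fun k w => f k (ψ k (0, 0) * locK_cayI_U8a w)) ?_ ?_ G ?_ ?_ ?_
    · intro k
      apply (hf k).comp
      · exact (differentiableOn_const _).mul locK_cayI_diff_U8a
      · intro w hw
        rw [mem_ball_zero_iff, norm_mul, hψp k, one_mul]
        exact locK_cayI_norm_U8a hw
    · intro k w hw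
      apply hf1 k
      rw [mem_ball_zero_iff, norm_mul, hψp k, one_mul]
      exact locK_cayI_norm_U8a hw
    · exact hG.mono fun t ht => ⟨hmono hrρ₀ t ht.1, ht.2⟩
    · intro t ht ht2
      exact hG1 _ (hmono hrρ₀ t ht) ht2
    · intro t ht ht2 h1
      apply hGδ _ (hmono hrρ₀ t ht) ht2
      intro k
      have h2 : ‖f k (ψ k (0, 0) * locK_cayI_U8a (W k t))‖ < δ := h1 k
      rw [hval k t ht] at h2
      exact h2
  obtain ⟨g, g₀, hg1, hg2, hg3, hg4, hg5⟩ := hsol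
  refine ⟨g, g₀, hg1, hg2, hg3, hg4, ?_⟩
  intro x hx
  rw [← hg5 x hx]
  congr 1
  apply Finset.sum_congr rfl
  intro k _
  simp only
  rw [hval k x (hmono hr₁r x hx.1)]

end Pool.Agent.P157D
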